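import Pool.Agent.Lib_helper98.WM.Tree

/-! Axes of isometries of trees with translation length one. -/

namespace Pool.Agent.WM

open Pointwise

theorem IsTree.path {T : Type*} {d : T → T → ℕ} (h : IsTree d) {y : ℕ → T}
    (h1 : ∀ k, d (y k) (y (k + 1)) = 1) (h2 : ∀ k, d (y k) (y (k + 2)) = 2) (k n : ℕ) :
    d (y k) (y (k + n)) = n := by
  have key : ∀ n, d (y k) (y (k + n)) = n ∧ d (y k) (y (k + n + 1)) = n + 1 := by
    intro n
    induction n with
    | zero => exact ⟨h.self _, h1 k⟩
    | succ n ih =>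
      refine ⟨ih.2, ?_⟩
      have a1 := h1 (k + n)
      have a2 : d (y (k + n + 1)) (y (k + n + 2)) = 1 := h1 (k + n + 1)
      have a3 := h2 (k + n)
      have g := h.glue (x := y k) (y := y (k + n)) (z := y (k + n + 1)) (w := y (k + n + 2))
        (by omega) (by omega) (by omega)
      have e : k + (n + 1) + 1 = k + n + 2 := by ring
      rw [e]
      omega
  exact (key n).1

variable {T G : Type*} [Group G] [MulAction G T]

/-- The orbit of `v` under the powers of `t`. -/
def line (v : T) (t : G) : Set T := {x | ∃ n : ℤ, x = t ^ n • v}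

/-- `v` lies on the axis of `t` and is moved by one. -/
structure Axis (d : T → T → ℕ) (v : T) (t : G) : Prop where
  tree : IsTree d
  iso : ∀ (g : G) (x y : T), d (g • x) (g • y) = d x y
  one : d v (t • v) = 1
  two : d v (t • t • v) = 2

namespace Axis

variable {d : T → T → ℕ} {v : T} {t : G}
variable (h : Axis d v t)
include h

theorem nat (n : ℕ) : d v (t ^ n • v) = n := by
  have h1 : ∀ k : ℕ, d (t ^ k • v) (t ^ (k + 1) • v) = 1 := by
    intro k
    rw [pow_succ, mul_smul, h.iso]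
    exact h.one
  have h2 : ∀ k : ℕ, d (t ^ k • v) (t ^ (k + 2) • v) = 2 := by
    intro k
    rw [pow_succ, pow_succ, mul_smul, mul_smul, h.iso]
    exact h.two
  have := h.tree.path (y := fun k => t ^ k • v) h1 h2 0 n
  simp only [pow_zero, one_smul, zero_add] at this
  exact this

theorem dist (m n : ℤ) : d (t ^ m • v) (t ^ n • v) = (n - m).natAbs := by
  have key : ∀ m n : ℤ, m ≤ n → d (t ^ m • v) (t ^ n • v) = (n - m).natAbs := by
    intro m n hmn
    have e : t ^ n • v = t ^ m • t ^ (n - m) • v := by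
      rw [← mul_smul, ← zpow_add]; congr 2; ring
    rw [e, h.iso]
    have e2 : (n - m) = ((n - m).natAbs : ℤ) := by omega
    have := h.nat (n - m).natAbs
    rw [← zpow_natCast, ← e2] at this
    exact this
  rcases le_total m n with hmn | hmn
  · exact key m n hmn
  · rw [h.tree.symm, key n m hmn]; omega

theorem conv : Conv d (line v t) := by
  rintro x ⟨m, rfl⟩ y ⟨n, rfl⟩ z hz
  have hd := h.dist m n
  rcases le_total m n with hmn | hmn
  · refine ⟨m + d (t ^ m • v) z, ?_⟩
    refine h.tree.uniq hz ?_ ?_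
    · rw [h.dist, h.dist, hd]; omega
    · rw [h.dist]; omega
  · refine ⟨m - d (t ^ m • v) z, ?_⟩
    refine h.tree.uniq hz ?_ ?_
    · rw [h.dist, h.dist, hd]; omega
    · rw [h.dist]; omega

theorem zpow_ne {n : ℤ} (hn : n ≠ 0) : t ^ n ≠ 1 := by
  intro h1
  have := h.dist 0 n
  rw [h1, zpow_zero, h.tree.self] at this
  omega

omit h in
theorem mem_line (g : G) (x : T) : x ∈ g • line v t ↔ ∃ n : ℤ, x = g • t ^ n • v := by
  constructor
  · rintro ⟨y, ⟨n, rfl⟩, rfl⟩
    exact ⟨n, rfl⟩
  · rintro ⟨n, rfl⟩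
    exact ⟨_, ⟨n, rfl⟩, rfl⟩

/-- Two points of a translate of the line are the start and the end of a piece. -/
theorem dir {s : G} (hs : s • v = v) (hst : s * t * s⁻¹ = t⁻¹) {g : G} {x y : T}
    (hx : x ∈ g • line v t) (hy : y ∈ g • line v t) :
    ∃ a : G, a • v = x ∧ a • t ^ (d x y) • v = y ∧ a • line v t = g • line v t ∧
      (a * t * a⁻¹ = g * t * g⁻¹ ∨ a * t * a⁻¹ = (g * t * g⁻¹)⁻¹) := by
  rw [mem_line] at hx hy
  obtain ⟨m, rfl⟩ := hx
  obtain ⟨n, rfl⟩ := hy
  rw [h.iso, h.dist]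
  have hsn : ∀ k : ℤ, s * t ^ k = t ^ (-k) * s := by
    intro k
    have : s * t ^ k * s⁻¹ = t ^ (-k) := by
      rw [← conj_zpow, hst, inv_zpow, zpow_neg]
    rw [← this]; group
  rcases le_total m n with hmn | hmn
  · refine ⟨g * t ^ m, mul_smul _ _ _, ?_, ?_, Or.inl (by group)⟩
    · rw [mul_smul, ← zpow_natCast, ← mul_smul (t ^ m), ← zpow_add]
      congr 3; omega
    · ext z
      rw [mem_line, mem_line]
      constructor
      · rintro ⟨k, rfl⟩
        exact ⟨m + k, by rw [mul_smul, ← mul_smul (t ^ m), ← zpow_add]⟩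
      · rintro ⟨k, rfl⟩
        refine ⟨k - m, ?_⟩
        rw [mul_smul, ← mul_smul (t ^ m), ← zpow_add]
        congr 3; ring
  · refine ⟨g * t ^ m * s, ?_, ?_, ?_, Or.inr ?_⟩
    · rw [mul_smul, hs, mul_smul]
    · rw [← zpow_natCast, ← mul_smul, mul_assoc, hsn, ← mul_assoc, mul_smul, hs, mul_assoc,
        ← zpow_add, mul_smul]
      congr 3; omega
    · ext z
      rw [mem_line, mem_line]
      have e : ∀ k : ℤ, (g * t ^ m * s) • t ^ k • v = g • t ^ (m - k) • v := by
        intro k
        rw [← mul_smul, mul_assoc, hsn, ← mul_assoc, mul_smul, hs, mul_assoc, ← zpow_add, mul_smul]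
        rfl
      constructor
      · rintro ⟨k, rfl⟩
        exact ⟨m - k, e k⟩
      · rintro ⟨k, rfl⟩
        refine ⟨m - k, ?_⟩
        rw [e]
        congr 3; ring
    · have e : g * t ^ m * s * t * (g * t ^ m * s)⁻¹ = g * (t ^ m * (s * t * s⁻¹) * (t ^ m)⁻¹) * g⁻¹ := by
        group
      rw [e, hst]
      group

end Axis

end Pool.Agent.WM
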