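import Pool.Agent.Lib_helper98.WM.Lines

/-! Consequences of the windmill for the normal subgroup generated by the relators. -/

namespace Pool.Agent.WM

open Pool.Agent.HZ Pointwise

/-- The normal subgroup generated by the relators. -/
def NN (q : ℕ) (D : ℕ → Bool → Option ℕ) : Subgroup (GG q) :=
  Subgroup.closure {g | ∃ S ∈ FF q D, g ∈ RR q D S}

variable {q : ℕ} {D : ℕ → Bool → Option ℕ}

theorem Adm.normal (hD : Adm q D) : (NN q D).Normal where
  conj_mem := by
    intro n hn g
    have : n ∈ (NN q D).comap (MulAut.conj g).toMonoidHom := by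
      revert n
      change NN q D ≤ _
      unfold NN
      rw [Subgroup.closure_le]
      rintro r ⟨S, hS, hr⟩
      exact Subgroup.subset_closure ⟨g • S, hD.mill.inv g S hS, hD.mill.conj g S r hr⟩
    exact this

theorem mem_NN {j n : ℕ} {b : Bool} (h : D j b = some n) : tau q j b ^ n ∈ NN q D := by
  refine Subgroup.subset_closure ⟨ln q j b 1, ⟨1, j, b, n, h, rfl⟩, ?_⟩
  exact Subgroup.subset_closure ⟨1, j, b, n, h, rfl, by group⟩

theorem Adm.main (hD : Adm q D) {g : GG q} (hg : g ∈ NN q D) :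
    (g ≠ 1 → ∃ S ∈ FF q D, ∃ e ∈ S, ∃ f ∈ S,
      rd root e + rd e f + rd f (g • (root : VV q)) = rd root (g • (root : VV q)) ∧
        3 ≤ rd e f) ∧
    (∀ S ∈ FF q D, (root : VV q) ∈ S → g • (root : VV q) ∈ S → g ∈ RR q D S) :=
  ⟨fun h1 => ((hD.mill.main root hg).1 h1).2, (hD.mill.main root hg).2⟩

theorem Adm.two (hD : Adm q D) {g : GG q} (hg : g ∈ NN q D)
    (h : rd root (g • (root : VV q)) ≤ 1) : g = 1 := by
  by_contra h1
  have := ((hD.mill.main root hg).1 h1).1
  omega

theorem Adm.exact (hD : Adm q D) {j n : ℕ} {b : Bool} (h : D j b = some n) {k : ℤ}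
    {δ : GG q} (hδ : δ • (root : VV q) = root) (hk : tau q j b ^ k * δ ∈ NN q D) :
    (n : ℤ) ∣ k ∧ δ = 1 := by
  obtain ⟨hj, hjq, _⟩ := hD.rng j b n h
  have hax := tau_axis hj hjq b
  have h1 : (root : VV q) ∈ ln q j b 1 := by
    unfold ln
    rw [Axis.mem_line]
    exact ⟨0, by rw [zpow_zero, one_smul, one_smul]⟩
  have h2 : (tau q j b ^ k * δ) • (root : VV q) ∈ ln q j b 1 := by
    unfold ln
    rw [Axis.mem_line]
    exact ⟨k, by rw [mul_smul, hδ, one_smul]⟩
  have h3 := hD.RR_le h 1 ((hD.main hk).2 _ ⟨1, j, b, n, h, rfl⟩ h1 h2)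
  rw [one_mul, inv_one, mul_one] at h3
  obtain ⟨m, hm⟩ := Subgroup.mem_zpowers_iff.1 h3
  rw [← zpow_natCast, ← zpow_mul] at hm
  have h4 : tau q j b ^ ((n : ℤ) * m) • (root : VV q) = tau q j b ^ k • root := by
    rw [hm, mul_smul, hδ]
  have h5 := hax.dist (n * m) k
  rw [h4, hax.tree.self] at h5
  have h6 : k = n * m := by omega
  refine ⟨⟨m, h6⟩, ?_⟩
  rw [h6] at hm
  exact (mul_eq_left.1 hm.symm)

theorem Adm.free (hD : Adm q D) {j : ℕ} {b : Bool} (hj : 1 ≤ j) (hjq : 2 * j ≤ q)
    (h1 : D j b = none) (h2 : 2 * j = q → D j (!b) = none) {k : ℤ}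
    (hk : tau q j b ^ k ∈ NN q D) : k = 0 := by
  by_contra hk0
  have hax := tau_axis hj hjq b
  obtain ⟨S, ⟨g, j', b', n', h', rfl⟩, e, he, f, hf, h3, h4⟩ := (hD.main hk).1 (hax.zpow_ne hk0)
  obtain ⟨hj', hjq', _⟩ := hD.rng j' b' n' h'
  have ht := hax.tree
  have r1 : (root : VV q) ∈ line root (tau q j b) := ⟨0, by rw [zpow_zero, one_smul]⟩
  have r2 : tau q j b ^ k • (root : VV q) ∈ line root (tau q j b) := ⟨k, rfl⟩
  have t1 := ht.tri root e (tau q j b ^ k • (root : VV q))
  have t2 := ht.tri e f (tau q j b ^ k • (root : VV q))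
  have t3 := ht.tri root e f
  have t4 := ht.tri root f (tau q j b ^ k • (root : VV q))
  have e1 : e ∈ ln q j b 1 := by
    unfold ln; rw [one_smul]
    exact hax.conv _ r1 _ r2 _ (by omega)
  have f1 : f ∈ ln q j b 1 := by
    unfold ln; rw [one_smul]
    exact hax.conv _ r1 _ r2 _ (by omega)
  obtain ⟨a, ha1, ha2, _⟩ := dirq hj hjq b e1 f1
  obtain ⟨a', ha1', ha2', _⟩ := dirq hj' hjq' b' he hf
  obtain ⟨hjj, _, _, _, _, h5⟩ := common hj hjq hj' hjq' ha1 ha2 ha1' ha2' (by omega)
  subst hjj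
  rcases h5 h4 with h6 | h6
  · rw [h6, h1] at h'
    exact absurd h' (by simp)
  · by_cases hb : b' = b
    · rw [hb, h1] at h'
      exact absurd h' (by simp)
    · have hb' : b' = !b := by cases b <;> cases b' <;> simp_all
      rw [hb', h2 h6] at h'
      exact absurd h' (by simp)

/-- The labels of the path used for the element of infinite order. -/
def lab (q k : ℕ) : ZMod q := ((k + k / 2 : ℕ) : ZMod q)

/-- The path used for the element of infinite order. -/
def yy (q : ℕ) : ℕ → VV q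
  | 0 => root
  | k + 1 => tog (lab q k) (yy q k)

/-- The element of infinite order. -/
def uu (q : ℕ) : GG q := xx q 0 * (xx q 1 * xx q 2) * xx q 0 * (xx q 1 * xx q 2) ^ 2

theorem uu_has (q : ℕ) : Has (uu q) 1 3 (yy q 2) := by
  have h1 := (rot_has (q := q) 1)
  rw [pow_one] at h1
  have h := (((movG_has q).mul h1).mul (movG_has q)).mul (rot_has 2)
  refine h.cast (by ring) (by push_cast; ring) ?_
  rw [mul_smul, (movG_has q).rt, ((movG_has q).mul h1).tog, mul_smul, h1.rt, (movG_has q).rt]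
  change tog _ (tog 0 root) = tog (lab q 1) (tog (lab q 0) root)
  congr 1
  · simp [lab]
  · simp [lab]

theorem uu_yy (q k : ℕ) : uu q • yy q k = yy q (k + 2) := by
  induction k with
  | zero => exact (uu_has q).rt
  | succ k ih =>
    change uu q • tog (lab q k) (yy q k) = tog (lab q (k + 2)) (yy q (k + 2))
    rw [(uu_has q).tog, ih]
    congr 1
    unfold lab
    have : k + 2 + (k + 2) / 2 = k + k / 2 + 3 := by omega
    rw [this]; push_cast; ring

theorem uu_pow (q n : ℕ) : uu q ^ n • (root : VV q) = yy q (2 * n) := by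
  induction n with
  | zero => rw [pow_zero, one_smul]; rfl
  | succ n ih => rw [pow_succ', mul_smul, ih, uu_yy]; rfl

theorem lab_succ (q k : ℕ) : lab q (k + 1) = lab q k + 1 ∨ lab q (k + 1) = lab q k + 2 := by
  unfold lab
  rcases Nat.even_or_odd' k with ⟨m, rfl | rfl⟩
  · left
    have : 2 * m + 1 + (2 * m + 1) / 2 = 2 * m + 2 * m / 2 + 1 := by omega
    rw [this]; push_cast; ring
  · right
    have : 2 * m + 1 + 1 + (2 * m + 1 + 1) / 2 = 2 * m + 1 + (2 * m + 1) / 2 + 2 := by omega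
    rw [this]; push_cast; ring

theorem small_ne {q : ℕ} (hq : 4 ≤ q) {m : ℕ} (h1 : 1 ≤ m) (h2 : m ≤ 3) : (m : ZMod q) ≠ 0 := by
  intro h
  rw [ZMod.natCast_eq_zero_iff] at h
  have := Nat.le_of_dvd (by omega) h
  omega

theorem lab_ne {q : ℕ} (hq : 4 ≤ q) (k : ℕ) : lab q k ≠ lab q (k + 1) := by
  intro h
  rcases lab_succ q k with h1 | h1
  · rw [h1] at h
    apply small_ne hq (m := 1) (by omega) (by omega)
    push_cast
    linear_combination -h
  · rw [h1] at h
    apply small_ne hq (m := 2) (by omega) (by omega)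
    push_cast
    linear_combination -h

theorem yy_dist {q : ℕ} (hq : 4 ≤ q) (k n : ℕ) : rd (yy q k) (yy q (k + n)) = n := by
  refine rd_tree.path ?_ ?_ k n
  · intro k
    exact rd_tog _ _
  · intro k
    exact rd_tog_tog (lab_ne hq k) _

theorem lab_two {q k : ℕ} (hq : 4 ≤ q) {t : ZMod q} (ht : t = 1 ∨ t = -1)
    (h : lab q (k + 2) - lab q (k + 1) = t * (lab q (k + 1) - lab q k)) : False := by
  have n1 := small_ne hq (m := 1) (by omega) (by omega)
  have n3 := small_ne hq (m := 3) (by omega) (by omega)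
  push_cast at n1 n3
  have key : ∀ x : ZMod q, lab q (k + 2) = lab q k + 3 → (x = 1 ∨ x = 2) →
      lab q (k + 1) = lab q k + x → False := by
    intro x h0 hx h1
    rw [h0, h1] at h
    rcases hx with rfl | rfl <;> rcases ht with rfl | rfl
    · apply n1; linear_combination h
    · apply n3; linear_combination h
    · apply n1; linear_combination -h
    · apply n3; linear_combination h
  have h0 : lab q (k + 2) = lab q k + 3 := by
    unfold lab
    have : k + 2 + (k + 2) / 2 = k + k / 2 + 3 := by omega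
    rw [this]; push_cast; ring
  rcases lab_succ q k with h1 | h1
  · exact key 1 h0 (Or.inl rfl) h1
  · exact key 2 h0 (Or.inr rfl) h1

theorem Adm.inf (hD : Adm q D) (hq : 4 ≤ q) {n : ℕ} (hn : uu q ^ n ∈ NN q D) : n = 0 := by
  by_contra hn0
  have hd : rd root (uu q ^ n • (root : VV q)) = 2 * n := by
    rw [uu_pow]
    have := yy_dist hq 0 (2 * n)
    rw [zero_add] at this
    exact this
  have hne : uu q ^ n ≠ 1 := by
    intro h
    rw [h, one_smul, rd_tree.self] at hd
    omega
  obtain ⟨S, ⟨g, j, b, m, hm, rfl⟩, e, he, f, hf, h3, h4⟩ := (hD.main hn).1 hne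
  obtain ⟨hj, hjq, _⟩ := hD.rng j b m hm
  have ht := rd_tree (α := ZMod q)
  obtain ⟨a, ha1, ha2, _⟩ := dirq hj hjq b he hf
  have t1 := ht.tri root e (uu q ^ n • (root : VV q))
  have t2 := ht.tri e f (uu q ^ n • (root : VV q))
  have t3 := ht.tri root e f
  have t4 := ht.tri root f (uu q ^ n • (root : VV q))
  -- points of the geodesic
  have hy : ∀ i ≤ 2 * n, rd root (yy q i) = i ∧
      rd (yy q i) (uu q ^ n • (root : VV q)) = 2 * n - i := by
    intro i hi
    rw [uu_pow]
    have d1 := yy_dist hq 0 i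
    have d2 := yy_dist hq i (2 * n - i)
    rw [zero_add] at d1
    have e1 : i + (2 * n - i) = 2 * n := by omega
    rw [e1] at d2
    exact ⟨d1, d2⟩
  have pt : ∀ t ≤ rd e f, a • tau q j b ^ t • (root : VV q) = yy q (rd root e + t) := by
    intro t htt
    have l1 := line_step hj hjq b a (rd e f) t htt
    rw [ha1, ha2] at l1
    obtain ⟨y1, y2⟩ := hy (rd root e + t) (by omega)
    have s1 := ht.tri root e (a • tau q j b ^ t • (root : VV q))
    have s2 := ht.tri (a • tau q j b ^ t • (root : VV q)) f (uu q ^ n • (root : VV q))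
    have s3 := ht.tri root (a • tau q j b ^ t • (root : VV q)) (uu q ^ n • (root : VV q))
    refine ht.uniq (x := root) (y := uu q ^ n • (root : VV q)) ?_ ?_ ?_
    · omega
    · omega
    · omega
  have p0 := pt 0 (by omega)
  have p1 := pt 1 (by omega)
  have p2 := pt 2 (by omega)
  have p3 := pt 3 (by omega)
  generalize rd root e = i at *
  rw [pow_zero, one_smul, add_zero] at p0
  rw [pow_one] at p1
  rw [pow_two, mul_smul] at p2
  rw [pow_succ, pow_two, mul_smul (tau q j b * tau q j b), mul_smul (tau q j b)] at p3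
  clear ha1 ha2 pt
  obtain ⟨φ, s, c, hs1, hs2, hs3⟩ := a
  have hh : Has (⟨φ, s, c, hs1, hs2, hs3⟩ : GG q) s c (yy q i) := ⟨hs3, p0⟩
  generalize (⟨φ, s, c, hs1, hs2, hs3⟩ : GG q) = a at *
  have q1 : yy q (i + 1) = tog (lab q i) (yy q i) := rfl
  have q2 : yy q (i + 2) = tog (lab q (i + 1)) (yy q (i + 1)) := rfl
  have q3 : yy q (i + 3) = tog (lab q (i + 2)) (yy q (i + 2)) := rfl
  rw [tau1 hj, hh.tog, p0, q1] at p1
  have c1 := tog_inj_label p1
  rw [tau2 hj, hh.tog, hh.tog, p0, c1, ← q1, q2] at p2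
  have c2 := tog_inj_label p2
  rw [tau3 hj, hh.tog, hh.tog, hh.tog, p0, c1, ← q1, c2, ← q2, q3] at p3
  have c3 := tog_inj_label p3
  refine lab_two hq (k := i) (t := sg q b) ?_ ?_
  · cases b
    · exact Or.inr rfl
    · exact Or.inl rfl
  · rw [← c3, ← c2, ← c1]; ring

end Pool.Agent.WM
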