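import Pool.Agent.Lib_helper56.HZ.Poly

/-! The parameter tuples with long prescribed lengths. -/

namespace Pool.Agent.WM

open Pool.Agent.HZ

/-- The prescribed `j`-hole length; the `1`-holes are the faces, of length `p`. -/
def holeLen (T : Data) (j : ℕ) : Option ℕ := if j = 1 then some T.p else T.h j

/-- The prescribed lengths `p`, `h_j`, `r_j` are at least 6, and they are at least 11 if
`j < q / 2` and both the `j`-hole length and the `j`-zigzag length are prescribed; if `q` is even
and both lengths at `q / 2` are prescribed, their greatest common divisor is at least 6. -/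
structure Long (T : Data) : Prop where
  hole : ∀ j m, 1 ≤ j → 2 * j < T.q → holeLen T j = some m → 6 ≤ m ∧ (T.r j ≠ none → 11 ≤ m)
  zigzag : ∀ j n, 1 ≤ j → 2 * j < T.q → T.r j = some n → 6 ≤ n ∧ (holeLen T j ≠ none → 11 ≤ n)
  midHole : ∀ j m, 2 * j = T.q → T.h j = some m → 6 ≤ m
  midZigzag : ∀ j n, 2 * j = T.q → T.r j = some n → 6 ≤ n
  midBoth : ∀ j m n, 2 * j = T.q → T.h j = some m → T.r j = some n → 6 ≤ Nat.gcd m n

/-- The condition on the two lengths `m`, `n` at `q / 2`, if both are prescribed: `m = n` is even,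
or `m` is odd and `n = 2 m`, or `n` is odd and `m = 2 n`. -/
def MidOK (T : Data) : Prop :=
  ∀ j m n, 2 * j = T.q → T.h j = some m → T.r j = some n →
    (Even m ∧ m = n) ∨ (Odd m ∧ n = 2 * m) ∨ (Odd n ∧ m = 2 * n)

end Pool.Agent.WM
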