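import Pool.Agent.Lib_helper98.WM.Core
import Pool.Agent.Lib_helper98.WM.Params
import Pool.Agent.Lib_helper56.HZ.Reduced

/-! From the parameter tuples of the problem to admissible systems of relators. -/

namespace Pool.Agent.WM

open Pool.Agent.HZ Pointwise

/-- The relators at `q / 2`. -/
def effMid : Option ℕ → Option ℕ → Bool → Option ℕ
  | some m, some n, false => if Even n then some (Nat.gcd m n) else none
  | some m, some n, true => if Even n then none else some (Nat.gcd m n)
  | some m, none, false => some m
  | none, some n, true => some n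
  | _, _, _ => none

/-- The system of relators of a tuple. -/
def eff (T : Data) (j : ℕ) (b : Bool) : Option ℕ :=
  if 1 ≤ j ∧ 2 * j ≤ T.q then
    if 2 * j = T.q then effMid (holeLen T j) (T.r j) b else (if b then T.r j else holeLen T j)
  else none

theorem eff_false {T : Data} {j : ℕ} (h1 : 1 ≤ j) (h2 : 2 * j < T.q) :
    eff T j false = holeLen T j := by
  unfold eff
  rw [if_pos ⟨h1, by omega⟩, if_neg (by omega)]
  simp

theorem eff_true {T : Data} {j : ℕ} (h1 : 1 ≤ j) (h2 : 2 * j < T.q) :
    eff T j true = T.r j := by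
  unfold eff
  rw [if_pos ⟨h1, by omega⟩, if_neg (by omega)]
  simp

theorem eff_mid {T : Data} {j : ℕ} {b : Bool} (h1 : 2 ≤ j) (h2 : 2 * j = T.q) :
    eff T j b = effMid (T.h j) (T.r j) b := by
  unfold eff
  rw [if_pos ⟨by omega, by omega⟩, if_pos h2]
  unfold holeLen
  rw [if_neg (by omega)]

theorem effMid_ge {L : ℕ} {x y : Option ℕ} (hx : ∀ m, x = some m → L ≤ m)
    (hy : ∀ n, y = some n → L ≤ n) (hxy : ∀ m n, x = some m → y = some n → L ≤ Nat.gcd m n)
    {b : Bool} {k : ℕ} (h : effMid x y b = some k) : L ≤ k := by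
  cases x with
  | none =>
    cases y with
    | none => cases b <;> simp [effMid] at h
    | some n =>
      cases b with
      | false => simp [effMid] at h
      | true =>
        simp only [effMid, Option.some.injEq] at h
        rw [← h]; exact hy n rfl
  | some m =>
    cases y with
    | none =>
      cases b with
      | false =>
        simp only [effMid, Option.some.injEq] at h
        rw [← h]; exact hx m rfl
      | true => simp [effMid] at h
    | some n =>
      have hk : k = Nat.gcd m n := by
        cases b <;> by_cases hn : Even n <;> simp [effMid, hn] at h <;> exact h.symm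
      rw [hk]; exact hxy m n rfl rfl

theorem effMid_not_both {x y : Option ℕ} {k l : ℕ} (h1 : effMid x y false = some k)
    (h2 : effMid x y true = some l) : False := by
  cases x with
  | none => cases y <;> simp [effMid] at h1
  | some m =>
    cases y with
    | none => simp [effMid] at h2
    | some n => by_cases hn : Even n <;> simp [effMid, hn] at h1 h2

theorem Long.rng {T : Data} (hT : Long T) (hq : 4 ≤ T.q) {j : ℕ} {b : Bool} {n : ℕ}
    (h : eff T j b = some n) : 1 ≤ j ∧ 2 * j ≤ T.q ∧ 6 ≤ n := by
  by_cases hj : 1 ≤ j ∧ 2 * j ≤ T.q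
  · refine ⟨hj.1, hj.2, ?_⟩
    rcases Nat.lt_or_ge (2 * j) T.q with hlt | hge
    · cases b with
      | true =>
        rw [eff_true hj.1 hlt] at h
        exact (hT.zigzag j n hj.1 hlt h).1
      | false =>
        rw [eff_false hj.1 hlt] at h
        exact (hT.hole j n hj.1 hlt h).1
    · have hjq : 2 * j = T.q := by omega
      rw [eff_mid (by omega) hjq] at h
      exact effMid_ge (fun m hm => hT.midHole j m hjq hm) (fun m hm => hT.midZigzag j m hjq hm)
        (fun m n hm hn => hT.midBoth j m n hjq hm hn) h
  · unfold eff at h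
    rw [if_neg hj] at h
    exact absurd h (by simp)

theorem eff_adm {T : Data} (hq : 4 ≤ T.q) (hT : Long T) : Adm T.q (eff T) := by
  refine ⟨fun j b n h => hT.rng hq h, ?_, ?_⟩
  · intro j b n m hn hm
    obtain ⟨hj, hjq, _⟩ := hT.rng hq hn
    have hne : 2 * j ≠ T.q := by
      intro h
      rw [eff_mid (by omega) h] at hm hn
      cases b with
      | false => exact effMid_not_both hn hm
      | true => exact effMid_not_both hm hn
    refine ⟨?_, hne⟩
    have hlt : 2 * j < T.q := by omega
    cases b with
    | false =>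
      rw [eff_false hj hlt] at hn
      rw [Bool.not_false, eff_true hj hlt] at hm
      exact (hT.hole j n hj hlt hn).2 (by rw [hm]; simp)
    | true =>
      rw [eff_true hj hlt] at hn
      rw [Bool.not_true, eff_false hj hlt] at hm
      exact (hT.zigzag j n hj hlt hn).2 (by rw [hm]; simp)
  · refine ⟨T.p, ?_⟩
    rw [eff_false le_rfl (by omega)]; rfl

/-- Elementary facts on the generators of the acting group. -/
theorem xx_sq (q : ℕ) (i : Fin 3) : xx q i * xx q i = 1 := by
  fin_cases i
  · exact movG_mul q
  · exact flipG_mul 1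
  · exact flipG_mul 0

theorem xx_02 (q : ℕ) : (xx q 0 * xx q 2) ^ 2 = 1 := by
  have h := (movG_has q).mul (flipG_has 0)
  have h2 := h.mul h
  rw [pow_two]
  refine (h2.cast (by ring) (by ring) ?_).ext Has.one
  rw [(movG_has q).rt, h.tog, mul_smul, (flipG_has (0 : ZMod q)).rt, (movG_has q).rt]
  have e : 1 * -1 * (0 : ZMod q) + (1 * 0 + 0) = 0 := by ring
  rw [e, tog_tog]

theorem xx_12 (q : ℕ) : (xx q 1 * xx q 2) ^ q = 1 :=
  ((rot_has (q := q) q).cast rfl (by simp) rfl).ext Has.one

theorem tau_mid {q j : ℕ} (hj : 1 ≤ j) (hjq : 2 * j = q) :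
    Commute (tau q j false) (xx q 2) ∧ tau q j true = tau q j false * xx q 2 := by
  constructor
  · refine comm_mid (xx_sq q 1) (xx_sq q 2) (xx_02 q) (xx_sq q 0) hj ?_
    rw [hjq]; exact xx_12 q
  · exact zig_eq (xx_sq q 2) hj

theorem tau_mid_even {q j m : ℕ} (hj : 1 ≤ j) (hjq : 2 * j = q) (hm : Even m) :
    tau q j true ^ m = tau q j false ^ m := by
  obtain ⟨h1, h2⟩ := tau_mid hj hjq
  rw [h2]
  exact even_pow_mid h1 (xx_sq q 2) hm

theorem pow_mem_of_dvd {G : Type*} [Group G] {H : Subgroup G} {x : G} {g m : ℕ}
    (h : x ^ g ∈ H) (hd : g ∣ m) : x ^ m ∈ H := by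
  obtain ⟨k, rfl⟩ := hd
  rw [pow_mul]
  exact pow_mem h k

/-- The two lengths at `q / 2` are not both prescribed and odd. -/
def NotOdd (T : Data) : Prop :=
  ∀ j m n, 2 * j = T.q → T.h j = some m → T.r j = some n → ¬ (Odd m ∧ Odd n)

/-- The relators hold modulo the normal subgroup of the effective system. -/
theorem rels_NN {T : Data} (hq : 4 ≤ T.q) (hno : NotOdd T) :
    ∀ w ∈ rels T, FreeGroup.lift (xx T.q) w ∈ NN T.q (eff T) := by
  have hx : (fun i => FreeGroup.lift (xx T.q) (FreeGroup.of i)) = xx T.q := by
    funext i; exact FreeGroup.lift_apply_of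
  rintro w (⟨i, rfl⟩ | rfl | rfl | rfl | ⟨j, n, hj1, hj2, hn, rfl⟩ | ⟨j, n, hj1, hj2, hn, rfl⟩)
  · rw [map_pow, FreeGroup.lift_apply_of, pow_two, xx_sq]; exact one_mem _
  · rw [map_pow, map_mul, FreeGroup.lift_apply_of, FreeGroup.lift_apply_of]
    have h1 : eff T 1 false = some T.p := by
      rw [eff_false le_rfl (by omega)]; rfl
    have h2 := mem_NN (q := T.q) h1
    have h3 : tau T.q 1 false = xx T.q 0 * xx T.q 1 := by
      change hole (xx T.q) 1 = _
      simp [hole]
    rw [h3] at h2
    exact h2
  · rw [map_pow, map_mul, FreeGroup.lift_apply_of, FreeGroup.lift_apply_of, xx_12]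
    exact one_mem _
  · rw [map_pow, map_mul, FreeGroup.lift_apply_of, FreeGroup.lift_apply_of, xx_02]
    exact one_mem _
  · rw [map_pow, map_hole, hx]
    change tau T.q j false ^ n ∈ _
    rcases Nat.lt_or_ge (2 * j) T.q with hlt | hge
    · apply mem_NN
      rw [eff_false (by omega) hlt]
      unfold holeLen
      rw [if_neg (by omega)]
      exact hn
    · have hjq : 2 * j = T.q := by omega
      rcases hr : T.r j with _ | n'
      · apply mem_NN
        rw [eff_mid hj1 hjq, hn, hr]; rfl
      · by_cases he : Even n'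
        · have h1 : eff T j false = some (Nat.gcd n n') := by
            rw [eff_mid hj1 hjq, hn, hr]; simp [effMid, he]
          exact pow_mem_of_dvd (mem_NN h1) (Nat.gcd_dvd_left n n')
        · have h1 : eff T j true = some (Nat.gcd n n') := by
            rw [eff_mid hj1 hjq, hn, hr]; simp [effMid, he]
          have hn2 : Even n := by
            by_contra hne
            rw [Nat.not_even_iff_odd] at he hne
            exact hno j n n' hjq hn hr ⟨hne, he⟩
          rw [← tau_mid_even (by omega) hjq hn2]
          exact pow_mem_of_dvd (mem_NN h1) (Nat.gcd_dvd_left n n')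
  · rw [map_pow, map_zigzag, hx]
    change tau T.q j true ^ n ∈ _
    rcases Nat.lt_or_ge (2 * j) T.q with hlt | hge
    · apply mem_NN
      rw [eff_true (by omega) hlt]
      exact hn
    · have hjq : 2 * j = T.q := by omega
      have hj2 : 2 ≤ j := by omega
      rcases hh' : T.h j with _ | m
      · apply mem_NN
        rw [eff_mid hj2 hjq, hn, hh']; rfl
      · by_cases he : Even n
        · have h1 : eff T j false = some (Nat.gcd m n) := by
            rw [eff_mid hj2 hjq, hn, hh']; simp [effMid, he]
          rw [tau_mid_even (by omega) hjq he]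
          exact pow_mem_of_dvd (mem_NN h1) (Nat.gcd_dvd_right m n)
        · have h1 : eff T j true = some (Nat.gcd m n) := by
            rw [eff_mid hj2 hjq, hn, hh']; simp [effMid, he]
          exact pow_mem_of_dvd (mem_NN h1) (Nat.gcd_dvd_right m n)

/-- Words that are trivial in `Γ` act as elements of the normal subgroup. -/
theorem transfer {T : Data} (hD : Adm T.q (eff T)) (hq : 4 ≤ T.q)
    (hno : NotOdd T) {w : FreeGroup (Fin 3)} (hw : PresentedGroup.mk (rels T) w = 1) :
    FreeGroup.lift (xx T.q) w ∈ NN T.q (eff T) := by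
  have := hD.normal
  have h1 : w ∈ Subgroup.normalClosure (rels T) := (QuotientGroup.eq_one_iff w).1 hw
  have h2 : Subgroup.normalClosure (rels T) ≤ (NN T.q (eff T)).comap (FreeGroup.lift (xx T.q)) :=
    Subgroup.normalClosure_le_normal (fun w hw => rels_NN hq hno w hw)
  exact h2 h1

end Pool.Agent.WM
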