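import Pool.Agent.Lib_helper98.WM.Data

/-! The groups `Γ{p,q | h_2,...,h_k}_{r_1,...,r_k}` with long prescribed lengths. -/

namespace Pool.Agent.WM

open Pool.Agent.HZ Pointwise

section Gen

variable (T : Data)

theorem mk_of (i : Fin 3) : PresentedGroup.mk (rels T) (FreeGroup.of i) = gen T i := rfl

theorem mk_hole (j : ℕ) : PresentedGroup.mk (rels T) (hole FreeGroup.of j) = hole (gen T) j :=
  map_hole _ _ _

theorem mk_zigzag (j : ℕ) :
    PresentedGroup.mk (rels T) (zigzag FreeGroup.of j) = zigzag (gen T) j :=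
  map_zigzag _ _ _

theorem ev_hole (j : ℕ) :
    FreeGroup.lift (xx T.q) (hole FreeGroup.of j) = tau T.q j false := by
  rw [map_hole]
  have hx : (fun i => FreeGroup.lift (xx T.q) (FreeGroup.of i)) = xx T.q := by
    funext i; exact FreeGroup.lift_apply_of
  rw [hx]; rfl

theorem ev_zigzag (j : ℕ) :
    FreeGroup.lift (xx T.q) (zigzag FreeGroup.of j) = tau T.q j true := by
  rw [map_zigzag]
  have hx : (fun i => FreeGroup.lift (xx T.q) (FreeGroup.of i)) = xx T.q := by
    funext i; exact FreeGroup.lift_apply_of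
  rw [hx]; rfl

theorem ev_of (i : Fin 3) : FreeGroup.lift (xx T.q) (FreeGroup.of i) = xx T.q i :=
  FreeGroup.lift_apply_of

theorem gen_rel {w : FreeGroup (Fin 3)} (hw : w ∈ rels T) : PresentedGroup.mk (rels T) w = 1 :=
  PresentedGroup.one_of_mem hw

theorem gen_sq (i : Fin 3) : gen T i * gen T i = 1 := by
  have := gen_rel T (w := FreeGroup.of i ^ 2) (Or.inl ⟨i, rfl⟩)
  rw [map_pow, pow_two] at this
  exact this

theorem gen_01 : (gen T 0 * gen T 1) ^ T.p = 1 := by
  have := gen_rel T (w := (FreeGroup.of 0 * FreeGroup.of 1) ^ T.p) (Or.inr (Or.inl rfl))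
  rw [map_pow, map_mul] at this
  exact this

theorem gen_12 : (gen T 1 * gen T 2) ^ T.q = 1 := by
  have := gen_rel T (w := (FreeGroup.of 1 * FreeGroup.of 2) ^ T.q)
    (Or.inr (Or.inr (Or.inl rfl)))
  rw [map_pow, map_mul] at this
  exact this

theorem gen_02 : (gen T 0 * gen T 2) ^ 2 = 1 := by
  have := gen_rel T (w := (FreeGroup.of 0 * FreeGroup.of 2) ^ 2)
    (Or.inr (Or.inr (Or.inr (Or.inl rfl))))
  rw [map_pow, map_mul] at this
  exact this

theorem gen_hole {j n : ℕ} (h1 : 2 ≤ j) (h2 : j ≤ T.q / 2) (h3 : T.h j = some n) :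
    hole (gen T) j ^ n = 1 := by
  have := gen_rel T (w := hole FreeGroup.of j ^ n)
    (Or.inr (Or.inr (Or.inr (Or.inr (Or.inl ⟨j, n, h1, h2, h3, rfl⟩)))))
  rw [map_pow, mk_hole] at this
  exact this

theorem gen_zigzag {j n : ℕ} (h1 : 1 ≤ j) (h2 : j ≤ T.q / 2) (h3 : T.r j = some n) :
    zigzag (gen T) j ^ n = 1 := by
  have := gen_rel T (w := zigzag FreeGroup.of j ^ n)
    (Or.inr (Or.inr (Or.inr (Or.inr (Or.inr ⟨j, n, h1, h2, h3, rfl⟩)))))
  rw [map_pow, mk_zigzag] at this
  exact this

theorem gen_closure : Subgroup.closure (Set.range (gen T)) = ⊤ :=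
  PresentedGroup.closure_range_of (rels T)

/-- At `q / 2`, hole and zigzag elements differ by `ρ2`, which commutes with them. -/
theorem gen_mid {j : ℕ} (hj : 1 ≤ j) (hjq : 2 * j = T.q) :
    Commute (hole (gen T) j) (gen T 2) ∧ zigzag (gen T) j = hole (gen T) j * gen T 2 := by
  constructor
  · refine comm_mid (gen_sq T 1) (gen_sq T 2) (gen_02 T) (gen_sq T 0) hj ?_
    rw [hjq]; exact gen_12 T
  · exact zig_eq (gen_sq T 2) hj

end Gen

/-- If both lengths at `q / 2` are odd, the group is a finite dihedral group. -/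
theorem finite_of_odd {T : Data} (hp : 1 ≤ T.p) {j m n : ℕ} (hj : 2 ≤ j) (hjq : 2 * j = T.q)
    (hm : T.h j = some m) (hn : T.r j = some n) (hm2 : Odd m) (hn2 : Odd n) :
    Finite (Gam T) := by
  obtain ⟨hc, hz⟩ := gen_mid T (j := j) (by omega) hjq
  have e1 := gen_hole T hj (by omega) hm
  have e2 := gen_zigzag T (j := j) (by omega) (by omega) hn
  have e3 : gen T 2 = 1 := by
    have h1 : hole (gen T) j ^ (m * n) = 1 := by rw [pow_mul, e1, one_pow]
    have h2 : zigzag (gen T) j ^ (m * n) = 1 := by rw [mul_comm, pow_mul, e2, one_pow]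
    rw [hz, odd_pow_mid hc (gen_sq T 2), h1, one_mul] at h2
    · exact h2
    · rw [Nat.not_even_iff_odd]; exact hm2.mul hn2
  have hall : ∀ g : Gam T, g ∈ Subgroup.closure {gen T 0, gen T 1} := by
    intro g
    have hg : g ∈ Subgroup.closure (Set.range (gen T)) := by rw [gen_closure]; trivial
    refine (Subgroup.closure_le _).2 ?_ hg
    rintro x ⟨i, rfl⟩
    fin_cases i
    · exact Subgroup.subset_closure (Or.inl rfl)
    · exact Subgroup.subset_closure (Or.inr rfl)
    · change gen T 2 ∈ _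
      rw [e3]; exact one_mem _
  have hfin : Set.Finite (Set.univ : Set (Gam T)) := by
    refine Set.Finite.subset (s := (fun k : ℕ => (gen T 0 * gen T 1) ^ k) '' (Set.Iio T.p) ∪
      (fun k : ℕ => (gen T 0 * gen T 1) ^ k * gen T 0) '' (Set.Iio T.p)) ?_ ?_
    · exact ((Set.finite_Iio T.p).image _).union ((Set.finite_Iio T.p).image _)
    · intro g _
      obtain ⟨k, hk⟩ := dihedral_mem (gen_sq T 0) (gen_sq T 1) g (hall g)
      have hk2 : ∃ l ∈ Set.Iio T.p, (gen T 0 * gen T 1) ^ k = (gen T 0 * gen T 1) ^ l := by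
        refine ⟨(k % T.p).toNat, ?_, ?_⟩
        · have h1 := Int.emod_nonneg k (b := (T.p : ℤ)) (by omega)
          have h2 := Int.emod_lt_of_pos k (b := (T.p : ℤ)) (by omega)
          change (k % T.p).toNat < T.p
          omega
        · have h1 := Int.emod_nonneg k (b := (T.p : ℤ)) (by omega)
          rw [← zpow_natCast, Int.toNat_of_nonneg h1]
          conv_lhs => rw [← Int.emod_add_mul_ediv k T.p]
          rw [zpow_add, zpow_mul, zpow_natCast, gen_01, one_zpow, mul_one]
      obtain ⟨l, hl, hkl⟩ := hk2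
      rcases hk with hk | hk
      · left; exact ⟨l, hl, by rw [hk, hkl]⟩
      · right; exact ⟨l, hl, by rw [hk, hkl]⟩
  exact Set.finite_univ_iff.1 hfin

section Long

variable {T : Data}

/-- Exactness in the presented group. -/
theorem hole_dvd (hD : Adm T.q (eff T)) (hq : 4 ≤ T.q) (hno : NotOdd T) {j n : ℕ}
    (h : eff T j false = some n) {k : ℕ} (hk : hole (gen T) j ^ k = 1) : n ∣ k := by
  have h1 : PresentedGroup.mk (rels T) (hole FreeGroup.of j ^ k) = 1 := by
    rw [map_pow, mk_hole]; exact hk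
  have h2 := transfer hD hq hno h1
  rw [map_pow, ev_hole] at h2
  have h3 := (hD.exact h (k := k) (δ := 1) (one_smul _ _)
    (by rw [zpow_natCast, mul_one]; exact h2)).1
  exact_mod_cast h3

theorem zigzag_dvd (hD : Adm T.q (eff T)) (hq : 4 ≤ T.q) (hno : NotOdd T) {j n : ℕ}
    (h : eff T j true = some n) {k : ℕ} (hk : zigzag (gen T) j ^ k = 1) : n ∣ k := by
  have h1 : PresentedGroup.mk (rels T) (zigzag FreeGroup.of j ^ k) = 1 := by
    rw [map_pow, mk_zigzag]; exact hk
  have h2 := transfer hD hq hno h1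
  rw [map_pow, ev_zigzag] at h2
  have h3 := (hD.exact h (k := k) (δ := 1) (one_smul _ _)
    (by rw [zpow_natCast, mul_one]; exact h2)).1
  exact_mod_cast h3

/-- Elements fixing the root inject into the group. -/
theorem stab_inj (hD : Adm T.q (eff T)) (hq : 4 ≤ T.q) (hno : NotOdd T)
    {w : FreeGroup (Fin 3)} (hw : PresentedGroup.mk (rels T) w = 1)
    (hr : rd root (FreeGroup.lift (xx T.q) w • (root : VV T.q)) ≤ 1) :
    FreeGroup.lift (xx T.q) w = 1 :=
  hD.two (transfer hD hq hno hw) hr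

theorem xx_ne_one (hq : 4 ≤ T.q) :
    xx T.q 0 ≠ 1 ∧ xx T.q 1 ≠ 1 ∧ xx T.q 2 ≠ 1 ∧ xx T.q 0 * xx T.q 2 ≠ 1 := by
  have n1 := small_ne hq (m := 1) (by omega) (by omega)
  have n2 := small_ne hq (m := 2) (by omega) (by omega)
  push_cast at n1 n2
  have key : ∀ (g : GG T.q) (s c : ZMod T.q) (u : VV T.q), Has g s c u → g = 1 →
      s = 1 ∧ c = 0 ∧ u = root := by
    rintro g s c u hg rfl
    have hu : u = root := hg.rt.symm
    have h0 := hg.tog 0 root
    have h1 := hg.tog 1 root
    rw [one_smul, one_smul] at h0 h1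
    have c0 := tog_inj_label h0
    have c1 := tog_inj_label h1
    have hc : c = 0 := by linear_combination -c0
    refine ⟨?_, hc, hu⟩
    rw [hc] at c1
    linear_combination -c1
  have troot : tog (0 : ZMod T.q) root ≠ root := by
    intro h
    have := rd_tog (0 : ZMod T.q) root
    rw [h, rd_tree.self] at this
    omega
  refine ⟨?_, ?_, ?_, ?_⟩
  · intro h; exact troot (key _ _ _ _ (movG_has T.q) h).2.2
  · intro h; exact n1 (key _ _ _ _ (flipG_has 1) h).2.1
  · intro h
    have := (key _ _ _ _ (flipG_has 0) h).1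
    apply n2; linear_combination -this
  · intro h
    have h1 := (key _ _ _ _ ((movG_has T.q).mul (flipG_has 0)) h).2.2
    rw [(movG_has T.q).rt] at h1
    exact troot h1

theorem small_move (T : Data) (w : FreeGroup (Fin 3))
    (h : FreeGroup.lift (xx T.q) w • (root : VV T.q) = root ∨
      FreeGroup.lift (xx T.q) w • (root : VV T.q) = tog 0 root) :
    rd root (FreeGroup.lift (xx T.q) w • (root : VV T.q)) ≤ 1 := by
  rcases h with h | h
  · rw [h, rd_tree.self]; omega
  · rw [h, rd_tog]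

theorem xroot0 (q : ℕ) : xx q 0 • (root : VV q) = tog 0 root := (movG_has q).rt
theorem xroot1 (q : ℕ) : xx q 1 • (root : VV q) = root := (flipG_has _).rt
theorem xroot2 (q : ℕ) : xx q 2 • (root : VV q) = root := (flipG_has _).rt

theorem gen_ne (hD : Adm T.q (eff T)) (hq : 4 ≤ T.q) (hno : NotOdd T) :
    (∀ i, gen T i ≠ 1) ∧ gen T 0 * gen T 2 ≠ 1 := by
  obtain ⟨n0, n1, n2, n3⟩ := xx_ne_one hq
  constructor
  · intro i h
    have h1 : FreeGroup.lift (xx T.q) (FreeGroup.of i) = 1 := by
      refine stab_inj hD hq hno (w := FreeGroup.of i) h (small_move T _ ?_)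
      rw [ev_of]
      fin_cases i
      · right; exact xroot0 _
      · left; exact xroot1 _
      · left; exact xroot2 _
    rw [ev_of] at h1
    fin_cases i
    · exact n0 h1
    · exact n1 h1
    · exact n2 h1
  · intro h
    have h1 : FreeGroup.lift (xx T.q) (FreeGroup.of 0 * FreeGroup.of 2) = 1 := by
      refine stab_inj hD hq hno ?_ (small_move T _ ?_)
      · rw [map_mul]; exact h
      · rw [map_mul, ev_of, ev_of]
        right
        rw [mul_smul, xroot2, xroot0]
    rw [map_mul, ev_of, ev_of] at h1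
    exact n3 h1

theorem gen_12_order (hD : Adm T.q (eff T)) (hq : 4 ≤ T.q) (hno : NotOdd T) :
    orderOf (gen T 1 * gen T 2) = T.q := by
  apply Nat.dvd_antisymm (orderOf_dvd_of_pow_eq_one (gen_12 T))
  have key : ∀ k, (gen T 1 * gen T 2) ^ k = 1 → T.q ∣ k := by
    intro k hk
    have h1 : FreeGroup.lift (xx T.q) ((FreeGroup.of 1 * FreeGroup.of 2) ^ k) = 1 := by
      refine stab_inj hD hq hno ?_ (small_move T _ ?_)
      · rw [map_pow, map_mul]; exact hk
      · rw [map_pow, map_mul, ev_of, ev_of]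
        left; exact (rot_has k).rt
    rw [map_pow, map_mul, ev_of, ev_of] at h1
    have h2 := (rot_has (q := T.q) k).tog 0 root
    rw [h1, one_smul, one_smul] at h2
    have h3 := tog_inj_label h2
    rw [← ZMod.natCast_eq_zero_iff]
    linear_combination -h3
  exact key _ (pow_orderOf_eq_one _)

theorem gen_01_order (hD : Adm T.q (eff T)) (hq : 4 ≤ T.q) (hno : NotOdd T) :
    orderOf (gen T 0 * gen T 1) = T.p := by
  apply Nat.dvd_antisymm (orderOf_dvd_of_pow_eq_one (gen_01 T))
  have h1 : eff T 1 false = some T.p := by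
    rw [eff_false le_rfl (by omega)]; rfl
  refine hole_dvd hD hq hno h1 ?_
  have : hole (gen T) 1 = gen T 0 * gen T 1 := by simp [hole]
  rw [this]; exact pow_orderOf_eq_one _

theorem gen2_odd (hD : Adm T.q (eff T)) (hq : 4 ≤ T.q) {k : ℕ}
    (h : xx T.q 2 ^ k = 1) : 2 ∣ k := by
  have := hD
  by_contra hk
  have hodd : Odd k := by
    rw [← Nat.not_even_iff_odd, even_iff_two_dvd]; exact hk
  obtain ⟨l, rfl⟩ := hodd
  rw [pow_succ, pow_mul, pow_two, xx_sq, one_pow, one_mul] at h
  exact (xx_ne_one hq).2.2.1 h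

/-- At `q / 2`: the length of the other kind. -/
theorem mid_dvd (hD : Adm T.q (eff T)) (hq : 4 ≤ T.q) (hno : NotOdd T) {j n : ℕ}
    (hjq : 2 * j = T.q) :
    (eff T j false = some n → ∀ k, zigzag (gen T) j ^ k = 1 → n ∣ k ∧ 2 ∣ k) ∧
    (eff T j true = some n → ∀ k, hole (gen T) j ^ k = 1 → n ∣ k ∧ 2 ∣ k) := by
  obtain ⟨hc, hz⟩ := tau_mid (q := T.q) (j := j) (by omega) hjq
  have hr : ∀ k : ℕ, (xx T.q 2 ^ k) • (root : VV T.q) = root := by
    intro k
    induction k with
    | zero => rw [pow_zero, one_smul]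
    | succ k ih => rw [pow_succ, mul_smul, xroot2, ih]
  constructor
  · intro h k hk
    have h1 : PresentedGroup.mk (rels T) (zigzag FreeGroup.of j ^ k) = 1 := by
      rw [map_pow, mk_zigzag]; exact hk
    have h2 := transfer hD hq hno h1
    rw [map_pow, ev_zigzag, hz, hc.mul_pow] at h2
    have h3 := hD.exact h (k := k) (hr k) (by rw [zpow_natCast]; exact h2)
    exact ⟨by exact_mod_cast h3.1, gen2_odd hD hq h3.2⟩
  · intro h k hk
    have h1 : PresentedGroup.mk (rels T) (hole FreeGroup.of j ^ k) = 1 := by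
      rw [map_pow, mk_hole]; exact hk
    have h2 := transfer hD hq hno h1
    have hz' : tau T.q j false = tau T.q j true * xx T.q 2 := by
      rw [hz, mul_assoc, xx_sq, mul_one]
    have hc' : Commute (tau T.q j true) (xx T.q 2) := by
      rw [hz]
      exact hc.mul_left (Commute.refl _)
    rw [map_pow, ev_hole, hz', hc'.mul_pow] at h2
    have h3 := hD.exact h (k := k) (hr k) (by rw [zpow_natCast]; exact h2)
    exact ⟨by exact_mod_cast h3.1, gen2_odd hD hq h3.2⟩

theorem notOdd_of_midOK (h : MidOK T) : NotOdd T := by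
  rintro j m n hjq hm hn ⟨h1, h2⟩
  rw [← Nat.not_even_iff_odd] at h1 h2
  rcases h j m n hjq hm hn with ⟨h3, _⟩ | ⟨_, h3⟩ | ⟨_, h3⟩
  · exact h1 h3
  · apply h2; rw [h3]; exact even_two_mul m
  · apply h1; rw [h3]; exact even_two_mul n

theorem true_orders (hD : Adm T.q (eff T)) (hq : 4 ≤ T.q) (hmid : MidOK T) :
    TrueOrders T (gen T) := by
  have hno := notOdd_of_midOK hmid
  refine ⟨(gen_ne hD hq hno).1, (gen_ne hD hq hno).2, gen_01_order hD hq hno,
    gen_12_order hD hq hno, ?_, ?_⟩
  · intro j n hj hjq hn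
    apply Nat.dvd_antisymm (orderOf_dvd_of_pow_eq_one (gen_hole T hj hjq hn))
    have h0 := pow_orderOf_eq_one (hole (gen T) j)
    rcases Nat.lt_or_ge (2 * j) T.q with hlt | hge
    · refine hole_dvd hD hq hno ?_ h0
      rw [eff_false (by omega) hlt]
      unfold holeLen
      rw [if_neg (by omega)]
      exact hn
    · have hjq' : 2 * j = T.q := by omega
      rcases hr : T.r j with _ | n'
      · refine hole_dvd hD hq hno ?_ h0
        rw [eff_mid hj hjq', hn, hr]; rfl
      · rcases hmid j n n' hjq' hn hr with ⟨h1, h2⟩ | ⟨h1, h2⟩ | ⟨h1, h2⟩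
        · subst h2
          refine hole_dvd hD hq hno ?_ h0
          rw [eff_mid hj hjq', hn, hr]; simp [effMid, h1]
        · refine hole_dvd hD hq hno ?_ h0
          rw [eff_mid hj hjq', hn, hr, h2]; simp [effMid]
        · have he : ¬ Even n' := by rw [Nat.not_even_iff_odd]; exact h1
          have h3 : eff T j true = some n' := by
            rw [eff_mid hj hjq', hn, hr, h2]; simp [effMid, he]
          obtain ⟨h4, h5⟩ := (mid_dvd hD hq hno hjq').2 h3 _ h0
          rw [h2]
          refine Nat.Coprime.mul_dvd_of_dvd_of_dvd ?_ h5 h4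
          exact (Nat.coprime_two_left).2 h1
  · intro j n hj hjq hn
    apply Nat.dvd_antisymm (orderOf_dvd_of_pow_eq_one (gen_zigzag T hj hjq hn))
    have h0 := pow_orderOf_eq_one (zigzag (gen T) j)
    rcases Nat.lt_or_ge (2 * j) T.q with hlt | hge
    · refine zigzag_dvd hD hq hno ?_ h0
      rw [eff_true (by omega) hlt]
      exact hn
    · have hjq' : 2 * j = T.q := by omega
      have hj2 : 2 ≤ j := by omega
      rcases hh' : T.h j with _ | m
      · refine zigzag_dvd hD hq hno ?_ h0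
        rw [eff_mid hj2 hjq', hn, hh']; rfl
      · rcases hmid j m n hjq' hh' hn with ⟨h1, h2⟩ | ⟨h1, h2⟩ | ⟨h1, h2⟩
        · subst h2
          have h3 : eff T j false = some m := by
            rw [eff_mid hj2 hjq', hn, hh']; simp [effMid, h1]
          exact ((mid_dvd hD hq hno hjq').1 h3 _ h0).1
        · have h3 : eff T j false = some m := by
            rw [eff_mid hj2 hjq', hn, hh', h2]; simp [effMid]
          obtain ⟨h4, h5⟩ := (mid_dvd hD hq hno hjq').1 h3 _ h0
          rw [h2]
          refine Nat.Coprime.mul_dvd_of_dvd_of_dvd ?_ h5 h4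
          exact (Nat.coprime_two_left).2 h1
        · have he : ¬ Even n := by rw [Nat.not_even_iff_odd]; exact h1
          refine zigzag_dvd hD hq hno ?_ h0
          rw [eff_mid hj2 hjq', hn, hh', h2]; simp [effMid, he]

theorem infinite (hD : Adm T.q (eff T)) (hq : 4 ≤ T.q) (hno : NotOdd T) :
    Infinite (Gam T) := by
  rw [← not_finite_iff_infinite]
  intro hfin
  set U : FreeGroup (Fin 3) := FreeGroup.of 0 * (FreeGroup.of 1 * FreeGroup.of 2) *
    FreeGroup.of 0 * (FreeGroup.of 1 * FreeGroup.of 2) ^ 2 with hU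
  have h1 : PresentedGroup.mk (rels T) (U ^ orderOf (PresentedGroup.mk (rels T) U)) = 1 := by
    rw [map_pow, pow_orderOf_eq_one]
  have h2 := transfer hD hq hno h1
  have h3 : FreeGroup.lift (xx T.q) U = uu T.q := by
    rw [hU]
    simp only [map_mul, map_pow, FreeGroup.lift_apply_of]
    rfl
  rw [map_pow, h3] at h2
  have h4 := hD.inf hq h2
  exact (orderOf_pos (PresentedGroup.mk (rels T) U)).ne' h4

theorem free_hole (hD : Adm T.q (eff T)) (hq : 4 ≤ T.q) (hno : NotOdd T) {j : ℕ}
    (hj : 2 ≤ j) (hjq : 2 * j ≤ T.q) (h1 : T.h j = none) (h2 : 2 * j = T.q → T.r j = none) :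
    orderOf (hole (gen T) j) = 0 := by
  have h0 := pow_orderOf_eq_one (hole (gen T) j)
  have h3 : PresentedGroup.mk (rels T)
      (hole FreeGroup.of j ^ orderOf (hole (gen T) j)) = 1 := by
    rw [map_pow, mk_hole]; exact h0
  have h4 := transfer hD hq hno h3
  rw [map_pow, ev_hole, ← zpow_natCast] at h4
  have h5 := hD.free (by omega) hjq ?_ ?_ h4
  · exact_mod_cast h5
  · rcases Nat.lt_or_ge (2 * j) T.q with hlt | hge
    · rw [eff_false (by omega) hlt]
      unfold holeLen
      rw [if_neg (by omega)]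
      exact h1
    · rw [eff_mid hj (by omega), h1, h2 (by omega)]; rfl
  · intro he
    rw [eff_mid hj he, h1, h2 he]; rfl

theorem free_zigzag (hD : Adm T.q (eff T)) (hq : 4 ≤ T.q) (hno : NotOdd T) {j : ℕ}
    (hj : 1 ≤ j) (hjq : 2 * j ≤ T.q) (h1 : T.r j = none) (h2 : 2 * j = T.q → T.h j = none) :
    orderOf (zigzag (gen T) j) = 0 := by
  have h0 := pow_orderOf_eq_one (zigzag (gen T) j)
  have h3 : PresentedGroup.mk (rels T)
      (zigzag FreeGroup.of j ^ orderOf (zigzag (gen T) j)) = 1 := by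
    rw [map_pow, mk_zigzag]; exact h0
  have h4 := transfer hD hq hno h3
  rw [map_pow, ev_zigzag, ← zpow_natCast] at h4
  have h5 := hD.free (by omega) hjq ?_ ?_ h4
  · exact_mod_cast h5
  · rcases Nat.lt_or_ge (2 * j) T.q with hlt | hge
    · rw [eff_true (by omega) hlt]
      exact h1
    · rw [eff_mid (by omega) (by omega), h1, h2 (by omega)]; rfl
  · intro he
    rw [eff_mid (by omega) he, h1, h2 he]; rfl

end Long

end Pool.Agent.WM
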