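import Pool.Agent.Lib_helper98.WM.Words
import Pool.Agent.Lib_helper98.WM.Axis
import Pool.Agent.Lib_helper56.HZ.Defs

/-! The group generated by the Coxeter generators, acting on the tree of reduced words over
`ZMod q`. -/

namespace Pool.Agent.WM

open Pool.Agent.HZ Pointwise

/-- The vertices of the tree. -/
abbrev VV (q : ℕ) : Type := Red (ZMod q)

/-- `φ` is an automorphism of the tree changing the labels by `i ↦ s i + c`. -/
def Tw {q : ℕ} (φ : Equiv.Perm (VV q)) (s c : ZMod q) : Prop :=
  ∀ i u, φ (tog i u) = tog (s * i + c) (φ u)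

theorem Tw.mul {q : ℕ} {φ ψ : Equiv.Perm (VV q)} {s c s' c' : ZMod q} (h : Tw φ s c)
    (h' : Tw ψ s' c') : Tw (φ * ψ) (s * s') (s * c' + c) := by
  intro i u
  rw [Equiv.Perm.mul_apply, Equiv.Perm.mul_apply, h', h]
  congr 1; ring

theorem Tw.one {q : ℕ} : Tw (1 : Equiv.Perm (VV q)) 1 0 := by
  intro i u
  rw [Equiv.Perm.one_apply, Equiv.Perm.one_apply]
  congr 1; ring

theorem Tw.inv {q : ℕ} {φ : Equiv.Perm (VV q)} {s c : ZMod q} (h : Tw φ s c) (hs : s * s = 1) :
    Tw φ⁻¹ s (-(s * c)) := by
  intro i u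
  have e : ∀ x, φ (φ⁻¹ x) = x := fun x => φ.apply_symm_apply x
  apply φ.injective
  rw [h, e, e]
  congr 1
  have : s * (s * i + -(s * c)) + c = (s * s) * i - (s * s) * c + c := by ring
  rw [this, hs]; ring

theorem Tw.ext {q : ℕ} {φ ψ : Equiv.Perm (VV q)} {s c : ZMod q} (h : Tw φ s c) (h' : Tw ψ s c)
    (hr : φ root = ψ root) : φ = ψ := by
  apply Equiv.ext
  intro u
  refine red_induction (P := fun u => φ u = ψ u) hr ?_ u
  intro i u ih
  rw [h, h', ih]

/-- The group of all automorphisms of the tree that act on the labels as a dihedral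
permutation. -/
def GG (q : ℕ) : Subgroup (Equiv.Perm (VV q)) where
  carrier := {φ | ∃ s c : ZMod q, s * s = 1 ∧ (s = 1 ∨ s = -1) ∧ Tw φ s c}
  one_mem' := ⟨1, 0, by ring, Or.inl rfl, Tw.one⟩
  mul_mem' := by
    rintro φ ψ ⟨s, c, h1, h2, h3⟩ ⟨s', c', h1', h2', h3'⟩
    refine ⟨s * s', s * c' + c, ?_, ?_, h3.mul h3'⟩
    · have : s * s' * (s * s') = (s * s) * (s' * s') := by ring
      rw [this, h1, h1']; ring
    · rcases h2 with rfl | rfl <;> rcases h2' with rfl | rfl <;> simp
  inv_mem' := by
    rintro φ ⟨s, c, h1, h2, h3⟩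
    exact ⟨s, _, h1, h2, h3.inv h1⟩

theorem GG.smul_eq {q : ℕ} (g : GG q) (u : VV q) : g • u = g.1 u := rfl

theorem GG.iso {q : ℕ} (g : GG q) (u w : VV q) : rd (g • u) (g • w) = rd u w := by
  have le : ∀ (g : GG q) (u w : VV q), rd (g • u) (g • w) ≤ rd u w := by
    intro g u w
    obtain ⟨φ, s, c, _, _, h⟩ := g
    exact tw_lip (σ := fun i => s * i + c) h u w
  apply le_antisymm (le g u w)
  have := le g⁻¹ (g • u) (g • w)
  rwa [inv_smul_smul, inv_smul_smul] at this

/-- The element fixing the root with label change `i ↦ c - i`. -/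
def flipP {q : ℕ} (c : ZMod q) : Equiv.Perm (VV q) :=
  Function.Involutive.toPerm (fun u => foldT (fun i => c - i) root u.1) (by
    intro u
    refine red_induction (P := fun u =>
      foldT (fun i => c - i) root (foldT (fun i => c - i) root u.1).1 = u) rfl ?_ u
    intro i u ih
    rw [foldT_tog, foldT_tog, ih]
    congr 1; ring)

theorem flipP_tw {q : ℕ} (c : ZMod q) : Tw (flipP c) (-1) c := by
  intro i u
  change foldT (fun i => c - i) root (tog i u).1 = tog _ (foldT (fun i => c - i) root u.1)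
  rw [foldT_tog]
  congr 1; ring

/-- The element moving the root along the edge with label `0`, without label change. -/
def movP (q : ℕ) : Equiv.Perm (VV q) :=
  Function.Involutive.toPerm (fun u => foldT (fun i => i) (tog (0 : ZMod q) root) u.1) (by
    intro u
    refine red_induction (P := fun u => foldT (fun i => i) (tog (0 : ZMod q) root)
      (foldT (fun i => i) (tog (0 : ZMod q) root) u.1).1 = u) ?_ ?_ u
    · change foldT (fun i => i) (tog (0 : ZMod q) root) (tog (0 : ZMod q) root).1 = root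
      rw [foldT_tog]
      change tog (0 : ZMod q) (tog (0 : ZMod q) root) = root
      rw [tog_tog]
    · intro i u ih
      rw [foldT_tog, foldT_tog, ih])

theorem movP_tw (q : ℕ) : Tw (movP q) 1 0 := by
  intro i u
  change foldT (fun i => i) _ (tog i u).1 = tog _ (foldT (fun i => i) _ u.1)
  rw [foldT_tog]
  congr 1; ring

/-- Group elements with prescribed label change and image of the root. -/
structure Has {q : ℕ} (g : GG q) (s c : ZMod q) (u : VV q) : Prop where
  tw : Tw g.1 s c
  rt : g • root = u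

theorem Has.tog {q : ℕ} {g : GG q} {s c : ZMod q} {u : VV q} (h : Has g s c u) (i : ZMod q)
    (w : VV q) : g • tog i w = WM.tog (s * i + c) (g • w) := h.tw i w

theorem Has.mul {q : ℕ} {g g' : GG q} {s c s' c' : ZMod q} {u u' : VV q} (h : Has g s c u)
    (h' : Has g' s' c' u') : Has (g * g') (s * s') (s * c' + c) (g • u') :=
  ⟨h.tw.mul h'.tw, by rw [mul_smul, h'.rt]⟩

theorem Has.ext {q : ℕ} {g g' : GG q} {s c : ZMod q} {u : VV q} (h : Has g s c u)
    (h' : Has g' s c u) : g = g' := Subtype.ext (h.tw.ext h'.tw (h.rt.trans h'.rt.symm))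

theorem Has.one {q : ℕ} : Has (1 : GG q) 1 0 root := ⟨Tw.one, rfl⟩

theorem Has.cast {q : ℕ} {g : GG q} {s c s' c' : ZMod q} {u u' : VV q} (h : Has g s c u)
    (hs : s = s') (hc : c = c') (hu : u = u') : Has g s' c' u' := by
  subst hs hc hu; exact h

/-- The element fixing the root with label change `i ↦ c - i`. -/
def flipG {q : ℕ} (c : ZMod q) : GG q := ⟨flipP c, -1, c, by ring, Or.inr rfl, flipP_tw c⟩

/-- The element moving the root along the edge with label `0`, without label change. -/
def movG (q : ℕ) : GG q := ⟨movP q, 1, 0, by ring, Or.inl rfl, movP_tw q⟩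

theorem flipG_has {q : ℕ} (c : ZMod q) : Has (flipG c) (-1) c root := ⟨flipP_tw c, rfl⟩

theorem movG_has (q : ℕ) : Has (movG q) 1 0 (tog (0 : ZMod q) root) := ⟨movP_tw q, rfl⟩

theorem flipG_mul {q : ℕ} (c : ZMod q) : flipG c * flipG c = 1 := by
  have h := (flipG_has c).mul (flipG_has c)
  exact (h.cast (by ring) (by ring) (flipG_has c).rt).ext Has.one

theorem movG_mul (q : ℕ) : movG q * movG q = 1 := by
  have h := (movG_has q).mul (movG_has q)
  refine (h.cast (by ring) (by ring) ?_).ext Has.one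
  rw [(movG_has q).tog, (movG_has q).rt, one_mul, zero_add, tog_tog]

/-- The images of the Coxeter generators. -/
def xx (q : ℕ) : Fin 3 → GG q := ![movG q, flipG 1, flipG 0]

theorem xx0 (q : ℕ) : xx q 0 = movG q := rfl
theorem xx1 (q : ℕ) : xx q 1 = flipG 1 := rfl
theorem xx2 (q : ℕ) : xx q 2 = flipG 0 := rfl

theorem rot_has {q : ℕ} (j : ℕ) : Has ((xx q 1 * xx q 2) ^ j) 1 j root := by
  induction j with
  | zero => exact Has.one.cast rfl (by simp) rfl
  | succ j ih =>
    rw [pow_succ]
    have h := ih.mul ((flipG_has (1 : ZMod q)).mul (flipG_has 0))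
    refine h.cast (by ring) (by push_cast; ring) ?_
    rw [(flipG_has (1 : ZMod q)).rt, ih.rt]

theorem rot_has' {q : ℕ} (j : ℕ) : Has ((xx q 2 * xx q 1) ^ j) 1 (-j) root := by
  induction j with
  | zero => exact Has.one.cast rfl (by simp) rfl
  | succ j ih =>
    rw [pow_succ]
    have h := ih.mul ((flipG_has (0 : ZMod q)).mul (flipG_has 1))
    refine h.cast (by ring) (by push_cast; ring) ?_
    rw [(flipG_has (0 : ZMod q)).rt, ih.rt]

/-- The step element of the `j`-holes (`b = false`) and of the `j`-zigzags (`b = true`). -/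
def tau (q : ℕ) (j : ℕ) (b : Bool) : GG q := if b then zigzag (xx q) j else hole (xx q) j

/-- The sign of the label change of the step elements. -/
def sg (q : ℕ) (b : Bool) : ZMod q := if b then 1 else -1

theorem sg_mul (q : ℕ) (b : Bool) : sg q b * sg q b = 1 := by
  cases b <;> simp [sg]

theorem tau_has {q : ℕ} {j : ℕ} (hj : 1 ≤ j) (b : Bool) :
    Has (tau q j b) (sg q b) j (tog 0 root) := by
  cases b with
  | true =>
    have h := (movG_has q).mul (rot_has j)
    exact h.cast (by simp [sg]) (by ring) (movG_has q).rt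
  | false =>
    have h := ((movG_has q).mul (flipG_has 1)).mul (rot_has' (q := q) (j - 1))
    refine h.cast (by simp [sg]) ?_ ?_
    · rw [Nat.cast_sub hj]; push_cast; ring
    · rw [mul_smul, (flipG_has (1 : ZMod q)).rt, (movG_has q).rt]

theorem tau1 {q : ℕ} {j : ℕ} (hj : 1 ≤ j) (b : Bool) :
    tau q j b • (root : VV q) = tog 0 root :=
  (tau_has hj b).rt

theorem tau2 {q : ℕ} {j : ℕ} (hj : 1 ≤ j) (b : Bool) :
    tau q j b • tau q j b • (root : VV q) = tog (j : ZMod q) (tog 0 root) := by
  rw [tau1 hj, (tau_has hj b).tog, tau1 hj]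
  congr 1; ring

theorem tau3 {q : ℕ} {j : ℕ} (hj : 1 ≤ j) (b : Bool) :
    tau q j b • tau q j b • tau q j b • (root : VV q) =
      tog (sg q b * j + j) (tog (j : ZMod q) (tog 0 root)) := by
  rw [tau2 hj, (tau_has hj b).tog, (tau_has hj b).tog, tau1 hj]
  congr 1; congr 1; ring

theorem cast_ne {q j : ℕ} (hj : 1 ≤ j) (hjq : 2 * j ≤ q) : (j : ZMod q) ≠ 0 := by
  intro h
  rw [ZMod.natCast_eq_zero_iff] at h
  have := Nat.le_of_dvd (by omega) h
  omega

theorem tau_axis {q j : ℕ} (hj : 1 ≤ j) (hjq : 2 * j ≤ q) (b : Bool) :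
    Axis (rd (α := ZMod q)) root (tau q j b) where
  tree := rd_tree
  iso := GG.iso
  one := by rw [tau1 hj]; exact rd_tog _ _
  two := by
    rw [tau2 hj]
    exact rd_tog_tog (fun h => cast_ne hj hjq h.symm) _

/-- The involution reversing the line of `tau`. -/
def rev (q j : ℕ) (b : Bool) : GG q := flipG (-(sg q b) * j)

theorem rev_root (q j : ℕ) (b : Bool) : rev q j b • (root : VV q) = root := (flipG_has _).rt

theorem rev_conj {q j : ℕ} (hj : 1 ≤ j) (b : Bool) :
    rev q j b * tau q j b * (rev q j b)⁻¹ = (tau q j b)⁻¹ := by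
  have h1 : rev q j b * rev q j b = 1 := flipG_mul _
  have h2 : (rev q j b * tau q j b) * (rev q j b * tau q j b) = 1 := by
    have ha := (flipG_has (-(sg q b) * (j : ZMod q))).mul (tau_has hj b)
    have h := ha.mul ha
    have hs := sg_mul q b
    refine (h.cast (s' := 1) (c' := 0) (u' := root) ?_ ?_ ?_).ext Has.one
    · linear_combination hs
    · linear_combination (j : ZMod q) * hs
    · rw [(flipG_has _).tog, ha.tog, (flipG_has _).rt, mul_smul, (tau_has hj b).rt,
        (flipG_has _).tog, (flipG_has _).rt]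
      have e : -1 * sg q b * (-1 * 0 + -sg q b * (j : ZMod q)) +
          (-1 * (j : ZMod q) + -sg q b * j) = -1 * 0 + -sg q b * j := by
        linear_combination (j : ZMod q) * hs
      rw [e, tog_tog]
  rw [inv_eq_of_mul_eq_one_left h1, eq_inv_iff_mul_eq_one]
  rw [mul_assoc] at h2 ⊢
  rw [mul_assoc]
  exact h2

end Pool.Agent.WM
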