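import Pool.Agent.Lib_helper98.WM.Mill

/-! The windmill: the induction and the main theorem. -/

namespace Pool.Agent.WM

open Pointwise

variable {T G : Type*} [Group G] [MulAction G T]

/-- The state of the windmill. -/
structure Stage (d : T → T → ℕ) (F : Set (Set T)) (R : Set T → Subgroup G) (ε : Set T → ℕ)
    (v : T) (W : Set T) (K : Subgroup G) : Prop where
  mill : Mill d F R ε
  mem : v ∈ W
  conv : Conv d W
  inv : ∀ k ∈ K, ∀ x ∈ W, k • x ∈ W
  w1 : ∀ k ∈ K, ∀ x ∈ W, d x (k • x) ≤ 1 → k = 1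
  w2 : ∀ S ∈ F, ¬ R S ≤ K → ∀ x ∈ S, x ∈ W → ∀ y ∈ S, y ∈ W → d x y ≤ 2 * ε S
  w5 : ∀ k ∈ K, k ≠ 1 → ∃ S ∈ F, ∃ e ∈ S, ∃ f ∈ S,
    d v e + d e f + d f (k • v) = d v (k • v) ∧ 3 ≤ d e f
  w6 : ∀ S ∈ F, v ∈ S → ∀ k ∈ K, k • v ∈ S → k ∈ R S

namespace Stage

variable {d : T → T → ℕ} {F : Set (Set T)} {R : Set T → Subgroup G} {ε : Set T → ℕ} {v : T}
  {W : Set T} {K : Subgroup G}

/-- The lines that are new at this stage. -/
def newM (F : Set (Set T)) (R : Set T → Subgroup G) (W : Set T) (K : Subgroup G) :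
    Set (Set T) := {S | S ∈ F ∧ ¬ R S ≤ K ∧ ∃ a, a ∈ S ∧ a ∈ W}

/-- The union of `W` and of the intersections of two different new lines. -/
def newV (F : Set (Set T)) (R : Set T → Subgroup G) (W : Set T) (K : Subgroup G) : Set T :=
  {x | x ∈ W ∨ ∃ S ∈ newM F R W K, ∃ S' ∈ newM F R W K, S ≠ S' ∧ x ∈ S ∧ x ∈ S'}

theorem gateW (s : Stage d F R ε v W K) {S : Set T} (hS : S ∈ newM F R W K) {x g : T}
    (hx : x ∈ S) (hg : Gate d W x g) : g ∈ S := by
  obtain ⟨hF, _, a, haS, haW⟩ := hS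
  exact s.mill.conv S hF x hx a haS g (hg.2 a haW).symm

theorem nbdist (s : Stage d F R ε v W K) {S : Set T} (hS : S ∈ newM F R W K) {x g : T}
    (hx : x ∈ S) (hxV : x ∈ newV F R W K) (hg : Gate d W x g) : d x g ≤ ε S := by
  rcases hxV with hW | ⟨S1, hS1, S2, hS2, hne, h1, h2⟩
  · have := s.mill.tree.gate_self hg hW
    rw [this, s.mill.tree.self]; omega
  · have key : ∀ S' ∈ newM F R W K, x ∈ S' → S ≠ S' → d x g ≤ ε S := by
      intro S' hS' hx' hne'
      exact s.mill.sep S hS.1 S' hS'.1 hne' x hx hx' g (s.gateW hS hx hg) (s.gateW hS' hx' hg)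
    by_cases h : S = S1
    · exact key S2 hS2 h2 (h ▸ hne)
    · exact key S1 hS1 h1 h

theorem smulW (s : Stage d F R ε v W K) {k : G} (hk : k ∈ K) : k • W = W := by
  ext x
  rw [Set.mem_smul_set_iff_inv_smul_mem]
  constructor
  · intro hx
    have := s.inv k hk _ hx
    rwa [smul_inv_smul] at this
  · intro hx
    exact s.inv _ (inv_mem hk) x hx

theorem minv (s : Stage d F R ε v W K) {k : G} (hk : k ∈ K) {S : Set T}
    (hS : S ∈ newM F R W K) : k • S ∈ newM F R W K := by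
  obtain ⟨hF, hR, a, haS, haW⟩ := hS
  refine ⟨s.mill.inv k S hF, ?_, k • a, Set.smul_mem_smul_set haS, s.inv k hk a haW⟩
  intro hle
  apply hR
  intro r hr
  have h1 := hle (s.mill.conj k S r hr)
  have h2 : r = k⁻¹ * (k * r * k⁻¹) * k := by group
  rw [h2]
  exact mul_mem (mul_mem (inv_mem hk) h1) hk

theorem convV (s : Stage d F R ε v W K) : Conv d (newV F R W K) := by
  have htr := s.mill.tree
  have seg : ∀ x ∈ newV F R W K, ∀ g, Gate d W x g → ∀ z, d x z + d z g = d x g →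
      z ∈ newV F R W K := by
    intro x hx g hg z hz
    rcases hx with hW | ⟨S1, hS1, S2, hS2, hne, h1, h2⟩
    · have h3 := htr.gate_self hg hW
      subst h3
      rw [htr.self] at hz
      have : g = z := htr.eq_of (by omega)
      rw [← this]; exact Or.inl hW
    · exact Or.inr ⟨S1, hS1, S2, hS2, hne,
        s.mill.conv S1 hS1.1 x h1 g (s.gateW hS1 h1 hg) z hz,
        s.mill.conv S2 hS2.1 x h2 g (s.gateW hS2 h2 hg) z hz⟩
  intro x hx y hy z hz
  obtain ⟨g, hg⟩ := htr.gate' s.conv ⟨v, s.mem⟩ x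
  obtain ⟨g', hg'⟩ := htr.gate' s.conv ⟨v, s.mem⟩ y
  rcases htr.split (y := g) hz with h | h
  · exact seg x hx g hg z h
  · rcases htr.split (y := g') h with h' | h'
    · exact Or.inl (s.conv g hg.1 g' hg'.1 z h')
    · apply seg y hy g' hg' z
      have s1 := htr.symm y z
      have s2 := htr.symm z g'
      have s3 := htr.symm y g'
      omega

theorem toStep (s : Stage d F R ε v W K) :
    Step d F R ε (newM F R W K) (newV F R W K) K := by
  have htr := s.mill.tree
  refine ⟨s.mill, fun S hS => hS.1, s.convV, ?_, ?_, ?_, ?_, ?_, ?_, ?_⟩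
  · rintro S ⟨_, _, a, haS, haW⟩
    exact ⟨a, haS, Or.inl haW⟩
  · rintro k hk x (hW | ⟨S1, hS1, S2, hS2, hne, h1, h2⟩)
    · exact Or.inl (s.inv k hk x hW)
    · refine Or.inr ⟨k • S1, s.minv hk hS1, k • S2, s.minv hk hS2, ?_,
        Set.smul_mem_smul_set h1, Set.smul_mem_smul_set h2⟩
      intro h
      exact hne (smul_left_cancel k h)
  · intro k hk x hx hd
    obtain ⟨w, hw⟩ := htr.gate' s.conv ⟨v, s.mem⟩ x
    have g2 := s.mill.gate_smul k hw
    rw [s.smulW hk] at g2
    by_cases he : w = k • w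
    · apply s.w1 k hk w hw.1
      rw [← he, htr.self]; omega
    · have h2 := htr.two_gates hw g2 he
      exact s.w1 k hk w hw.1 (by omega)
  · intro S hS x hx hxV y hy hyV
    obtain ⟨g, hg⟩ := htr.gate' s.conv ⟨v, s.mem⟩ x
    obtain ⟨g', hg'⟩ := htr.gate' s.conv ⟨v, s.mem⟩ y
    have a1 := s.nbdist hS hx hxV hg
    have a2 := s.nbdist hS hy hyV hg'
    have a3 := s.w2 S hS.1 hS.2.1 g (s.gateW hS hx hg) hg.1 g' (s.gateW hS hy hg') hg'.1
    have t1 := htr.tri x g y
    have t2 := htr.tri g g' y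
    have s1 := htr.symm g' y
    omega
  · intro S hS S' hS' hne x hx hx'
    exact Or.inr ⟨S, hS, S', hS', hne, hx, hx'⟩
  · intro k hk S hS
    exact s.minv hk hS
  · rintro k hk S ⟨hF, hR, a, haS, haW⟩ hkS
    have hC : Conv d (S ∩ W) := by
      rintro x ⟨hx1, hx2⟩ y ⟨hy1, hy2⟩ z hz
      exact ⟨s.mill.conv S hF x hx1 y hy1 z hz, s.conv x hx2 y hy2 z hz⟩
    obtain ⟨x, hx, hd⟩ := htr.midpoint hC ⟨a, haS, haW⟩ (D := 2 * ε S)
      (fun x hx y hy => s.w2 S hF hR x hx.1 hx.2 y hy.1 hy.2) (f := fun x => k • x)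
      (fun x y => s.mill.iso k x y) (by
        rintro y ⟨hy1, hy2⟩
        refine ⟨k⁻¹ • y, ⟨?_, s.inv _ (inv_mem hk) y hy2⟩, smul_inv_smul k y⟩
        rw [← Set.mem_smul_set_iff_inv_smul_mem, hkS]
        exact hy1)
    exact s.w1 k hk x hx.2 hd

theorem star (s : Stage d F R ε v W K) :
    ∀ B ∈ F, ¬ R B ≤ nextK R (newM F R W K) K → ∀ x ∈ B, ∀ y ∈ B,
      (x ∈ newV F R W K ∨ ∃ S ∈ newM F R W K, x ∈ S) →
      (y ∈ newV F R W K ∨ ∃ S ∈ newM F R W K, y ∈ S) → d x y ≤ 2 * ε B := by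
  intro B hB hR x hx y hy hx' hy'
  have htr := s.mill.tree
  have hBM : B ∉ newM F R W K :=
    fun h => hR (fun r hr => Subgroup.subset_closure (Or.inr ⟨B, h, hr⟩))
  have hBK : ¬ R B ≤ K := fun h => hR (fun r hr => Subgroup.subset_closure (Or.inl (h hr)))
  have hdis : ∀ a, a ∈ B → a ∈ W → False := fun a h1 h2 => hBM ⟨hB, hBK, a, h1, h2⟩
  obtain ⟨b, hb⟩ := htr.gate' (s.mill.conv B hB) ⟨x, hx⟩ v
  have allW : ∀ w ∈ W, Gate d B w b := by
    intro w hw
    obtain ⟨b', hb'⟩ := htr.gate' (s.mill.conv B hB) ⟨x, hx⟩ w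
    by_cases he : b' = b
    · rw [← he]; exact hb'
    · exfalso
      have h2 := htr.two_gates hb' hb he
      have t1 := htr.tri b' b v
      have t2 := htr.tri w b' v
      exact hdis b' hb'.1 (s.conv w hw v s.mem b' (by omega))
  have key : ∀ x ∈ B, ∀ S ∈ newM F R W K, x ∈ S → d x b ≤ ε B := by
    rintro x hx S ⟨hF, hR', a, haS, haW⟩ hxS
    have h1 := (allW a haW).2 x hx
    have hbS : b ∈ S := s.mill.conv S hF a haS x hxS b h1.symm
    have hne : B ≠ S := by
      rintro rfl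
      exact hBM ⟨hF, hR', a, haS, haW⟩
    exact s.mill.sep B hB S hF hne x hx hxS b hb.1 hbS
  have key' : ∀ x ∈ B, (x ∈ newV F R W K ∨ ∃ S ∈ newM F R W K, x ∈ S) → d x b ≤ ε B := by
    rintro x hx ((hW | ⟨S1, hS1, _, _, _, h1, _⟩) | ⟨S, hS, hxS⟩)
    · exact (hdis x hx hW).elim
    · exact key x hx S1 hS1 h1
    · exact key x hx S hS hxS
  have k1 := key' x hx hx'
  have k2 := key' y hy hy'
  have t1 := htr.tri x b y
  have s1 := htr.symm y b
  omega

/-- The geodesic to the image of the base point contains a long piece of a line. -/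
theorem piece (s : Stage d F R ε v W K) {S : Set T} (hS : S ∈ newM F R W K) {t g : G}
    (ht : t ∈ R S) (h1 : t ≠ 1) (hN : Near d (newV F R W K) S (g • v)) :
    ∃ S ∈ F, ∃ e ∈ S, ∃ f ∈ S,
      d v e + d e f + d f ((t * g) • v) = d v ((t * g) • v) ∧ 3 ≤ d e f := by
  have htr := s.mill.tree
  have hS' := hS
  obtain ⟨hF, hR, a, haS, haW⟩ := hS'
  obtain ⟨c, hc, hcV⟩ := hN
  obtain ⟨e, he⟩ := htr.gate' (s.mill.conv S hF) ⟨a, haS⟩ v
  have heW : e ∈ W := s.conv v s.mem a haW e (he.2 a haS).symm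
  obtain ⟨g', hg'⟩ := htr.gate' s.conv ⟨v, s.mem⟩ c
  have d1 := s.nbdist hS hc.1 hcV hg'
  have d2 := s.w2 S hF hR g' (s.gateW hS hc.1 hg') hg'.1 e he.1 heW
  have d3 := s.mill.far S hF t ht h1 c hc.1
  have g2 := s.mill.gate_smul t hc
  rw [s.mill.fixS hF ht, ← mul_smul] at g2
  have t1 := htr.tri c g' e
  have t2 := htr.tri c e (t • c)
  have hne : e ≠ t • c := by
    intro h
    rw [← h, htr.self] at t2
    rw [← h] at d3
    omega
  have h3 := htr.two_gates he g2 hne
  exact ⟨S, hF, e, he.1, t • c, g2.1, h3.symm, by omega⟩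

theorem next (s : Stage d F R ε v W K) :
    Stage d F R ε v {x | NextW d R (newM F R W K) (newV F R W K) x}
      (nextK R (newM F R W K) K) := by
  have st := s.toStep
  have hv : v ∈ newV F R W K := Or.inl s.mem
  refine ⟨s.mill, NextW.room v hv, st.conv', fun k hk x hx => st.z_smul hk hx,
    fun k hk x hx hd => st.w1' hk hx hd, ?_, ?_, ?_⟩
  · intro S hS hR x hx hxZ y hy hyZ
    exact st.w2' s.star hS hR hx hy hxZ hyZ
  · intro k hk hk1
    cases st.good_of hk with
    | base g hg => exact s.w5 _ hg hk1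
    | step S t g hS ht h1 _ hN => exact s.piece hS ht h1 (hN v hv)
  · intro B hB hvB k hk hkv
    rcases st.dich hk with h | ⟨S, hS, h⟩
    · exact s.w6 B hB hvB k h hkv
    · obtain ⟨e, heS, _, f, hfS, _, hL, hd⟩ := h v hv
      have := s.mill.same (st.le hS) hB heS hfS hL hvB hkv (hd v hv)
      subst this
      obtain ⟨t, ht, hV⟩ := st.e2 hk hv hS hkv
      rw [← mul_smul] at hV
      have h3 := st.dich2 (mul_mem (inv_mem (Step.R_le hS ht)) hk) hv hV
      have h4 : (t⁻¹ * k) • v ∈ S := by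
        rw [mul_smul]
        exact s.mill.fix S hB _ (inv_mem ht) _ hkv
      have h5 := s.w6 S hB hvB _ h3 h4
      have h6 : k = t * (t⁻¹ * k) := by group
      rw [h6]
      exact mul_mem ht h5

theorem zero (m : Mill d F R ε) (v : T) : Stage d F R ε v {v} ⊥ := by
  refine ⟨m, rfl, ?_, ?_, ?_, ?_, ?_, ?_⟩
  · intro x hx y hy z hz
    have hx' : x = v := hx
    have hy' : y = v := hy
    subst hx' hy'
    rw [m.tree.self] at hz
    exact (m.tree.eq_of (by omega)).symm
  · intro k hk x hx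
    rw [Subgroup.mem_bot] at hk
    rw [hk, one_smul]; exact hx
  · intro k hk x _ _
    exact Subgroup.mem_bot.1 hk
  · intro S _ _ x _ hx y _ hy
    have hx' : x = v := hx
    have hy' : y = v := hy
    rw [hx', hy', m.tree.self]; omega
  · intro k hk hk1
    exact absurd (Subgroup.mem_bot.1 hk) hk1
  · intro S _ _ k hk _
    rw [Subgroup.mem_bot] at hk
    rw [hk]; exact one_mem _

/-- The windmill contains the lines of its group. -/
theorem full (s : Stage d F R ε v W K) {S : Set T} (hS : S ∈ F) (hR : R S ≤ K) {a : T}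
    (ha : a ∈ S) : a ∈ W := by
  have htr := s.mill.tree
  obtain ⟨r, hr, h1, hco⟩ := s.mill.cofinal S hS
  obtain ⟨b, hb⟩ := htr.gate' (s.mill.conv S hS) ⟨a, ha⟩ v
  have g2 := s.mill.gate_smul r hb
  rw [s.mill.fixS hS hr] at g2
  have hfar := s.mill.far S hS r hr h1 b hb.1
  have hne : b ≠ r • b := by
    intro h
    rw [← h, htr.self] at hfar
    omega
  have h2 := htr.two_gates hb g2 hne
  have t1 := htr.tri b (r • b) (r • v)
  have t2 := htr.tri v b (r • v)
  have hbW : b ∈ W := s.conv v s.mem (r • v) (s.inv r (hR hr) v s.mem) b (by omega)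
  obtain ⟨k, l, hkl⟩ := hco a ha b hb.1
  exact s.conv _ (s.inv _ (zpow_mem (hR hr) k) b hbW) _ (s.inv _ (zpow_mem (hR hr) l) b hbW) a hkl

end Stage

section Limit

variable (F : Set (Set T)) (R : Set T → Subgroup G) (v : T) (d : T → T → ℕ)

/-- The stages of the windmill. -/
def stages : ℕ → Set T × Subgroup G
  | 0 => ({v}, ⊥)
  | n + 1 => ({x | NextW d R (Stage.newM F R (stages n).1 (stages n).2)
        (Stage.newV F R (stages n).1 (stages n).2) x},
      nextK R (Stage.newM F R (stages n).1 (stages n).2) (stages n).2)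

end Limit

variable {d : T → T → ℕ} {F : Set (Set T)} {R : Set T → Subgroup G} {ε : Set T → ℕ}

theorem stages_stage (m : Mill d F R ε) (v : T) (n : ℕ) :
    Stage d F R ε v (stages F R v d n).1 (stages F R v d n).2 := by
  induction n with
  | zero => exact Stage.zero m v
  | succ n ih => exact ih.next

/-- The main theorem on windmills. -/
theorem Mill.main (m : Mill d F R ε) (v : T) {g : G}
    (hg : g ∈ Subgroup.closure {g : G | ∃ S ∈ F, g ∈ R S}) :
    (g ≠ 1 → 2 ≤ d v (g • v) ∧ ∃ S ∈ F, ∃ e ∈ S, ∃ f ∈ S,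
      d v e + d e f + d f (g • v) = d v (g • v) ∧ 3 ≤ d e f) ∧
    (∀ S ∈ F, v ∈ S → g • v ∈ S → g ∈ R S) := by
  have mono : ∀ n, (stages F R v d n).2 ≤ (stages F R v d (n + 1)).2 := by
    intro n g hg
    exact Subgroup.subset_closure (Or.inl hg)
  have mono' : Monotone fun n => (stages F R v d n).2 := monotone_nat_of_le_succ mono
  have ball : ∀ n, ∀ x, d v x ≤ n → x ∈ (stages F R v d n).1 := by
    intro n
    induction n with
    | zero =>
      intro x hx
      have : v = x := m.tree.eq_of (by omega)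
      subst this
      rfl
    | succ n ih =>
      intro x hx
      rcases Nat.lt_or_ge (d v x) (n + 1) with h | h
      · exact NextW.room x (Or.inl (ih x (by omega)))
      · obtain ⟨z, hz1, hz2⟩ := m.tree.geo v x n (by omega)
        have hz := ih z (by omega)
        obtain ⟨S, hS, hzS, hxS⟩ := m.cover z x (by omega)
        by_cases hR : R S ≤ (stages F R v d n).2
        · exact NextW.room x (Or.inl ((stages_stage m v n).full hS hR hxS))
        · exact NextW.cor S x ⟨hS, hR, z, hzS, hz⟩ hxS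
  have allK : ∃ n, g ∈ (stages F R v d n).2 := by
    induction hg using Subgroup.closure_induction with
    | mem x hx =>
      obtain ⟨S, hS, hx⟩ := hx
      obtain ⟨a, ha⟩ := m.ne S hS
      by_cases hK : R S ≤ (stages F R v d (d v a)).2
      · exact ⟨_, hK hx⟩
      · exact ⟨d v a + 1, Subgroup.subset_closure
          (Or.inr ⟨S, ⟨hS, hK, a, ha, ball _ a le_rfl⟩, hx⟩)⟩
    | one => exact ⟨0, one_mem _⟩
    | mul x y _ _ ihx ihy =>
      obtain ⟨a, ha⟩ := ihx
      obtain ⟨b, hb⟩ := ihy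
      exact ⟨max a b, mul_mem (mono' (le_max_left a b) ha) (mono' (le_max_right a b) hb)⟩
    | inv x _ ih =>
      obtain ⟨a, ha⟩ := ih
      exact ⟨a, inv_mem ha⟩
  obtain ⟨n, hn⟩ := allK
  have st := stages_stage m v n
  refine ⟨fun h1 => ⟨?_, st.w5 g hn h1⟩, fun S hS hvS hgS => st.w6 S hS hvS g hn hgS⟩
  by_contra hlt
  exact h1 (st.w1 g hn v st.mem (by omega))

end Pool.Agent.WM
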