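import Pool.Agent.Lib_helper98.WM.Group
import Pool.Agent.Lib_helper98.WM.Stage

/-! The lines of the relators, and the verification of the hypotheses of the windmill. -/

namespace Pool.Agent.WM

open Pool.Agent.HZ Pointwise

/-- The lines of type `(j, b)` translated by `g`. -/
def ln (q j : ℕ) (b : Bool) (g : GG q) : Set (VV q) := g • line root (tau q j b)

/-- Admissible systems of relators: `D j b = some n` means that the `n`-th power of the step
element of type `(j, b)` is a relator. -/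
structure Adm (q : ℕ) (D : ℕ → Bool → Option ℕ) : Prop where
  rng : ∀ j b n, D j b = some n → 1 ≤ j ∧ 2 * j ≤ q ∧ 6 ≤ n
  pair : ∀ j b n m, D j b = some n → D j (!b) = some m → 11 ≤ n ∧ 2 * j ≠ q
  one : ∃ n, D 1 false = some n

/-- The lines of the relators. -/
def FF (q : ℕ) (D : ℕ → Bool → Option ℕ) : Set (Set (VV q)) :=
  {S | ∃ (g : GG q) (j : ℕ) (b : Bool) (n : ℕ), D j b = some n ∧ S = ln q j b g}

/-- The group generated by the relators with line `S`. -/
def RR (q : ℕ) (D : ℕ → Bool → Option ℕ) (S : Set (VV q)) : Subgroup (GG q) :=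
  Subgroup.closure {r | ∃ (g : GG q) (j : ℕ) (b : Bool) (n : ℕ), D j b = some n ∧
    S = ln q j b g ∧ r = g * tau q j b ^ n * g⁻¹}

/-- Comparison of two step elements, from the first two steps. -/
theorem cmp2 {q j j' : ℕ} {b b' : Bool} (hj : 1 ≤ j) (hjq : 2 * j ≤ q) (hj' : 1 ≤ j')
    (hjq' : 2 * j' ≤ q) {h : GG q} (h0 : h • (root : VV q) = root)
    (h1 : h • tau q j' b' • (root : VV q) = tau q j b • root)
    (h2 : h • tau q j' b' • tau q j' b' • (root : VV q) = tau q j b • tau q j b • root) :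
    j' = j ∧ ∃ s, (s = 1 ∨ s = -1) ∧ Has h s 0 root ∧ s * (j : ZMod q) = j ∧
      (s = -1 → 2 * j = q) := by
  obtain ⟨φ, s, c, hs1, hs2, hs3⟩ := h
  have hh : Has (⟨φ, s, c, hs1, hs2, hs3⟩ : GG q) s c root := ⟨hs3, h0⟩
  generalize (⟨φ, s, c, hs1, hs2, hs3⟩ : GG q) = h at *
  rw [tau1 hj, tau1 hj', hh.tog, h0] at h1
  have hc := tog_inj_label h1
  have hc0 : c = 0 := by
    rw [mul_zero, zero_add] at hc; exact hc
  subst hc0
  rw [tau2 hj, tau2 hj', hh.tog, hh.tog, h0] at h2
  have e0 : s * 0 + 0 = (0 : ZMod q) := by ring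
  rw [e0] at h2
  have h3 := tog_inj_label h2
  rw [add_zero] at h3
  have hjj : j' = j ∧ (s = -1 → 2 * j = q) := by
    rcases hs2 with rfl | rfl
    · rw [one_mul, ZMod.natCast_eq_natCast_iff', Nat.mod_eq_of_lt (by omega),
        Nat.mod_eq_of_lt (by omega)] at h3
      refine ⟨h3, fun h1m => ?_⟩
      have h4 : (2 : ZMod q) = 0 := by linear_combination h1m
      have h5 : ((2 : ℕ) : ZMod q) = 0 := by exact_mod_cast h4
      rw [ZMod.natCast_eq_zero_iff] at h5
      have := Nat.le_of_dvd (by omega) h5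
      omega
    · have h4 : ((j + j' : ℕ) : ZMod q) = 0 := by
        push_cast
        linear_combination -h3
      rw [ZMod.natCast_eq_zero_iff] at h4
      have := Nat.le_of_dvd (by omega) h4
      exact ⟨by omega, fun _ => by omega⟩
  refine ⟨hjj.1, s, hs2, hh, ?_, hjj.2⟩
  rw [hjj.1] at h3
  exact h3

theorem sg_ne {q j : ℕ} (hj : 1 ≤ j) (hjq : 2 * j ≤ q) {b b' : Bool}
    (h : sg q b' * (j : ZMod q) = sg q b * j) : b' = b ∨ 2 * j = q := by
  have key : ((2 * j : ℕ) : ZMod q) = 0 → 2 * j = q := by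
    intro h4
    rw [ZMod.natCast_eq_zero_iff] at h4
    have := Nat.le_of_dvd (by omega) h4
    omega
  cases b <;> cases b' <;> simp only [sg] at h
  · exact Or.inl rfl
  · right; apply key
    push_cast
    simp at h
    linear_combination h
  · right; apply key
    push_cast
    simp at h
    linear_combination -h
  · exact Or.inl rfl

/-- Comparison of two step elements, from the first three steps. -/
theorem cmp3 {q j : ℕ} {b b' : Bool} (hj : 1 ≤ j) (hjq : 2 * j ≤ q) {h : GG q} {s : ZMod q}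
    (hh : Has h s 0 root) (hs : s * (j : ZMod q) = j)
    (h3 : h • tau q j b' • tau q j b' • tau q j b' • (root : VV q) =
      tau q j b • tau q j b • tau q j b • root) : b' = b ∨ 2 * j = q := by
  rw [tau3 hj, tau3 hj, hh.tog, hh.tog, hh.tog, hh.rt] at h3
  have e1 : s * (j : ZMod q) + 0 = j := by rw [hs]; ring
  have e2 : s * (0 : ZMod q) + 0 = 0 := by ring
  rw [e1, e2] at h3
  have h4 := tog_inj_label h3
  apply sg_ne hj hjq
  linear_combination h4 + (- sg q b' - 1) * hs

/-- At `2 j = q` the step elements commute with the reflection fixing the first edge. -/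
theorem mid_comm {q j : ℕ} (hj : 1 ≤ j) (hjq : 2 * j = q) (b : Bool) {h : GG q}
    (hh : Has h (-1) 0 root) : h * tau q j b * h⁻¹ = tau q j b := by
  have e : h * tau q j b = tau q j b * h := by
    have h1 := hh.mul (tau_has (q := q) hj b)
    have h2 := (tau_has (q := q) hj b).mul hh
    refine (h1.cast ?_ ?_ ?_).ext h2
    · ring
    · have h4 : ((2 * j : ℕ) : ZMod q) = 0 := by rw [hjq]; exact ZMod.natCast_self q
      push_cast at h4
      linear_combination -h4
    · rw [hh.tog, hh.rt, (tau_has (q := q) hj b).rt]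
      congr 1; ring
  rw [e, mul_inv_cancel_right]

/-- Elements of the root's stabiliser with `s = ±1`, at equal type. -/
theorem same_conj {q j : ℕ} (hj : 1 ≤ j) (b : Bool) {h : GG q} {s : ZMod q}
    (hs2 : s = 1 ∨ s = -1) (hh : Has h s 0 root) (hs : s = -1 → 2 * j = q) :
    h * tau q j b * h⁻¹ = tau q j b := by
  rcases hs2 with rfl | rfl
  · have : h = 1 := hh.ext Has.one
    rw [this]; group
  · exact mid_comm hj (hs rfl) b hh

theorem ln_conj {q j : ℕ} {b : Bool} {a a' : GG q}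
    (hr : (a⁻¹ * a') • (root : VV q) = root)
    (hc : (a⁻¹ * a') * tau q j b * (a⁻¹ * a')⁻¹ = tau q j b) :
    ln q j b a' = ln q j b a ∧ a' * tau q j b * a'⁻¹ = a * tau q j b * a⁻¹ := by
  have hz : ∀ n : ℤ, (a⁻¹ * a') * tau q j b ^ n = tau q j b ^ n * (a⁻¹ * a') := by
    intro n
    have : (a⁻¹ * a') * tau q j b ^ n * (a⁻¹ * a')⁻¹ = tau q j b ^ n := by
      rw [← conj_zpow, hc]
    nth_rw 2 [← this]
    group
  have e : ∀ n : ℤ, a' • tau q j b ^ n • (root : VV q) = a • tau q j b ^ n • root := by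
    intro n
    have h1 : a' • tau q j b ^ n • (root : VV q) = (a * ((a⁻¹ * a') * tau q j b ^ n)) • root := by
      rw [← mul_smul]; congr 1; group
    rw [h1, hz, mul_smul, mul_smul, hr]
  constructor
  · unfold ln
    ext z
    rw [Axis.mem_line, Axis.mem_line]
    constructor
    · rintro ⟨n, rfl⟩; exact ⟨n, e n⟩
    · rintro ⟨n, rfl⟩; exact ⟨n, (e n).symm⟩
  · have h1 : a' * tau q j b * a'⁻¹ = a * ((a⁻¹ * a') * tau q j b * (a⁻¹ * a')⁻¹) * a⁻¹ := by
      group
    rw [h1, hc]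

theorem eq_or_inv_trans {G : Type*} [Group G] {x y z w : G} (h1 : x = y ∨ x = y⁻¹)
    (h2 : z = w ∨ z = w⁻¹) (h : z = x) : w = y ∨ w = y⁻¹ := by
  subst h
  rcases h2 with h2 | h2
  · rw [← h2]; exact h1
  · have : w = z⁻¹ := by rw [h2, inv_inv]
    rw [this]
    rcases h1 with h1 | h1
    · right; rw [h1]
    · left; rw [h1, inv_inv]

theorem line_step {q j : ℕ} (hj : 1 ≤ j) (hjq : 2 * j ≤ q) (b : Bool) (a : GG q) (D i : ℕ)
    (hi : i ≤ D) :
    rd (a • (root : VV q)) (a • tau q j b ^ i • root) = i ∧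
    rd (a • tau q j b ^ i • (root : VV q)) (a • tau q j b ^ D • root) = D - i := by
  have h := tau_axis hj hjq b
  rw [GG.iso, GG.iso]
  refine ⟨h.nat i, ?_⟩
  have := h.dist i D
  rw [zpow_natCast, zpow_natCast] at this
  rw [this]; omega

/-- Two lines with a common piece of length at least two: the types have equal `j`, and the two
directed pieces differ by an element fixing the line. -/
theorem common {q j j' : ℕ} {b b' : Bool} (hj : 1 ≤ j) (hjq : 2 * j ≤ q) (hj' : 1 ≤ j')
    (hjq' : 2 * j' ≤ q) {a a' : GG q} {x y : VV q} (hax : a • (root : VV q) = x)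
    (hay : a • tau q j b ^ (rd x y) • (root : VV q) = y) (hax' : a' • (root : VV q) = x)
    (hay' : a' • tau q j' b' ^ (rd x y) • (root : VV q) = y) (h2 : 2 ≤ rd x y) :
    j' = j ∧ ∃ s, (s = 1 ∨ s = -1) ∧ Has (a⁻¹ * a') s 0 root ∧ (s = -1 → 2 * j = q) ∧
      (3 ≤ rd x y → b' = b ∨ 2 * j = q) := by
  have pts : ∀ i ≤ rd x y, a • tau q j b ^ i • (root : VV q) = a' • tau q j' b' ^ i • root := by
    intro i hi
    have l1 := line_step hj hjq b a (rd x y) i hi
    have l2 := line_step hj' hjq' b' a' (rd x y) i hi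
    rw [hax, hay] at l1
    rw [hax', hay'] at l2
    exact rd_tree.uniq (x := x) (y := y) (by omega) (by omega) (by omega)
  have tr : ∀ i ≤ rd x y, (a⁻¹ * a') • tau q j' b' ^ i • (root : VV q) = tau q j b ^ i • root := by
    intro i hi
    rw [mul_smul, ← pts i hi, inv_smul_smul]
  have t0 := tr 0 (by omega)
  have t1 := tr 1 (by omega)
  have t2 := tr 2 (by omega)
  rw [pow_zero, pow_zero, one_smul] at t0
  rw [pow_one, pow_one] at t1
  rw [pow_two, pow_two, mul_smul (tau q j' b'), mul_smul (tau q j b)] at t2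
  obtain ⟨hjj, s, hs2, hh, hs, hq⟩ := cmp2 hj hjq hj' hjq' t0 t1 t2
  refine ⟨hjj, s, hs2, hh, hq, ?_⟩
  intro h3
  have t3 := tr 3 h3
  subst hjj
  rw [pow_succ, pow_two, pow_succ, pow_two, mul_smul (tau q j' b' * tau q j' b'),
    mul_smul (tau q j' b'), mul_smul (tau q j' b * tau q j' b), mul_smul (tau q j' b)] at t3
  exact cmp3 hj hjq hh hs t3

theorem dirq {q j : ℕ} (hj : 1 ≤ j) (hjq : 2 * j ≤ q) (b : Bool) {g : GG q} {x y : VV q}
    (hx : x ∈ ln q j b g) (hy : y ∈ ln q j b g) :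
    ∃ a : GG q, a • (root : VV q) = x ∧ a • tau q j b ^ (rd x y) • (root : VV q) = y ∧
      ln q j b a = ln q j b g ∧
      (a * tau q j b * a⁻¹ = g * tau q j b * g⁻¹ ∨
        a * tau q j b * a⁻¹ = (g * tau q j b * g⁻¹)⁻¹) :=
  (tau_axis hj hjq b).dir (rev_root q j b) (rev_conj hj b) hx hy

open Classical in
/-- The bound for the overlap with other lines: 2 if the partner type is a relator too. -/
noncomputable def eps (q : ℕ) (D : ℕ → Bool → Option ℕ) (S : Set (VV q)) : ℕ :=
  if ∃ (g : GG q) (j : ℕ) (b : Bool) (n m : ℕ), D j b = some n ∧ D j (!b) = some m ∧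
    S = ln q j b g then 2 else 1

variable {q : ℕ} {D : ℕ → Bool → Option ℕ}

theorem eps_cases (S : Set (VV q)) : eps q D S = 1 ∨ eps q D S = 2 := by
  unfold eps
  split_ifs
  · exact Or.inr rfl
  · exact Or.inl rfl

theorem root_mem (j : ℕ) (b : Bool) (g : GG q) : g • (root : VV q) ∈ ln q j b g := by
  unfold ln
  rw [Axis.mem_line]
  exact ⟨0, by rw [zpow_zero, one_smul]⟩

theorem pow_mem_ln (j : ℕ) (b : Bool) (g : GG q) (n : ℕ) :
    g • tau q j b ^ n • (root : VV q) ∈ ln q j b g := by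
  unfold ln
  rw [Axis.mem_line]
  exact ⟨n, by rw [zpow_natCast]⟩

/-- The type of a line is determined up to the kind. -/
theorem Adm.type_eq (hD : Adm q D) {j j' n n' : ℕ} {b b' : Bool} (h1 : D j b = some n)
    (h2 : D j' b' = some n') {g g' : GG q} (hS : ln q j b g = ln q j' b' g') : j' = j := by
  obtain ⟨hj, hjq, _⟩ := hD.rng j b n h1
  obtain ⟨hj', hjq', _⟩ := hD.rng j' b' n' h2
  have hx := root_mem j b g
  have hy := pow_mem_ln j b g 2
  have hx' := hx
  have hy' := hy
  rw [hS] at hx' hy'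
  obtain ⟨a, ha1, ha2, _⟩ := dirq hj hjq b hx hy
  obtain ⟨a', ha1', ha2', _⟩ := dirq hj' hjq' b' hx' hy'
  have hd : rd (g • (root : VV q)) (g • tau q j b ^ 2 • root) = 2 := by
    rw [GG.iso, (tau_axis hj hjq b).nat]
  exact (common hj hjq hj' hjq' ha1 ha2 ha1' ha2' (by omega)).1

theorem Adm.bounds (hD : Adm q D) {j n : ℕ} {b : Bool} (h1 : D j b = some n) (g : GG q) :
    4 * eps q D (ln q j b g) + 2 ≤ n ∧ 5 * eps q D (ln q j b g) + 1 ≤ n ∧
      3 * eps q D (ln q j b g) + 3 ≤ n := by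
  have h6 := (hD.rng j b n h1).2.2
  unfold eps
  split_ifs with h
  · obtain ⟨g', j', b', n', m', h2, h3, h4⟩ := h
    have hjj := hD.type_eq h1 h2 h4
    subst hjj
    have : 11 ≤ n := by
      by_cases hb : b' = b
      · subst hb
        exact (hD.pair j' b' n m' h1 h3).1
      · have hb' : b' = !b := by cases b <;> cases b' <;> simp_all
        rw [hb'] at h2
        exact (hD.pair j' b n n' h1 h2).1
    omega
  · omega

/-- Uniqueness of the type of a line. -/
theorem Adm.unique (hD : Adm q D) {j j' n n' : ℕ} {b b' : Bool} (h1 : D j b = some n)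
    (h2 : D j' b' = some n') {g g' : GG q} {x y : VV q} (hx : x ∈ ln q j b g)
    (hy : y ∈ ln q j b g) (hx' : x ∈ ln q j' b' g') (hy' : y ∈ ln q j' b' g')
    (hxy : eps q D (ln q j b g) + 1 ≤ rd x y) :
    j' = j ∧ b' = b ∧ ln q j' b' g' = ln q j b g ∧
      (g' * tau q j b * g'⁻¹ = g * tau q j b * g⁻¹ ∨
        g' * tau q j b * g'⁻¹ = (g * tau q j b * g⁻¹)⁻¹) := by
  obtain ⟨hj, hjq, _⟩ := hD.rng j b n h1
  obtain ⟨hj', hjq', _⟩ := hD.rng j' b' n' h2
  obtain ⟨a, ha1, ha2, ha3, ha4⟩ := dirq hj hjq b hx hy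
  obtain ⟨a', ha1', ha2', ha3', ha4'⟩ := dirq hj' hjq' b' hx' hy'
  have hε : 2 ≤ rd x y := by rcases eps_cases (D := D) (ln q j b g) with h | h <;> omega
  obtain ⟨hjj, s, hs2, hh, hq, h3⟩ := common hj hjq hj' hjq' ha1 ha2 ha1' ha2' hε
  subst hjj
  have hbb : b' = b := by
    by_contra hne
    have hb' : b' = !b := by cases b <;> cases b' <;> simp_all
    rw [hb'] at h2
    have he : eps q D (ln q j' b g) = 2 := by
      unfold eps
      rw [if_pos ⟨g, j', b, n, n', h1, h2, rfl⟩]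
    rcases h3 (by omega) with h4 | h4
    · exact hne h4
    · exact (hD.pair j' b n n' h1 h2).2 h4
  subst hbb
  have hc := same_conj (q := q) hj b' hs2 hh hq
  obtain ⟨e1, e2⟩ := ln_conj hh.rt hc
  refine ⟨rfl, rfl, ?_, ?_⟩
  · rw [← ha3', e1, ha3]
  · exact eq_or_inv_trans ha4 ha4' e2

/-- The group of a line is cyclic. -/
theorem Adm.RR_le (hD : Adm q D) {j n : ℕ} {b : Bool} (h1 : D j b = some n) (g : GG q) :
    RR q D (ln q j b g) ≤ Subgroup.zpowers (g * tau q j b ^ n * g⁻¹) := by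
  obtain ⟨hj, hjq, _⟩ := hD.rng j b n h1
  unfold RR
  rw [Subgroup.closure_le]
  rintro r ⟨g', j', b', n', h2, hS, rfl⟩
  have hx := root_mem j b g
  have hy := pow_mem_ln j b g 3
  have hx' := hx
  have hy' := hy
  rw [hS] at hx' hy'
  have hd : rd (g • (root : VV q)) (g • tau q j b ^ 3 • root) = 3 := by
    rw [GG.iso, (tau_axis hj hjq b).nat]
  obtain ⟨e1, e2, _, e4⟩ := hD.unique h1 h2 hx hy hx' hy'
    (by rcases eps_cases (D := D) (ln q j b g) with h | h <;> omega)
  subst e1 e2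
  rw [h1] at h2
  have e5 : n = n' := Option.some.inj h2
  subst e5
  have e6 : g' * tau q j' b' ^ n * g'⁻¹ = (g' * tau q j' b' * g'⁻¹) ^ n := conj_pow.symm
  have e7 : g * tau q j' b' ^ n * g⁻¹ = (g * tau q j' b' * g⁻¹) ^ n := conj_pow.symm
  change g' * tau q j' b' ^ n * g'⁻¹ ∈ Subgroup.zpowers (g * tau q j' b' ^ n * g⁻¹)
  rw [e6, e7]
  rcases e4 with e4 | e4
  · rw [e4]; exact Subgroup.mem_zpowers _
  · rw [e4, inv_pow]; exact inv_mem (Subgroup.mem_zpowers _)

theorem ln_smul {j : ℕ} {b : Bool} (g h : GG q) : h • ln q j b g = ln q j b (h * g) := by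
  unfold ln; rw [mul_smul]

theorem eps_smul (h : GG q) (S : Set (VV q)) : eps q D (h • S) = eps q D S := by
  unfold eps
  congr 1
  apply propext
  constructor
  · rintro ⟨g, j, b, n, m, h1, h2, h3⟩
    refine ⟨h⁻¹ * g, j, b, n, m, h1, h2, ?_⟩
    rw [← ln_smul, ← h3, inv_smul_smul]
  · rintro ⟨g, j, b, n, m, h1, h2, h3⟩
    exact ⟨h * g, j, b, n, m, h1, h2, by rw [← ln_smul, ← h3]⟩

/-- The group acts transitively on the flags. -/
theorem flag (x : VV q) (i : ZMod q) :
    ∃ g : GG q, g • (root : VV q) = x ∧ g • (tog 0 root : VV q) = tog i x := by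
  have step : ∀ (x : VV q) (g : GG q), g • (root : VV q) = x → ∀ i : ZMod q,
      ∃ g : GG q, g • (root : VV q) = x ∧ g • (tog 0 root : VV q) = tog i x := by
    rintro x ⟨φ, s, c, hs1, hs2, hs3⟩ hg i
    have hh : Has (⟨φ, s, c, hs1, hs2, hs3⟩ : GG q) s c x := ⟨hs3, hg⟩
    generalize (⟨φ, s, c, hs1, hs2, hs3⟩ : GG q) = g at *
    have h1 := (flipG_has (s * (i - c))).mul (flipG_has (0 : ZMod q))
    refine ⟨g * (flipG (s * (i - c)) * flipG 0), ?_, ?_⟩
    · rw [mul_smul, h1.rt, (flipG_has (s * (i - c))).rt, hg]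
    · rw [mul_smul, h1.tog, h1.rt, (flipG_has (s * (i - c))).rt, hh.tog, hg]
      congr 1
      linear_combination (i - c) * hs1
  refine red_induction (P := fun x => ∀ i : ZMod q, ∃ g : GG q,
    g • (root : VV q) = x ∧ g • (tog 0 root : VV q) = tog i x) ?_ ?_ x i
  · intro i
    exact step root 1 (one_smul _ _) i
  · intro i u ih k
    obtain ⟨g, hg1, hg2⟩ := ih i
    refine step (tog i u) (g * movG q) ?_ k
    rw [mul_smul, (movG_has q).rt, hg2]

/-- The hypotheses of the windmill. -/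
theorem Adm.mill (hD : Adm q D) : Mill rd (FF q D) (RR q D) (eps q D) where
  tree := rd_tree
  iso := GG.iso
  inv := by
    rintro h S ⟨g, j, b, n, h1, rfl⟩
    exact ⟨h * g, j, b, n, h1, ln_smul g h⟩
  conv := by
    rintro S ⟨g, j, b, n, h1, rfl⟩
    obtain ⟨hj, hjq, _⟩ := hD.rng j b n h1
    intro x hx y hy z hz
    unfold ln at hx hy ⊢
    rw [Set.mem_smul_set_iff_inv_smul_mem] at hx hy ⊢
    refine (tau_axis hj hjq b).conv _ hx _ hy _ ?_
    rw [GG.iso, GG.iso, GG.iso]
    exact hz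
  ne := by
    rintro S ⟨g, j, b, n, h1, rfl⟩
    exact ⟨g • root, root_mem j b g⟩
  conj := by
    intro h S r hr
    have : r ∈ (RR q D (h • S)).comap (MulAut.conj h).toMonoidHom := by
      revert r
      change RR q D S ≤ _
      unfold RR
      rw [Subgroup.closure_le]
      rintro r ⟨g, j, b, n, h1, hS, rfl⟩
      refine Subgroup.subset_closure ⟨h * g, j, b, n, h1, ?_, ?_⟩
      · rw [hS, ln_smul]
      · change h * (g * tau q j b ^ n * g⁻¹) * h⁻¹ = _
        group
    exact this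
  fix := by
    rintro S ⟨g, j, b, n, h1, rfl⟩ r hr x hx
    obtain ⟨k, rfl⟩ := Subgroup.mem_zpowers_iff.1 (hD.RR_le h1 g hr)
    unfold ln at hx ⊢
    rw [Axis.mem_line] at hx ⊢
    obtain ⟨m, rfl⟩ := hx
    refine ⟨n * k + m, ?_⟩
    rw [conj_zpow, ← zpow_natCast, ← zpow_mul, zpow_add, mul_smul, mul_smul, mul_smul,
      inv_smul_smul]
  far := by
    rintro S ⟨g, j, b, n, h1, rfl⟩ r hr hr1 x hx
    obtain ⟨hj, hjq, _⟩ := hD.rng j b n h1
    have hb := hD.bounds h1 g
    obtain ⟨k, rfl⟩ := Subgroup.mem_zpowers_iff.1 (hD.RR_le h1 g hr)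
    unfold ln at hx
    rw [Axis.mem_line] at hx
    obtain ⟨m, rfl⟩ := hx
    have hk : k ≠ 0 := by
      rintro rfl
      exact hr1 (zpow_zero _)
    have e : (g * tau q j b ^ n * g⁻¹) ^ k • g • tau q j b ^ m • (root : VV q) =
        g • tau q j b ^ (n * k + m) • root := by
      rw [conj_zpow, ← zpow_natCast, ← zpow_mul, zpow_add, mul_smul, mul_smul, mul_smul,
        inv_smul_smul]
    rw [e, GG.iso, (tau_axis hj hjq b).dist]
    have e2 : (n : ℤ) * k + m - m = n * k := by ring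
    rw [e2, Int.natAbs_mul, Int.natAbs_natCast]
    have h3 : 1 ≤ k.natAbs := Int.natAbs_pos.2 hk
    have h4 : n ≤ n * k.natAbs := by
      calc n = n * 1 := (mul_one n).symm
        _ ≤ n * k.natAbs := Nat.mul_le_mul_left n h3
    exact ⟨hb.1.trans h4, hb.2.1.trans h4, hb.2.2.trans h4⟩
  sep := by
    rintro S ⟨g, j, b, n, h1, rfl⟩ S' ⟨g', j', b', n', h2, rfl⟩ hne x hx hx' y hy hy'
    by_contra hlt
    push Not at hlt
    exact hne (hD.unique h1 h2 hx hy hx' hy' hlt).2.2.1.symm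
  eps := fun h S _ => eps_smul h S
  cover := by
    intro x y hxy
    obtain ⟨i, rfl⟩ := rd_adj hxy
    obtain ⟨g, hg1, hg2⟩ := flag x i
    obtain ⟨n, hn⟩ := hD.one
    refine ⟨ln q 1 false g, ⟨g, 1, false, n, hn, rfl⟩, ?_, ?_⟩
    · have := root_mem (q := q) 1 false g
      rwa [hg1] at this
    · have := pow_mem_ln (q := q) 1 false g 1
      rwa [pow_one, tau1 le_rfl, hg2] at this
  cofinal := by
    rintro S ⟨g, j, b, n, h1, rfl⟩
    obtain ⟨hj, hjq, h6⟩ := hD.rng j b n h1
    have hax := tau_axis hj hjq b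
    refine ⟨g * tau q j b ^ n * g⁻¹, Subgroup.subset_closure ⟨g, j, b, n, h1, rfl, rfl⟩, ?_, ?_⟩
    · intro h
      have h2 : tau q j b ^ n = 1 := by
        have : tau q j b ^ n = g⁻¹ * (g * tau q j b ^ n * g⁻¹) * g := by group
        rw [this, h]; group
      have h3 := hax.zpow_ne (n := n) (by omega)
      rw [zpow_natCast] at h3
      exact h3 h2
    · intro a ha c hc
      unfold ln at ha hc
      rw [Axis.mem_line] at ha hc
      obtain ⟨m, rfl⟩ := ha
      obtain ⟨l, rfl⟩ := hc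
      have e : ∀ k : ℤ, (g * tau q j b ^ n * g⁻¹) ^ k • g • tau q j b ^ l • (root : VV q) =
          g • tau q j b ^ (n * k + l) • root := by
        intro k
        rw [conj_zpow, ← zpow_natCast, ← zpow_mul, zpow_add, mul_smul, mul_smul, mul_smul,
          inv_smul_smul]
      refine ⟨-(|m| + |l|), |m| + |l|, ?_⟩
      rw [e, e, GG.iso, GG.iso, GG.iso, hax.dist, hax.dist, hax.dist]
      have hN : |m| + |l| ≤ n * (|m| + |l|) := by
        have h0 : 0 ≤ |m| + |l| := by positivity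
        have h1' : (1 : ℤ) ≤ n := by omega
        nlinarith
      have e3 : (n : ℤ) * -(|m| + |l|) = -(n * (|m| + |l|)) := by ring
      rw [e3]
      generalize (n : ℤ) * (|m| + |l|) = N at *
      have b1 := neg_abs_le m
      have b2 := le_abs_self m
      have b3 := neg_abs_le l
      have b4 := le_abs_self l
      omega

end Pool.Agent.WM
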