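import Pool.Agent.Lib_helper98.WM.Tree

/-! The windmill: a group acting on a tree with an invariant family of lines. -/

namespace Pool.Agent.WM

open Pointwise

variable {T G : Type*} [Group G] [MulAction G T]

/-- A group `G` acting by isometries on a tree, with an invariant family of convex sets (lines)
`S`, each with a subgroup `R S` translating it far, such that the line `S` shares at most `ε S`
consecutive edges with every other line. -/
structure Mill (d : T → T → ℕ) (F : Set (Set T)) (R : Set T → Subgroup G) (ε : Set T → ℕ) :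
    Prop where
  tree : IsTree d
  iso : ∀ (g : G) (x y : T), d (g • x) (g • y) = d x y
  inv : ∀ (g : G), ∀ S ∈ F, g • S ∈ F
  conv : ∀ S ∈ F, Conv d S
  ne : ∀ S ∈ F, S.Nonempty
  conj : ∀ (g : G) (S : Set T) (r : G), r ∈ R S → g * r * g⁻¹ ∈ R (g • S)
  fix : ∀ S ∈ F, ∀ r ∈ R S, ∀ x ∈ S, r • x ∈ S
  far : ∀ S ∈ F, ∀ r ∈ R S, r ≠ 1 → ∀ x ∈ S,
    4 * ε S + 2 ≤ d x (r • x) ∧ 5 * ε S + 1 ≤ d x (r • x) ∧ 3 * ε S + 3 ≤ d x (r • x)
  sep : ∀ S ∈ F, ∀ S' ∈ F, S ≠ S' → ∀ x ∈ S, x ∈ S' → ∀ y ∈ S, y ∈ S' → d x y ≤ ε S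
  eps : ∀ (g : G), ∀ S ∈ F, ε (g • S) = ε S
  cover : ∀ x y, d x y = 1 → ∃ S ∈ F, x ∈ S ∧ y ∈ S
  cofinal : ∀ S ∈ F, ∃ r ∈ R S, r ≠ 1 ∧ ∀ a ∈ S, ∀ b ∈ S, ∃ k l : ℤ,
    d (r ^ k • b) a + d a (r ^ l • b) = d (r ^ k • b) (r ^ l • b)

/-- The point `y` hangs off the line `S` at a point of `V`. -/
def Near (d : T → T → ℕ) (V S : Set T) (y : T) : Prop := ∃ s, Gate d S y s ∧ s ∈ V

/-- The point `y` is separated from `V` by a long piece of the line `S`. -/
def Beyond (d : T → T → ℕ) (ε : Set T → ℕ) (V S : Set T) (y : T) : Prop :=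
  ∃ e ∈ S, e ∈ V ∧ ∃ f ∈ S, 2 ≤ d e f ∧ ε S + 1 ≤ d e f ∧
    ∀ x ∈ V, d x y = d x e + d e f + d f y

/-- The data of one step of the windmill. -/
structure Step (d : T → T → ℕ) (F : Set (Set T)) (R : Set T → Subgroup G) (ε : Set T → ℕ)
    (M : Set (Set T)) (V : Set T) (K : Subgroup G) : Prop where
  mill : Mill d F R ε
  le : M ⊆ F
  conv : Conv d V
  ne : ∀ S ∈ M, ∃ c, c ∈ S ∧ c ∈ V
  inv : ∀ k ∈ K, ∀ x ∈ V, k • x ∈ V
  w1 : ∀ k ∈ K, ∀ x ∈ V, d x (k • x) ≤ 1 → k = 1
  f2 : ∀ S ∈ M, ∀ x ∈ S, x ∈ V → ∀ y ∈ S, y ∈ V → d x y ≤ 4 * ε S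
  f3 : ∀ S ∈ M, ∀ S' ∈ M, S ≠ S' → ∀ x ∈ S, x ∈ S' → x ∈ V
  minv : ∀ k ∈ K, ∀ S ∈ M, k • S ∈ M
  stab : ∀ k ∈ K, ∀ S ∈ M, k • S = S → k = 1

/-- The group of the next step. -/
def nextK (R : Set T → Subgroup G) (M : Set (Set T)) (K : Subgroup G) : Subgroup G :=
  Subgroup.closure ((K : Set G) ∪ {g | ∃ S ∈ M, g ∈ R S})

/-- The points of the next step. -/
inductive NextW (d : T → T → ℕ) (R : Set T → Subgroup G) (M : Set (Set T)) (V : Set T) :
    T → Prop
  | room (y : T) : y ∈ V → NextW d R M V y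
  | cor (S : Set T) (y : T) : S ∈ M → y ∈ S → NextW d R M V y
  | far (S : Set T) (t : G) (y : T) : S ∈ M → t ∈ R S → t ≠ 1 → NextW d R M V y →
      Near d V S y → NextW d R M V (t • y)

/-- Group elements in normal form. -/
inductive Good (d : T → T → ℕ) (R : Set T → Subgroup G) (M : Set (Set T)) (V : Set T)
    (K : Subgroup G) : G → Prop
  | base (g : G) : g ∈ K → Good d R M V K g
  | step (S : Set T) (t g : G) : S ∈ M → t ∈ R S → t ≠ 1 → Good d R M V K g →
      (∀ y ∈ V, Near d V S (g • y)) → Good d R M V K (t * g)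

namespace Mill

variable {d : T → T → ℕ} {F : Set (Set T)} {R : Set T → Subgroup G} {ε : Set T → ℕ}
variable (h : Mill d F R ε)
include h

theorem gate_smul (g : G) {S : Set T} {y s : T} (hg : Gate d S y s) :
    Gate d (g • S) (g • y) (g • s) := by
  refine ⟨Set.smul_mem_smul_set hg.1, ?_⟩
  rintro c ⟨c', hc', rfl⟩
  simp only
  rw [h.iso, h.iso, h.iso]
  exact hg.2 c' hc'

theorem fixS {S : Set T} (hS : S ∈ F) {t : G} (ht : t ∈ R S) : t • S = S := by
  ext x
  rw [Set.mem_smul_set_iff_inv_smul_mem]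
  constructor
  · intro hx
    have := h.fix S hS t ht _ hx
    rwa [smul_inv_smul] at this
  · intro hx
    exact h.fix S hS _ (inv_mem ht) x hx

theorem conj' (g : G) {S : Set T} {r : G} (hr : g * r * g⁻¹ ∈ R (g • S)) : r ∈ R S := by
  have := h.conj g⁻¹ (g • S) _ hr
  rw [inv_smul_smul] at this
  have e : g⁻¹ * (g * r * g⁻¹) * g⁻¹⁻¹ = r := by group
  rwa [e] at this

/-- A line containing the endpoints of a geodesic with a long piece in `S` is `S`. -/
theorem same {S S' : Set T} (hS : S ∈ F) (hS' : S' ∈ F) {x y e f : T} (he : e ∈ S) (hf : f ∈ S)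
    (hL : ε S + 1 ≤ d e f) (hx : x ∈ S') (hy : y ∈ S')
    (hd : d x y = d x e + d e f + d f y) : S = S' := by
  have ht := h.tree
  have t1 := ht.tri x e y
  have t2 := ht.tri e f y
  have t3 := ht.tri x f y
  have t4 := ht.tri x e f
  have he' : e ∈ S' := h.conv S' hS' x hx y hy e (by omega)
  have hf' : f ∈ S' := h.conv S' hS' x hx y hy f (by omega)
  by_contra hne
  have := h.sep S hS S' hS' hne e he he' f hf hf'
  omega

end Mill

namespace Step

variable {d : T → T → ℕ} {F : Set (Set T)} {R : Set T → Subgroup G} {ε : Set T → ℕ}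
  {M : Set (Set T)} {V : Set T} {K : Subgroup G}
variable (s : Step d F R ε M V K)
include s

theorem near_V {S : Set T} (hS : S ∈ M) {y : T} (hy : y ∈ V) : Near d V S y := by
  have hF := s.le hS
  obtain ⟨c, hcS, hcV⟩ := s.ne S hS
  obtain ⟨g, hg⟩ := s.mill.tree.gate' (s.mill.conv S hF) ⟨c, hcS⟩ y
  exact ⟨g, hg, s.conv y hy c hcV g (hg.2 c hcS).symm⟩

theorem near_line {S S' : Set T} (hS : S ∈ M) (hS' : S' ∈ M) (hne : S' ≠ S) {y : T}
    (hy : y ∈ S') : Near d V S y := by
  have hF := s.le hS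
  obtain ⟨c, hcS, hcV⟩ := s.ne S hS
  obtain ⟨g, hg⟩ := s.mill.tree.gate' (s.mill.conv S hF) ⟨c, hcS⟩ y
  obtain ⟨b, hbS, hbV⟩ := s.ne S' hS'
  obtain ⟨g', hg', hgV⟩ := s.near_V hS hbV
  refine ⟨g, hg, ?_⟩
  by_cases he : g = g'
  · rw [he]; exact hgV
  · have h2 := s.mill.tree.two_gates hg hg' he
    have t1 := s.mill.tree.tri g g' b
    have t2 := s.mill.tree.tri y g b
    have : g ∈ S' := s.mill.conv S' (s.le hS') y hy b hbS g (by omega)
    exact s.f3 S hS S' hS' (Ne.symm hne) g hg.1 this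

theorem beyond_of_near {S : Set T} (hS : S ∈ M) {t : G} (ht : t ∈ R S) (h1 : t ≠ 1) {y : T}
    (hy : Near d V S y) : Beyond d ε V S (t • y) := by
  have hF := s.le hS
  obtain ⟨c, hg, hcV⟩ := hy
  obtain ⟨e, heV, he⟩ := s.mill.tree.gate s.conv ⟨c, hcV⟩ (t • c)
  have htc : t • c ∈ S := s.mill.fix S hF t ht c hg.1
  have heS : e ∈ S := s.mill.conv S hF (t • c) htc c hg.1 e (he c hcV).symm
  have hf2 := s.f2 S hS e heS heV c hg.1 hcV
  have hfar := s.mill.far S hF t ht h1 c hg.1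
  have hec := he c hcV
  have s1 := s.mill.tree.symm c (t • c)
  have s2 := s.mill.tree.symm e (t • c)
  have g2 := s.mill.gate_smul t hg
  rw [s.mill.fixS hF ht] at g2
  refine ⟨e, heS, heV, t • c, htc, by omega, by omega, ?_⟩
  intro x hx
  have hx1 := he x hx
  have hx2 := g2.2 e heS
  have s3 := s.mill.tree.symm x (t • c)
  have s4 := s.mill.tree.symm x e
  have s5 := s.mill.tree.symm (t • y) e
  have s6 := s.mill.tree.symm (t • y) (t • c)
  exact (s.mill.tree.glue (x := x) (y := e) (z := t • c) (w := t • y) (by omega) (by omega)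
    (by omega)).symm

theorem near_of_beyond {S S' : Set T} (hS : S ∈ M) (hS' : S' ∈ M) (hne : S' ≠ S) {y : T}
    (hy : Beyond d ε V S' y) : Near d V S y := by
  have hF := s.le hS
  have hF' := s.le hS'
  obtain ⟨c, hcS, hcV⟩ := s.ne S hS
  obtain ⟨g, hg⟩ := s.mill.tree.gate' (s.mill.conv S hF) ⟨c, hcS⟩ y
  refine ⟨g, hg, ?_⟩
  obtain ⟨e, heS, heV, f, hfS, _, hL, hM⟩ := hy
  have hc := hM c hcV
  have hgc := hg.2 c hcS
  have ht := s.mill.tree
  have s1 := ht.symm y c
  have s2 := ht.symm y g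
  have s3 := ht.symm g c
  have t1 := ht.tri c e y
  have t2 := ht.tri e f y
  rcases ht.split (x := c) (y := e) (z := y) (p := g) (by omega) with h | h
  · exact s.conv c hcV e heV g h
  · rcases ht.split (x := e) (y := f) (z := y) (p := g) h with h' | h'
    · exact s.f3 S hS S' hS' (Ne.symm hne) g hg.1 (s.mill.conv S' hF' e heS f hfS g h')
    · exfalso
      have t3 := ht.tri c e g
      have t4 := ht.tri e f g
      have t5 := ht.tri c e f
      have t6 := ht.tri c f g
      exact hne (s.mill.same hF' hF heS hfS hL hcS hg.1 (by omega))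

theorem junction {S : Set T} {x y : T} (hx : Near d V S x) (hy : Beyond d ε V S y) :
    ∃ e ∈ S, ∃ f ∈ S, ε S + 1 ≤ d e f ∧ d x y = d x e + d e f + d f y := by
  obtain ⟨e, heS, heV, f, hfS, h0, hL, hM⟩ := hy
  refine ⟨e, heS, f, hfS, hL, ?_⟩
  obtain ⟨c, hg, hcV⟩ := hx
  have ht := s.mill.tree
  have h1 := hM c hcV
  have h2 := hM e heV
  have h3 := hg.2 e heS
  have h4 := hg.2 f hfS
  have t1 := ht.tri c f y
  have t2 := ht.tri c e f
  have z := ht.self e
  exact (ht.glue (x := x) (y := e) (z := f) (w := y) (by omega) (by omega) (by omega)).symm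

theorem near_smul {k : G} (hk : k ∈ K) {S : Set T} {y : T} (hy : Near d V S y) :
    Near d V (k • S) (k • y) := by
  obtain ⟨c, hg, hcV⟩ := hy
  exact ⟨k • c, s.mill.gate_smul k hg, s.inv k hk c hcV⟩

omit [MulAction G T] s in
theorem R_le {S : Set T} (hS : S ∈ M) : R S ≤ nextK R M K :=
  fun _ hr => Subgroup.subset_closure (Or.inr ⟨S, hS, hr⟩)

omit [MulAction G T] s in
theorem K_le : K ≤ nextK R M K := fun _ hk => Subgroup.subset_closure (Or.inl hk)

theorem good_K {k g : G} (hk : k ∈ K) (hg : Good d R M V K g) : Good d R M V K (k * g) := by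
  induction hg with
  | base g hg => exact Good.base _ (mul_mem hk hg)
  | step S t g hS ht h1 _ hN ih =>
    have e : k * (t * g) = (k * t * k⁻¹) * (k * g) := by group
    rw [e]
    refine Good.step (k • S) _ _ (s.minv k hk S hS) (s.mill.conj k S t ht) ?_ ih ?_
    · intro h
      apply h1
      have : t = k⁻¹ * (k * t * k⁻¹) * k := by group
      rw [this, h]; group
    · intro y hy
      rw [mul_smul]
      exact s.near_smul hk (hN y hy)

theorem good_R {S : Set T} (hS : S ∈ M) {t g : G} (ht : t ∈ R S) (hg : Good d R M V K g) :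
    Good d R M V K (t * g) := by
  by_cases h1 : t = 1
  · rw [h1, one_mul]; exact hg
  cases hg with
  | base g hg =>
    exact Good.step S t g hS ht h1 (Good.base g hg) (fun y hy => s.near_V hS (s.inv g hg y hy))
  | step S' t' g hS' ht' h1' hg hN =>
    by_cases he : S' = S
    · subst he
      rw [← mul_assoc]
      by_cases h2 : t * t' = 1
      · rw [h2, one_mul]; exact hg
      · exact Good.step _ _ _ hS (mul_mem ht ht') h2 hg hN
    · refine Good.step S t _ hS ht h1 (Good.step S' t' g hS' ht' h1' hg hN) ?_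
      intro y hy
      rw [mul_smul]
      exact s.near_of_beyond hS hS' he (s.beyond_of_near hS' ht' h1' (hN y hy))

theorem good_of {g : G} (hg : g ∈ nextK R M K) : Good d R M V K g := by
  refine Subgroup.closure_induction_left (Good.base 1 (one_mem K)) ?_ ?_ hg
  · intro x hx y _ ih
    rcases hx with hx | ⟨S, hS, hx⟩
    · exact s.good_K hx ih
    · exact s.good_R hS hx ih
  · intro x hx y _ ih
    rcases hx with hx | ⟨S, hS, hx⟩
    · exact s.good_K (inv_mem hx) ih
    · exact s.good_R hS (inv_mem hx) ih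

theorem dich {g : G} (hg : g ∈ nextK R M K) :
    g ∈ K ∨ ∃ S ∈ M, ∀ y ∈ V, Beyond d ε V S (g • y) := by
  cases s.good_of hg with
  | base g hg => exact Or.inl hg
  | step S t g hS ht h1 _ hN =>
    refine Or.inr ⟨S, hS, fun y hy => ?_⟩
    rw [mul_smul]
    exact s.beyond_of_near hS ht h1 (hN y hy)

omit [MulAction G T] s in
theorem beyond_pos {S : Set T} {x y : T} (hx : x ∈ V) (hy : Beyond d ε V S y) : 2 ≤ d x y := by
  obtain ⟨e, _, _, f, _, h0, _, hM⟩ := hy
  have := hM x hx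
  omega

theorem dich2 {g : G} (hg : g ∈ nextK R M K) {y : T} (hy : y ∈ V) (hgy : g • y ∈ V) : g ∈ K := by
  rcases s.dich hg with h | ⟨S, _, h⟩
  · exact h
  · have := beyond_pos hgy (h y hy)
    rw [s.mill.tree.self] at this
    omega

theorem z_K {k : G} (hk : k ∈ K) {y : T} (hy : NextW d R M V y) : NextW d R M V (k • y) := by
  induction hy with
  | room y hy => exact NextW.room _ (s.inv k hk y hy)
  | cor S y hS hy => exact NextW.cor (k • S) _ (s.minv k hk S hS) (Set.smul_mem_smul_set hy)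
  | far S t y hS ht h1 _ hN ih =>
    have e : k • t • y = (k * t * k⁻¹) • k • y := by
      rw [← mul_smul, ← mul_smul]; congr 1; group
    rw [e]
    refine NextW.far (k • S) _ _ (s.minv k hk S hS) (s.mill.conj k S t ht) ?_ ih
      (s.near_smul hk hN)
    intro h
    apply h1
    have : t = k⁻¹ * (k * t * k⁻¹) * k := by group
    rw [this, h]; group

theorem z_R {S : Set T} (hS : S ∈ M) {t : G} (ht : t ∈ R S) {y : T} (hy : NextW d R M V y) :
    NextW d R M V (t • y) := by
  by_cases h1 : t = 1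
  · rw [h1, one_smul]; exact hy
  cases hy with
  | room y hy => exact NextW.far S t y hS ht h1 (NextW.room y hy) (s.near_V hS hy)
  | cor S' y hS' hy =>
    by_cases he : S' = S
    · subst he
      exact NextW.cor _ _ hS (s.mill.fix _ (s.le hS) t ht y hy)
    · exact NextW.far S t y hS ht h1 (NextW.cor S' y hS' hy) (s.near_line hS hS' he hy)
  | far S' t' y hS' ht' h1' hy hN =>
    by_cases he : S' = S
    · subst he
      rw [← mul_smul]
      by_cases h2 : t * t' = 1
      · rw [h2, one_smul]; exact hy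
      · exact NextW.far _ _ _ hS (mul_mem ht ht') h2 hy hN
    · exact NextW.far S t _ hS ht h1 (NextW.far S' t' y hS' ht' h1' hy hN)
        (s.near_of_beyond hS hS' he (s.beyond_of_near hS' ht' h1' hN))

theorem z_smul {g : G} (hg : g ∈ nextK R M K) {y : T} (hy : NextW d R M V y) :
    NextW d R M V (g • y) := by
  refine Subgroup.closure_induction_left (p := fun g _ => NextW d R M V (g • y))
    (by rw [one_smul]; exact hy) ?_ ?_ hg
  · intro x hx z _ ih
    rw [mul_smul]
    rcases hx with hx | ⟨S, hS, hx⟩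
    · exact s.z_K hx ih
    · exact s.z_R hS hx ih
  · intro x hx z _ ih
    rw [mul_smul]
    rcases hx with hx | ⟨S, hS, hx⟩
    · exact s.z_K (inv_mem hx) ih
    · exact s.z_R hS (inv_mem hx) ih

omit s in
theorem z_rep {y : T} (hy : NextW d R M V y) :
    ∃ g ∈ nextK R M K, ∃ x, (x ∈ V ∨ ∃ S ∈ M, x ∈ S) ∧ y = g • x := by
  induction hy with
  | room y hy => exact ⟨1, one_mem _, y, Or.inl hy, (one_smul G y).symm⟩
  | cor S y hS hy => exact ⟨1, one_mem _, y, Or.inr ⟨S, hS, hy⟩, (one_smul G y).symm⟩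
  | far S t y hS ht _ _ _ ih =>
    obtain ⟨g, hg, x, hx, rfl⟩ := ih
    exact ⟨t * g, mul_mem (R_le hS ht) hg, x, hx, (mul_smul t g x).symm⟩

theorem ee {y : T} (hy : NextW d R M V y) {S : Set T} (hS : S ∈ M) :
    y ∈ S ∨ ∃ c, Gate d S y c ∧ ∃ t ∈ R S, t⁻¹ • c ∈ V := by
  have one : Near d V S y → ∃ c, Gate d S y c ∧ ∃ t ∈ R S, t⁻¹ • c ∈ V := by
    rintro ⟨c, hg, hc⟩
    exact ⟨c, hg, 1, one_mem _, by rw [inv_one, one_smul]; exact hc⟩
  cases hy with
  | room y hy => exact Or.inr (one (s.near_V hS hy))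
  | cor S' y hS' hy =>
    by_cases he : S' = S
    · subst he; exact Or.inl hy
    · exact Or.inr (one (s.near_line hS hS' he hy))
  | far S' t y hS' ht h1 hy hN =>
    by_cases he : S' = S
    · subst he
      obtain ⟨c, hg, hc⟩ := hN
      have g2 := s.mill.gate_smul t hg
      rw [s.mill.fixS (s.le hS) ht] at g2
      exact Or.inr ⟨t • c, g2, t, ht, by rw [inv_smul_smul]; exact hc⟩
    · exact Or.inr (one (s.near_of_beyond hS hS' he (s.beyond_of_near hS' ht h1 hN)))

theorem e2' {g : G} (hg : g ∈ nextK R M K) {y : T} (hy : y ∈ V) {S : Set T} (hS : S ∈ M) :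
    ∃ c, Gate d S (g • y) c ∧ ∃ t ∈ R S, t⁻¹ • c ∈ V := by
  have one : ∀ y, Near d V S y → ∃ c, Gate d S y c ∧ ∃ t ∈ R S, t⁻¹ • c ∈ V := by
    rintro y ⟨c, hg, hc⟩
    exact ⟨c, hg, 1, one_mem _, by rw [inv_one, one_smul]; exact hc⟩
  cases s.good_of hg with
  | base g hg => exact one _ (s.near_V hS (s.inv g hg y hy))
  | step S' t g hS' ht h1 hg hN =>
    have hN := hN y hy
    by_cases he : S' = S
    · subst he
      obtain ⟨c, hg, hc⟩ := hN
      have g2 := s.mill.gate_smul t hg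
      rw [s.mill.fixS (s.le hS) ht] at g2
      refine ⟨t • c, ?_, t, ht, by rw [inv_smul_smul]; exact hc⟩
      rw [mul_smul]; exact g2
    · rw [mul_smul]
      exact one _ (s.near_of_beyond hS hS' he (s.beyond_of_near hS' ht h1 hN))

theorem e2 {g : G} (hg : g ∈ nextK R M K) {y : T} (hy : y ∈ V) {S : Set T} (hS : S ∈ M)
    (hgy : g • y ∈ S) : ∃ t ∈ R S, t⁻¹ • g • y ∈ V := by
  obtain ⟨c, hc, t, ht, htc⟩ := s.e2' hg hy hS
  have := s.mill.tree.gate_self hc hgy
  subst this
  exact ⟨t, ht, htc⟩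

theorem stab' {g : G} (hg : g ∈ nextK R M K) {S : Set T} (hS : S ∈ M) (hgS : g • S = S) :
    g ∈ R S := by
  obtain ⟨c, hcS, hcV⟩ := s.ne S hS
  have h1 : g • c ∈ S := by
    rw [← hgS]; exact Set.smul_mem_smul_set hcS
  obtain ⟨t, ht, h2⟩ := s.e2 hg hcV hS h1
  rw [← mul_smul] at h2
  have hm : t⁻¹ * g ∈ nextK R M K := mul_mem (inv_mem (R_le hS ht)) hg
  have h3 := s.dich2 hm hcV h2
  have h4 : (t⁻¹ * g) • S = S := by
    rw [mul_smul, hgS]
    exact s.mill.fixS (s.le hS) (inv_mem ht)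
  have h5 := s.stab _ h3 S hS h4
  rw [inv_mul_eq_one] at h5
  rw [← h5]; exact ht

theorem e3 {S : Set T} (hS : S ∈ M) {x : T} (hx : x ∈ S) (hr : ∀ t ∈ R S, t⁻¹ • x ∉ V) {k : G}
    (hk : k ∈ nextK R M K) (hkS : k • S ≠ S) : k • x ∉ S := by
  intro hkx
  have hF := s.le hS
  obtain ⟨b, hbS, hbV⟩ := s.ne S hS
  obtain ⟨c, hc, t, ht, htc⟩ := s.e2' hk hbV hS
  have hkx' : k • x ∈ k • S := Set.smul_mem_smul_set hx
  have hkb' : k • b ∈ k • S := Set.smul_mem_smul_set hbS
  have hc2 : c ∈ k • S :=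
    s.mill.conv _ (s.mill.inv k S hF) _ hkb' _ hkx' c (hc.2 _ hkx).symm
  have hc3 : k⁻¹ • c ∈ S := by rwa [← Set.mem_smul_set_iff_inv_smul_mem]
  have htN := R_le hS ht (K := K)
  have e1 : k⁻¹ • c = (k⁻¹ * t) • t⁻¹ • c := by
    rw [← mul_smul]; congr 1; group
  rw [e1] at hc3
  have hkt : k⁻¹ * t ∈ nextK R M K := mul_mem (inv_mem hk) htN
  obtain ⟨t', ht', h3⟩ := s.e2 hkt htc hS hc3
  rw [← mul_smul] at h3
  have h4 := s.dich2 (mul_mem (inv_mem (R_le hS ht' (K := K))) hkt) htc h3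
  have hfix' := s.mill.fixS hF (inv_mem ht')
  have hfix := s.mill.fixS hF ht
  have h5 : k • S = t • (t'⁻¹ * (k⁻¹ * t))⁻¹ • S := by
    have e2 : k = t * (t'⁻¹ * (k⁻¹ * t))⁻¹ * t'⁻¹ := by group
    calc k • S = (t * (t'⁻¹ * (k⁻¹ * t))⁻¹ * t'⁻¹) • S := by rw [← e2]
      _ = t • (t'⁻¹ * (k⁻¹ * t))⁻¹ • S := by rw [mul_smul, mul_smul, hfix']
  have hM1 := s.minv _ (inv_mem h4) S hS
  by_cases he : (t'⁻¹ * (k⁻¹ * t))⁻¹ • S = S
  · apply hkS
    rw [h5, he, hfix]
  · have h6 : t⁻¹ • k • x ∈ (t'⁻¹ * (k⁻¹ * t))⁻¹ • S := by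
      rw [← Set.mem_smul_set_iff_inv_smul_mem, ← h5]
      exact hkx'
    have h7 : t⁻¹ • k • x ∈ S := s.mill.fix S hF _ (inv_mem ht) _ hkx
    have h8 := s.f3 _ hM1 S hS he _ h6 h7
    have e3 : x = (k⁻¹ * t) • t⁻¹ • k • x := by
      rw [← mul_smul, ← mul_smul]
      have : k⁻¹ * t * t⁻¹ * k = 1 := by group
      rw [this, one_smul]
    have hx' : (k⁻¹ * t) • t⁻¹ • k • x ∈ S := by rw [← e3]; exact hx
    obtain ⟨t'', ht'', h9⟩ := s.e2 hkt h8 hS hx'
    rw [← e3] at h9
    exact hr t'' ht'' h9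

theorem w1a {g : G} (hg : g ∈ nextK R M K) {x : T} (hx : x ∈ V) (hd : d x (g • x) ≤ 1) :
    g = 1 := by
  rcases s.dich hg with h | ⟨S, _, h⟩
  · exact s.w1 g h x hx hd
  · have := beyond_pos hx (h x hx)
    omega

theorem w1b {g : G} (hg : g ∈ nextK R M K) {S : Set T} (hS : S ∈ M) {x : T} (hx : x ∈ S)
    (hd : d x (g • x) ≤ 1) : g = 1 := by
  have hF := s.le hS
  have htr := s.mill.tree
  by_cases hr : ∃ t ∈ R S, t⁻¹ • x ∈ V
  · obtain ⟨t, ht, hV⟩ := hr
    have htN := R_le hS ht (K := K)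
    have h1 : t⁻¹ * g * t = 1 := by
      refine s.w1a (mul_mem (mul_mem (inv_mem htN) hg) htN) hV ?_
      have : (t⁻¹ * g * t) • t⁻¹ • x = t⁻¹ • g • x := by
        rw [← mul_smul, ← mul_smul]; congr 1; group
      rw [this, s.mill.iso]
      exact hd
    have : g = t * (t⁻¹ * g * t) * t⁻¹ := by group
    rw [this, h1]; group
  · push Not at hr
    by_cases hgS : g • S = S
    · have h2 := s.stab' hg hS hgS
      by_contra h1
      have := s.mill.far S hF g h2 h1 x hx
      omega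
    · exfalso
      have hgx := s.e3 hS hx hr hg hgS
      have hz : NextW d R M V x := NextW.cor S x hS hx
      rcases s.ee (s.z_smul hg hz) hS with h | ⟨c, hc, t, ht, htc⟩
      · exact absurd h hgx
      have a1 := hc.2 x hx
      have b1 : d c x ≠ 0 := by
        intro h0
        have := htr.eq_of h0
        subst this
        exact hr t ht htc
      have b3 : d (g • x) c ≠ 0 := by
        intro h0
        have := htr.eq_of h0
        rw [this] at hgx
        exact hgx hc.1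
      have s1 := htr.symm x (g • x)
      omega

theorem w1' {g : G} (hg : g ∈ nextK R M K) {x : T} (hx : NextW d R M V x)
    (hd : d x (g • x) ≤ 1) : g = 1 := by
  obtain ⟨a, ha, y, hy, rfl⟩ := z_rep hx
  have hm : a⁻¹ * g * a ∈ nextK R M K := mul_mem (mul_mem (inv_mem ha) hg) ha
  have e : d y ((a⁻¹ * g * a) • y) ≤ 1 := by
    rw [← s.mill.iso a]
    have : a • (a⁻¹ * g * a) • y = g • a • y := by
      rw [← mul_smul, ← mul_smul]; congr 1; group
    rw [this]
    exact hd
  have h1 : a⁻¹ * g * a = 1 := by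
    rcases hy with hy | ⟨S, hS, hy⟩
    · exact s.w1a hm hy e
    · exact s.w1b hm hS hy e
  have : g = a * (a⁻¹ * g * a) * a⁻¹ := by group
  rw [this, h1]; group

/-- The geodesic between two points lies in the next windmill. -/
theorem conv' : Conv d {x | NextW d R M V x} := by
  have htr := s.mill.tree
  let P : T → T → Prop := fun x y => ∀ z, d x z + d z y = d x y → NextW d R M V z
  have trans : ∀ x y w, P x y → P y w → P x w := by
    intro x y w h1 h2 z hz
    rcases htr.split (x := x) (y := y) (z := w) (p := z) hz with h | h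
    · exact h1 z h
    · exact h2 z h
  have symm : ∀ x y, P x y → P y x := by
    intro x y h1 z hz
    apply h1 z
    have s1 := htr.symm y z
    have s2 := htr.symm z x
    have s3 := htr.symm y x
    omega
  have smul : ∀ g ∈ nextK R M K, ∀ x y, P x y → P (g • x) (g • y) := by
    intro g hg x y h1 z hz
    have h2 : NextW d R M V (g⁻¹ • z) := by
      apply h1
      rw [← s.mill.iso g, ← s.mill.iso g (g⁻¹ • z), ← s.mill.iso g x y, smul_inv_smul]
      exact hz
    have := s.z_smul hg h2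
    rwa [smul_inv_smul] at this
  have inV : ∀ x ∈ V, ∀ y ∈ V, P x y := by
    intro x hx y hy z hz
    exact NextW.room z (s.conv x hx y hy z hz)
  have inS : ∀ S ∈ M, ∀ x ∈ S, ∀ y ∈ S, P x y := by
    intro S hS x hx y hy z hz
    exact NextW.cor S z hS (s.mill.conv S (s.le hS) x hx y hy z hz)
  have key : ∀ v ∈ V, ∀ y, NextW d R M V y → P v y := by
    intro v hv y hy
    induction hy with
    | room y hy => exact inV v hv y hy
    | cor S y hS hy =>
      obtain ⟨c, hcS, hcV⟩ := s.ne S hS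
      exact trans _ c _ (inV v hv c hcV) (inS S hS c hcS y hy)
    | far S t y hS ht h1 _ _ ih =>
      obtain ⟨c, hcS, hcV⟩ := s.ne S hS
      have htN := R_le hS ht (K := K)
      refine trans _ (t • v) _ ?_ (smul t htN _ _ ih)
      refine trans _ c _ (inV v hv c hcV) ?_
      refine trans _ (t • c) _ (inS S hS c hcS _ (s.mill.fix S (s.le hS) t ht c hcS)) ?_
      exact smul t htN _ _ (inV c hcV v hv)
  intro x hx y hy z hz
  have hx' : NextW d R M V x := hx
  have hV : (∃ v, v ∈ V) ∨ ∀ u, ¬ NextW d R M V u := by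
    by_cases hV : ∃ v, v ∈ V
    · exact Or.inl hV
    · right
      intro u hu
      induction hu with
      | room y hy => exact hV ⟨y, hy⟩
      | cor S y hS hy =>
        obtain ⟨c, _, hcV⟩ := s.ne S hS
        exact hV ⟨c, hcV⟩
      | far S t y _ _ _ _ _ ih => exact ih
  rcases hV with ⟨v, hv⟩ | hV
  · exact trans x v y (symm v x (key v hv x hx)) (key v hv y hy) z hz
  · exact absurd hx' (hV x)

/-- Lines not belonging to the next windmill meet it in a short segment, if this holds for the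
star of `V`. -/
theorem w2' (star : ∀ B ∈ F, ¬ R B ≤ nextK R M K → ∀ x ∈ B, ∀ y ∈ B,
      (x ∈ V ∨ ∃ S ∈ M, x ∈ S) → (y ∈ V ∨ ∃ S ∈ M, y ∈ S) → d x y ≤ 2 * ε B)
    {B : Set T} (hB : B ∈ F) (hR : ¬ R B ≤ nextK R M K) {x y : T} (hx : x ∈ B) (hy : y ∈ B)
    (hxZ : NextW d R M V x) (hyZ : NextW d R M V y) : d x y ≤ 2 * ε B := by
  have htr := s.mill.tree
  have conjR : ∀ g ∈ nextK R M K, ∀ B : Set T, ¬ R B ≤ nextK R M K →
      ¬ R (g⁻¹ • B) ≤ nextK R M K := by
    intro g hg B hR h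
    apply hR
    intro r hr
    have h1 := h (s.mill.conj g⁻¹ B r hr)
    have h2 : r = g * (g⁻¹ * r * g⁻¹⁻¹) * g⁻¹ := by group
    rw [h2]
    exact mul_mem (mul_mem hg h1) (inv_mem hg)
  have key : ∀ y, NextW d R M V y → ∀ B ∈ F, ¬ R B ≤ nextK R M K → y ∈ B → ∀ x ∈ B,
      (x ∈ V ∨ ∃ S ∈ M, x ∈ S) → d x y ≤ 2 * ε B := by
    intro y hy
    induction hy with
    | room y hy =>
      intro B hB hR hyB x hxB hx
      exact star B hB hR x hxB y hyB hx (Or.inl hy)
    | cor S y hS hy =>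
      intro B hB hR hyB x hxB hx
      exact star B hB hR x hxB y hyB hx (Or.inr ⟨S, hS, hy⟩)
    | far S t y hS ht h1 hy hN ih =>
      intro B hB hR hyB x hxB hx
      have hF := s.le hS
      have hbey := s.beyond_of_near hS ht h1 hN
      have bad : Near d V S x → d x (t • y) ≤ 2 * ε B := by
        intro hN'
        exfalso
        obtain ⟨e, he, f, hf, hL, hd⟩ := s.junction hN' hbey
        have := s.mill.same hF hB he hf hL hxB hyB hd
        subst this
        exact hR (R_le hS)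
      rcases hx with hx | ⟨S', hS', hx⟩
      · exact bad (s.near_V hS hx)
      · by_cases he : S' = S
        · subst he
          have htN := R_le hS ht (K := K)
          have h2 := ih (t⁻¹ • B) (s.mill.inv _ B hB) (conjR t htN B hR)
            (by rw [Set.mem_smul_set_iff_inv_smul_mem, inv_inv]; exact hyB) (t⁻¹ • x)
            (Set.smul_mem_smul_set hxB)
            (Or.inr ⟨_, hS, s.mill.fix _ hF _ (inv_mem ht) x hx⟩)
          rw [← s.mill.iso t, smul_inv_smul, s.mill.eps _ B hB] at h2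
          exact h2
        · exact bad (s.near_line hS hS' he hx)
  obtain ⟨g, hg, x0, hx0, rfl⟩ := z_rep hxZ
  have h2 := key (g⁻¹ • y) (s.z_smul (inv_mem hg) hyZ) (g⁻¹ • B) (s.mill.inv _ B hB)
    (conjR g hg B hR) (Set.smul_mem_smul_set hy) x0
    (by rw [Set.mem_smul_set_iff_inv_smul_mem, inv_inv]; exact hx) hx0
  rw [← s.mill.iso g, smul_inv_smul, s.mill.eps _ B hB] at h2
  exact h2

end Step

end Pool.Agent.WM
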