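import Pool.Agent.Lib_helper98.WM.Final

/-! Existence of the universal polyhedra with long prescribed lengths. -/

namespace Pool.Agent.WM

open Pool.Agent.HZ Pointwise

/-- A criterion for the intersection property in rank three. -/
theorem poly_of {G : Type*} [Group G] {x : Fin 3 → G}
    (hg : Subgroup.closure (Set.range x) = ⊤) (hs : ∀ i, x i * x i = 1) (h02 : (x 0 * x 2) ^ 2 = 1)
    (hne : ∀ i, x i ≠ 1) (n01 : x 0 ≠ x 1) (n12 : x 1 ≠ x 2)
    (key : ∀ g, g ∈ Subgroup.closure {x 0, x 1} → g ∈ Subgroup.closure {x 1, x 2} →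
      g ∈ Subgroup.closure {x 1}) : IsRegularPolyhedron x := by
  have one : ∀ i, ∀ g ∈ Subgroup.closure {x i}, g = 1 ∨ g = x i := by
    intro i g hgi
    obtain ⟨n, hn⟩ := Subgroup.mem_closure_singleton.1 hgi
    have h2 : x i ^ (2 : ℤ) = 1 := by
      have : (2 : ℤ) = ((2 : ℕ) : ℤ) := rfl
      rw [this, zpow_natCast, pow_two, hs]
    rcases Int.even_or_odd' n with ⟨m, rfl | rfl⟩
    · left; rw [← hn, zpow_mul, h2, one_zpow]
    · right; rw [← hn, zpow_add, zpow_mul, h2, one_zpow, zpow_one, one_mul]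
  have two : ∀ g ∈ Subgroup.closure {x 0, x 2}, g = 1 ∨ g = x 0 ∨ g = x 2 ∨ g = x 0 * x 2 := by
    intro g hgi
    have hx : x 0 * x 2 * x 0 = x 2 := by
      have h1 : x 0 * x 2 * (x 0 * x 2) = 1 := by rw [← pow_two]; exact h02
      calc x 0 * x 2 * x 0 = x 0 * x 2 * (x 0 * x 2) * (x 2)⁻¹ := by group
        _ = (x 2)⁻¹ := by rw [h1, one_mul]
        _ = x 2 := inv_eq_of_mul_eq_one_left (hs 2)
    have h2 : (x 0 * x 2) ^ (2 : ℤ) = 1 := by
      have : (2 : ℤ) = ((2 : ℕ) : ℤ) := rfl
      rw [this, zpow_natCast, h02]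
    obtain ⟨n, hn⟩ := dihedral_mem (hs 0) (hs 2) g hgi
    have hp : (x 0 * x 2) ^ n = 1 ∨ (x 0 * x 2) ^ n = x 0 * x 2 := by
      rcases Int.even_or_odd' n with ⟨m, rfl | rfl⟩
      · left; rw [zpow_mul, h2, one_zpow]
      · right; rw [zpow_add, zpow_mul, h2, one_zpow, zpow_one, one_mul]
    rcases hn with rfl | rfl
    · rcases hp with h | h
      · left; exact h
      · right; right; right; exact h
    · rcases hp with h | h
      · right; left; rw [h, one_mul]
      · right; right; left; rw [h]; exact hx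
  have m0 : ∀ {i j : Fin 3}, x i ∈ Subgroup.closure {x i, x j} :=
    fun {i j} => Subgroup.subset_closure (Or.inl rfl)
  have m1 : ∀ {i j : Fin 3}, x j ∈ Subgroup.closure {x i, x j} :=
    fun {i j} => Subgroup.subset_closure (Or.inr rfl)
  have no2 : x 2 ∉ Subgroup.closure {x 0, x 1} := by
    intro h
    rcases one 1 _ (key _ h m1) with h1 | h1
    · exact hne 2 h1
    · exact n12 h1.symm
  have no0 : x 0 ∉ Subgroup.closure {x 1, x 2} := by
    intro h
    rcases one 1 _ (key _ m0 h) with h1 | h1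
    · exact hne 0 h1
    · exact n01 h1
  have c012 : ∀ g, g ∈ Subgroup.closure {x 0, x 1} → g ∈ Subgroup.closure {x 0, x 2} →
      g ∈ Subgroup.closure {x 0} := by
    intro g h1 h2
    rcases two g h2 with rfl | rfl | rfl | rfl
    · exact one_mem _
    · exact Subgroup.subset_closure rfl
    · exact absurd h1 no2
    · exfalso
      apply no2
      have := mul_mem (inv_mem (m0 (i := 0) (j := 1))) h1
      rwa [inv_mul_cancel_left] at this
  have c021 : ∀ g, g ∈ Subgroup.closure {x 0, x 2} → g ∈ Subgroup.closure {x 1, x 2} →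
      g ∈ Subgroup.closure {x 2} := by
    intro g h2 h1
    rcases two g h2 with rfl | rfl | rfl | rfl
    · exact one_mem _
    · exact absurd h1 no0
    · exact Subgroup.subset_closure rfl
    · exfalso
      apply no0
      have := mul_mem h1 (inv_mem (m1 (i := 1) (j := 2)))
      rwa [mul_inv_cancel_right] at this
  -- images of sets
  have i01 : x '' ({2}ᶜ : Set (Fin 3)) = {x 0, x 1} := by
    have : ({2}ᶜ : Set (Fin 3)) = {0, 1} := by
      ext i; fin_cases i <;> simp
    rw [this, Set.image_pair]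
  have i02 : x '' ({1}ᶜ : Set (Fin 3)) = {x 0, x 2} := by
    have : ({1}ᶜ : Set (Fin 3)) = {0, 2} := by
      ext i; fin_cases i <;> simp
    rw [this, Set.image_pair]
  have i12 : x '' ({0}ᶜ : Set (Fin 3)) = {x 1, x 2} := by
    have : ({0}ᶜ : Set (Fin 3)) = {1, 2} := by
      ext i; fin_cases i <;> simp
    rw [this, Set.image_pair]
  have all : ∀ (I : Set (Fin 3)) (g : G), (∀ i, i ∉ I → g ∈ Subgroup.closure (x '' {i}ᶜ)) →
      g ∈ Subgroup.closure (x '' I) := by
    intro I g h
    have sub1 : ∀ i, i ∈ I → g ∈ Subgroup.closure {x i} → g ∈ Subgroup.closure (x '' I) := by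
      intro i hi hgi
      refine Subgroup.closure_mono ?_ hgi
      intro y hy
      exact ⟨i, hi, hy.symm⟩
    have sub2 : ∀ i j, i ∈ I → j ∈ I → g ∈ Subgroup.closure {x i, x j} →
        g ∈ Subgroup.closure (x '' I) := by
      intro i j hi hj hgi
      refine Subgroup.closure_mono ?_ hgi
      rintro y (hy | hy)
      · exact ⟨i, hi, hy.symm⟩
      · exact ⟨j, hj, hy.symm⟩
    by_cases h0 : (0 : Fin 3) ∈ I
    · by_cases h1 : (1 : Fin 3) ∈ I
      · by_cases h2 : (2 : Fin 3) ∈ I
        · have : I = Set.univ := by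
            ext i; fin_cases i <;> simp [h0, h1, h2]
          rw [this, Set.image_univ, hg]; trivial
        · have h3 := h 2 h2
          rw [i01] at h3
          exact sub2 0 1 h0 h1 h3
      · have h3 := h 1 h1
        rw [i02] at h3
        by_cases h2 : (2 : Fin 3) ∈ I
        · exact sub2 0 2 h0 h2 h3
        · have h4 := h 2 h2
          rw [i01] at h4
          exact sub1 0 h0 (c012 g h4 h3)
    · have h3 := h 0 h0
      rw [i12] at h3
      by_cases h1 : (1 : Fin 3) ∈ I
      · by_cases h2 : (2 : Fin 3) ∈ I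
        · exact sub2 1 2 h1 h2 h3
        · have h4 := h 2 h2
          rw [i01] at h4
          exact sub1 1 h1 (key g h4 h3)
      · have h4 := h 1 h1
        rw [i02] at h4
        by_cases h2 : (2 : Fin 3) ∈ I
        · exact sub1 2 h2 (c021 g h4 h3)
        · have h5 := h 2 h2
          rw [i01] at h5
          rcases one 2 g (c021 g h4 h3) with h6 | h6
          · rw [h6]; exact one_mem _
          · exfalso
            rw [h6] at h5
            exact no2 h5
  refine ⟨hg, ?_, h02, ?_⟩
  · intro i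
    exact orderOf_eq_prime (by rw [pow_two]; exact hs i) (hne i)
  · intro I J
    apply le_antisymm
    · intro g hgm
      obtain ⟨hgI, hgJ⟩ := Subgroup.mem_inf.1 hgm
      apply all
      intro i hi
      by_cases h1 : i ∈ I
      · have h2 : i ∉ J := fun h => hi ⟨h1, h⟩
        refine Subgroup.closure_mono (Set.image_mono ?_) hgJ
        intro k hk hki
        have : k = i := hki
        exact h2 (this ▸ hk)
      · refine Subgroup.closure_mono (Set.image_mono ?_) hgI
        intro k hk hki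
        have : k = i := hki
        exact h1 (this ▸ hk)
    · exact le_inf (Subgroup.closure_mono (Set.image_mono Set.inter_subset_left))
        (Subgroup.closure_mono (Set.image_mono Set.inter_subset_right))

/-- Elements of the vertex stabiliser come from words fixing the root. -/
theorem vertex_word (T : Data) {g : Gam T} (hg : g ∈ Subgroup.closure {gen T 1, gen T 2}) :
    ∃ w : FreeGroup (Fin 3), PresentedGroup.mk (rels T) w = g ∧
      FreeGroup.lift (xx T.q) w • (root : VV T.q) = root := by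
  induction hg using Subgroup.closure_induction with
  | mem y hy =>
    rcases hy with rfl | hy
    · exact ⟨FreeGroup.of 1, rfl, by rw [ev_of]; exact xroot1 _⟩
    · have hy' : y = gen T 2 := hy
      rw [hy']
      exact ⟨FreeGroup.of 2, rfl, by rw [ev_of]; exact xroot2 _⟩
  | one => exact ⟨1, map_one _, by rw [map_one, one_smul]⟩
  | mul y z _ _ ihy ihz =>
    obtain ⟨w, h1, h2⟩ := ihy
    obtain ⟨w', h1', h2'⟩ := ihz
    exact ⟨w * w', by rw [map_mul, h1, h1'], by rw [map_mul, mul_smul, h2', h2]⟩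
  | inv y _ ih =>
    obtain ⟨w, h1, h2⟩ := ih
    refine ⟨w⁻¹, by rw [map_inv, h1], ?_⟩
    rw [map_inv, inv_smul_eq_iff]
    exact h2.symm

variable {T : Data}

theorem polyhedron (hD : Adm T.q (eff T)) (hq : 4 ≤ T.q) (hno : NotOdd T) :
    IsRegularPolyhedron (gen T) := by
  have hs := gen_sq T
  have hne := gen_ne hD hq hno
  have hp : orderOf (gen T 0 * gen T 1) = T.p := gen_01_order hD hq hno
  have hqo : orderOf (gen T 1 * gen T 2) = T.q := gen_12_order hD hq hno
  have h1 : eff T 1 false = some T.p := by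
    rw [eff_false le_rfl (by omega)]; rfl
  have hL := (hD.rng 1 false T.p h1).2.2
  refine poly_of (gen_closure T) hs (gen_02 T) hne.1 ?_ ?_ ?_
  · intro h
    rw [h, hs, orderOf_one] at hp
    omega
  · intro h
    rw [h, hs, orderOf_one] at hqo
    omega
  · intro g hg0 hg1
    have hform : ∃ n : ℤ, g = (gen T 0 * gen T 1) ^ n ∨ g = (gen T 0 * gen T 1) ^ n * gen T 1 := by
      obtain ⟨n, hn | hn⟩ := dihedral_mem (hs 0) (hs 1) g hg0
      · exact ⟨n, Or.inl hn⟩
      · refine ⟨n + 1, Or.inr ?_⟩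
        rw [hn, zpow_add, zpow_one, mul_assoc, mul_assoc, hs, mul_one]
    obtain ⟨w, hw1, hw2⟩ := vertex_word T hg1
    have htau : tau T.q 1 false = xx T.q 0 * xx T.q 1 := by
      change hole (xx T.q) 1 = _
      simp [hole]
    have hz : ∀ n : ℤ, (T.p : ℤ) ∣ n → (gen T 0 * gen T 1) ^ n = 1 := by
      rintro n ⟨k, rfl⟩
      rw [zpow_mul, zpow_natCast, gen_01, one_zpow]
    have hinv : (FreeGroup.lift (xx T.q) w)⁻¹ • (root : VV T.q) = root := by
      rw [inv_smul_eq_iff]; exact hw2.symm
    obtain ⟨n, hn | hn⟩ := hform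
    · have h2 : PresentedGroup.mk (rels T) ((FreeGroup.of 0 * FreeGroup.of 1) ^ n * w⁻¹) = 1 := by
        rw [map_mul, map_zpow, map_mul, map_inv, hw1, hn]
        exact mul_inv_cancel _
      have h3 := transfer hD hq hno h2
      rw [map_mul, map_zpow, map_mul, map_inv, ev_of, ev_of, ← htau] at h3
      have h4 := (hD.exact h1 (k := n) hinv h3).1
      rw [hn, hz n h4]; exact one_mem _
    · have h2 : PresentedGroup.mk (rels T)
          ((FreeGroup.of 0 * FreeGroup.of 1) ^ n * (FreeGroup.of 1 * w⁻¹)) = 1 := by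
        rw [map_mul, map_zpow, map_mul, map_mul, map_inv, hw1, hn, ← mul_assoc]
        exact mul_inv_cancel _
      have h3 := transfer hD hq hno h2
      rw [map_mul, map_zpow, map_mul, map_mul, map_inv, ev_of, ev_of, ← htau] at h3
      have h4 := (hD.exact h1 (k := n) (δ := xx T.q 1 * (FreeGroup.lift (xx T.q) w)⁻¹)
        (by rw [mul_smul, hinv, xroot1]) h3).1
      rw [hn, hz n h4, one_mul]; exact Subgroup.subset_closure rfl

/-- The two lengths at `q / 2` of a polyhedron. -/
theorem mid_orders {G : Type*} [Group G] {a b : G} (hab : Commute a b) (hb : b * b = 1)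
    (hb1 : b ≠ 1) {m n : ℕ} (hm : orderOf a = m) (hn : orderOf (a * b) = n) :
    (Even m ∧ m = n) ∨ (Odd m ∧ n = 2 * m) ∨ (Odd n ∧ m = 2 * n) := by
  have h1 : (a * b) ^ 2 = a ^ 2 := even_pow_mid hab hb even_two
  have h2 := orderOf_pow' (n := 2) a (by norm_num)
  have h3 := orderOf_pow' (n := 2) (a * b) (by norm_num)
  rw [h1, h2, hm, hn] at h3
  rcases Nat.even_or_odd m with he | he <;> rcases Nat.even_or_odd n with hf | hf
  · left
    have g1 : Nat.gcd m 2 = 2 := Nat.gcd_eq_right (even_iff_two_dvd.1 he)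
    have g2 : Nat.gcd n 2 = 2 := Nat.gcd_eq_right (even_iff_two_dvd.1 hf)
    rw [g1, g2] at h3
    refine ⟨he, ?_⟩
    obtain ⟨k, rfl⟩ := even_iff_two_dvd.1 he
    obtain ⟨l, rfl⟩ := even_iff_two_dvd.1 hf
    omega
  · right; right
    have g1 : Nat.gcd m 2 = 2 := Nat.gcd_eq_right (even_iff_two_dvd.1 he)
    have g2 : Nat.gcd n 2 = 1 := Nat.coprime_two_right.2 hf
    rw [g1, g2, Nat.div_one] at h3
    refine ⟨hf, ?_⟩
    obtain ⟨k, rfl⟩ := even_iff_two_dvd.1 he
    omega
  · right; left
    have g1 : Nat.gcd m 2 = 1 := Nat.coprime_two_right.2 he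
    have g2 : Nat.gcd n 2 = 2 := Nat.gcd_eq_right (even_iff_two_dvd.1 hf)
    rw [g1, g2, Nat.div_one] at h3
    refine ⟨he, ?_⟩
    obtain ⟨k, rfl⟩ := even_iff_two_dvd.1 hf
    omega
  · exfalso
    have g1 : Nat.gcd m 2 = 1 := Nat.coprime_two_right.2 he
    have g2 : Nat.gcd n 2 = 1 := Nat.coprime_two_right.2 hf
    rw [g1, g2, Nat.div_one, Nat.div_one] at h3
    have e1 : a ^ m = 1 := by rw [← hm]; exact pow_orderOf_eq_one a
    have e2 : (a * b) ^ m = 1 := by rw [h3, ← hn]; exact pow_orderOf_eq_one _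
    rw [odd_pow_mid hab hb (by rw [Nat.not_even_iff_odd]; exact he), e1, one_mul] at e2
    exact hb1 e2

theorem midOK_of_true (hq : 4 ≤ T.q) (hT : TrueOrders T (gen T)) : MidOK T := by
  obtain ⟨t1, _, _, _, t5, t6⟩ := hT
  intro j m n hjq hm hn
  obtain ⟨hc, hz⟩ := gen_mid T (j := j) (by omega) hjq
  have e1 := t5 j m (by omega) (by omega) hm
  have e2 := t6 j n (by omega) (by omega) hn
  rw [hz] at e2
  exact mid_orders hc (gen_sq T 2) (t1 2) e1 e2

/-- The classification for long prescribed lengths. -/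
theorem main (T : Data) (hq : 4 ≤ T.q) (hT : Long T) :
    (Finite (Gam T) ↔
      ∃ j m n, 2 * j = T.q ∧ T.h j = some m ∧ T.r j = some n ∧ Odd m ∧ Odd n) ∧
    ((IsRegularPolyhedron (gen T) ∧ TrueOrders T (gen T)) ↔ MidOK T) ∧
    (MidOK T → Infinite (Gam T) ∧ ∀ j, 1 ≤ j → 2 * j ≤ T.q →
      (holeLen T j = none → (2 * j = T.q → T.r j = none) → orderOf (hole (gen T) j) = 0) ∧
      (T.r j = none → (2 * j = T.q → T.h j = none) → orderOf (zigzag (gen T) j) = 0)) := by
  have hD := eff_adm hq hT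
  have hp : 1 ≤ T.p := by
    have := (hT.hole 1 T.p le_rfl (by omega) rfl).1
    omega
  refine ⟨⟨?_, ?_⟩, ⟨fun h => midOK_of_true hq h.2, ?_⟩, ?_⟩
  · intro hF
    by_contra h
    have := infinite hD hq (fun j m n h1 h2 h3 h4 => h ⟨j, m, n, h1, h2, h3, h4.1, h4.2⟩)
    exact not_finite (Gam T)
  · rintro ⟨j, m, n, h1, h2, h3, h4, h5⟩
    exact finite_of_odd hp (by omega) h1 h2 h3 h4 h5
  · intro h
    exact ⟨polyhedron hD hq (notOdd_of_midOK h), true_orders hD hq h⟩
  · intro h
    have hno := notOdd_of_midOK h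
    refine ⟨infinite hD hq hno, fun j hj hjq => ⟨fun h1 h2 => ?_, fun h1 h2 => ?_⟩⟩
    · have hj2 : 2 ≤ j := by
        by_contra hlt
        have h1' : j = 1 := by omega
        rw [h1'] at h1
        exact absurd h1 (by simp [holeLen])
      have h3 : T.h j = none := by
        unfold holeLen at h1
        rwa [if_neg (by omega)] at h1
      exact free_hole hD hq hno hj2 hjq h3 h2
    · exact free_zigzag hD hq hno hj hjq h1 h2

end Pool.Agent.WM
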