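import Mathlib

/-! Trees as metric spaces with integer distances: medians, gates, neighbourhoods, midpoints. -/

namespace Pool.Agent.WM

/-- `d` is the distance function of a (simplicial) tree on its set of vertices. -/
structure IsTree {T : Type*} (d : T → T → ℕ) : Prop where
  zero : ∀ x y, d x y = 0 ↔ x = y
  symm : ∀ x y, d x y = d y x
  tri : ∀ x y z, d x z ≤ d x y + d y z
  four : ∀ x y z w, d x y + d z w ≤ d x z + d y w ∨ d x y + d z w ≤ d x w + d y z
  geo : ∀ x y n, n ≤ d x y → ∃ z, d x z = n ∧ n + d z y = d x y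
  par : ∀ x y z, Even (d x y + d y z + d x z)

/-- A set of vertices is convex if it contains all geodesics between its points. -/
def Conv {T : Type*} (d : T → T → ℕ) (C : Set T) : Prop :=
  ∀ x ∈ C, ∀ y ∈ C, ∀ z, d x z + d z y = d x y → z ∈ C

variable {T : Type*} {d : T → T → ℕ}

namespace IsTree

variable (h : IsTree d)
include h

theorem self (x : T) : d x x = 0 := (h.zero x x).2 rfl

theorem eq_of {x y : T} (hxy : d x y = 0) : x = y := (h.zero x y).1 hxy

theorem med (x y z : T) : ∃ m, d x m + d m y = d x y ∧ d y m + d m z = d y z ∧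
    d x m + d m z = d x z := by
  obtain ⟨a, ha⟩ := h.par x y z
  have t1 := h.tri x y z
  have t2 := h.tri y x z
  have t3 := h.tri x z y
  have s1 := h.symm x y
  have s2 := h.symm x z
  have s3 := h.symm y z
  obtain ⟨m, hm1, hm2⟩ := h.geo x y (a - d y z) (by omega)
  have f := h.four x y m z
  have t4 := h.tri x m z
  have t5 := h.tri y m z
  have s4 := h.symm y m
  refine ⟨m, ?_, ?_, ?_⟩ <;> omega

/-- Points of a geodesic are determined by the distance to an endpoint. -/
theorem uniq {x y z w : T} (hz : d x z + d z y = d x y) (hw : d x w + d w y = d x y)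
    (he : d x z = d x w) : z = w := by
  apply h.eq_of
  have f := h.four x y z w
  have s1 := h.symm y w
  have s2 := h.symm y z
  omega

/-- Two geodesics with a common nontrivial piece can be glued. -/
theorem glue {x y z w : T} (h1 : d x y + d y z = d x z) (h2 : d y z + d z w = d y w)
    (hne : 0 < d y z) : d x y + d y z + d z w = d x w := by
  have f := h.four x z y w
  have t1 := h.tri x y w
  have s1 := h.symm z y
  omega

theorem split {x y z p : T} (hp : d x p + d p z = d x z) :
    d x p + d p y = d x y ∨ d y p + d p z = d y z := by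
  have f := h.four x z p y
  have t1 := h.tri x p y
  have t2 := h.tri y p z
  have s1 := h.symm z y
  have s2 := h.symm y p
  have s3 := h.symm p z
  omega

theorem between {x y z w : T} (hz : d x z + d z y = d x y) (hw : d x w + d w z = d x z) :
    d x w + d w y = d x y := by
  have t1 := h.tri x w y
  have t2 := h.tri w z y
  omega

/-- The gate of a point in a nonempty convex set. -/
theorem gate {C : Set T} (hC : Conv d C) (hne : C.Nonempty) (y : T) :
    ∃ s ∈ C, ∀ c ∈ C, d y c = d y s + d s c := by
  classical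
  have hex : ∃ n, ∃ s ∈ C, d y s = n := by
    obtain ⟨s, hs⟩ := hne
    exact ⟨d y s, s, hs, rfl⟩
  obtain ⟨s, hs, hn⟩ := Nat.find_spec hex
  refine ⟨s, hs, ?_⟩
  intro c hc
  obtain ⟨m, h1, h2, h3⟩ := h.med y s c
  have hm : m ∈ C := hC s hs c hc m h2
  have hmin : Nat.find hex ≤ d y m := Nat.find_le ⟨m, hm, rfl⟩
  have h0 : d m s = 0 := by omega
  have : m = s := h.eq_of h0
  subst this
  omega

end IsTree

/-- `s` is the gate of `y` in `C`. -/
def Gate (d : T → T → ℕ) (C : Set T) (y s : T) : Prop := s ∈ C ∧ ∀ c ∈ C, d y c = d y s + d s c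

/-- The closed neighbourhood of radius `e` of the set `W`. -/
def Nb (d : T → T → ℕ) (e : ℕ) (W : Set T) : Set T := {x | ∃ w ∈ W, d x w ≤ e}

namespace IsTree

variable (h : IsTree d)
include h

theorem gate' {C : Set T} (hC : Conv d C) (hne : C.Nonempty) (y : T) : ∃ s, Gate d C y s := by
  obtain ⟨s, hs, hs'⟩ := h.gate hC hne y
  exact ⟨s, hs, hs'⟩

theorem gate_uniq {C : Set T} {y s s' : T} (h1 : Gate d C y s) (h2 : Gate d C y s') : s = s' := by
  apply h.eq_of
  have a := h1.2 s' h2.1
  have b := h2.2 s h1.1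
  have := h.symm s s'
  omega

theorem gate_self {C : Set T} {y s : T} (h1 : Gate d C y s) (hy : y ∈ C) : s = y := by
  have a := h1.2 y hy
  have b := h.self y
  exact (h.eq_of (by omega)).symm

theorem self_gate {C : Set T} {y : T} (hy : y ∈ C) : Gate d C y y :=
  ⟨hy, fun c _ => by rw [h.self y]; omega⟩

/-- If two points have different gates, the geodesic between them passes through the gates. -/
theorem two_gates {C : Set T} {x y s t : T} (h1 : Gate d C x s) (h2 : Gate d C y t)
    (hne : s ≠ t) : d x y = d x s + d s t + d t y := by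
  have a := h1.2 t h2.1
  have b := h2.2 s h1.1
  have hp : 0 < d s t := by
    rcases Nat.eq_zero_or_pos (d s t) with h0 | h0
    · exact absurd (h.eq_of h0) hne
    · exact h0
  have s1 := h.symm y t
  have s2 := h.symm y s
  have s3 := h.symm s t
  exact (h.glue (x := x) (y := s) (z := t) (w := y) (by omega) (by omega) hp).symm

theorem nb_sub {W : Set T} {e : ℕ} {x : T} (hx : x ∈ W) : x ∈ Nb d e W :=
  ⟨x, hx, by rw [h.self x]; omega⟩

theorem nb_conv {W : Set T} (hW : Conv d W) (e : ℕ) : Conv d (Nb d e W) := by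
  rintro x ⟨a, ha, hxa⟩ y ⟨b, hb, hyb⟩ z hz
  obtain ⟨s, hs, hs'⟩ := h.gate hW ⟨a, ha⟩ z
  refine ⟨s, hs, ?_⟩
  have za := hs' a ha
  have zb := hs' b hb
  by_contra hlt
  push Not at hlt
  have f := h.four x y z s
  have ta := h.tri x a s
  have tb := h.tri y b s
  have s1 := h.symm z a
  have s2 := h.symm z b
  have s3 := h.symm a s
  have s4 := h.symm b s
  have s5 := h.symm y z
  have s6 := h.symm z x
  have g1 := h.four x s z a
  have g2 := h.four y s z b
  have s7 := h.symm s z
  have s8 := h.symm a z
  have s9 := h.symm b z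
  have c1 := h.tri z x a
  have c2 := h.tri z y b
  have s10 := h.symm x z
  omega

/-- A bounded set invariant under an isometry contains a point moved by at most 1. -/
theorem midpoint {C : Set T} (hC : Conv d C) (hne : C.Nonempty) {D : ℕ}
    (hD : ∀ x ∈ C, ∀ y ∈ C, d x y ≤ D) {f : T → T} (hf : ∀ x y, d (f x) (f y) = d x y)
    (hs : ∀ y ∈ C, ∃ x ∈ C, f x = y) : ∃ x ∈ C, d x (f x) ≤ 1 := by
  classical
  have hex : ∃ n, ∀ x ∈ C, ∀ y ∈ C, d x y ≤ n := ⟨D, hD⟩
  have hmax := Nat.find_spec hex
  have hatt : ∃ x ∈ C, ∃ y ∈ C, Nat.find hex ≤ d x y := by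
    by_contra hcon
    push Not at hcon
    obtain ⟨c, hc⟩ := hne
    have h0 : 0 < Nat.find hex := lt_of_le_of_lt (Nat.zero_le _) (hcon c hc c hc)
    have := Nat.find_min hex (m := Nat.find hex - 1) (by omega)
    apply this
    intro x hx y hy
    have := hcon x hx y hy
    omega
  obtain ⟨x, hx, y, hy, hxy⟩ := hatt
  have hle := hmax x hx y hy
  obtain ⟨m, hm1, hm2⟩ := h.geo x y (Nat.find hex / 2) (by omega)
  have hmC : m ∈ C := hC x hx y hy m (by omega)
  have key : ∀ z ∈ C, d z m ≤ (Nat.find hex + 1) / 2 := by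
    intro z hz
    have f1 := h.four z m x y
    have a1 := hmax z hz x hx
    have a2 := hmax z hz y hy
    have s1 := h.symm m x
    have s2 := h.symm m y
    omega
  have key2 : ∀ z ∈ C, d z (f m) ≤ (Nat.find hex + 1) / 2 := by
    intro z hz
    obtain ⟨w, hw, rfl⟩ := hs z hz
    rw [hf]
    exact key w hw
  refine ⟨m, hmC, ?_⟩
  have f1 := h.four x y m (f m)
  have b1 := key2 x hx
  have b2 := key2 y hy
  have s2 := h.symm m y
  omega

end IsTree

end Pool.Agent.WM
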