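import Pool.Agent.Lib_helper98.WM.Tree

/-! The tree of reduced words over an alphabet (all letters are involutions). -/

namespace Pool.Agent.WM

variable {α : Type*} [DecidableEq α]

/-- The length of the common prefix. -/
def cp : List α → List α → ℕ
  | [], _ => 0
  | _ :: _, [] => 0
  | a :: u, b :: w => if a = b then cp u w + 1 else 0

@[simp] theorem cp_nil_left (w : List α) : cp [] w = 0 := by simp [cp]
@[simp] theorem cp_nil_right (u : List α) : cp u [] = 0 := by cases u <;> simp [cp]

theorem cp_cons (a b : α) (u w : List α) :
    cp (a :: u) (b :: w) = if a = b then cp u w + 1 else 0 := rfl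

theorem cp_symm (u w : List α) : cp u w = cp w u := by
  induction u generalizing w with
  | nil => simp
  | cons a u ih =>
    cases w with
    | nil => simp
    | cons b w =>
      rw [cp_cons, cp_cons]
      by_cases h : a = b
      · rw [if_pos h, if_pos h.symm, ih]
      · rw [if_neg h, if_neg (fun h' => h h'.symm)]

theorem cp_le (u w : List α) : cp u w ≤ u.length := by
  induction u generalizing w with
  | nil => simp
  | cons a u ih =>
    cases w with
    | nil => simp
    | cons b w =>
      rw [cp_cons]
      have := ih w
      by_cases h : a = b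
      · rw [if_pos h, List.length_cons]; omega
      · rw [if_neg h]; omega

theorem cp_ult (u w z : List α) : cp u w ≤ cp u z ∨ cp w z ≤ cp u z := by
  induction u generalizing w z with
  | nil => left; simp
  | cons a u ih =>
    cases w with
    | nil => left; simp
    | cons b w =>
      cases z with
      | nil => right; simp
      | cons c z =>
        rw [cp_cons, cp_cons, cp_cons]
        by_cases h1 : a = b
        · by_cases h2 : b = c
          · have h3 : a = c := h1.trans h2
            rw [if_pos h1, if_pos h2, if_pos h3]
            rcases ih w z with h | h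
            · left; omega
            · right; omega
          · right; rw [if_neg h2]; omega
        · left; rw [if_neg h1]; omega

theorem cp_take (u w : List α) (k : ℕ) : cp (u.take k) w = min k (cp u w) := by
  induction u generalizing w k with
  | nil => simp
  | cons a u ih =>
    cases w with
    | nil => simp
    | cons b w =>
      cases k with
      | zero => simp
      | succ k =>
        rw [List.take_succ_cons, cp_cons, cp_cons, ih]
        by_cases h : a = b
        · rw [if_pos h, if_pos h]; omega
        · rw [if_neg h, if_neg h]; omega

theorem cp_self (u : List α) : cp u u = u.length := by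
  induction u with
  | nil => simp
  | cons a u ih => rw [cp_cons, if_pos rfl, ih, List.length_cons]

theorem take_of_cp (u w : List α) : w.take (cp u w) = u.take (cp u w) := by
  induction u generalizing w with
  | nil => simp
  | cons a u ih =>
    cases w with
    | nil => simp
    | cons b w =>
      rw [cp_cons]
      by_cases h : a = b
      · rw [if_pos h, List.take_succ_cons, List.take_succ_cons, ih, h]
      · rw [if_neg h]; simp

theorem cp_append (u w : List α) : cp u (u ++ w) = u.length := by
  induction u with
  | nil => simp
  | cons a u ih => rw [List.cons_append, cp_cons, if_pos rfl, ih, List.length_cons]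

/-- The distance of two words (written from the root) in the tree of all words. -/
def wd (u w : List α) : ℕ := u.length + w.length - 2 * cp u w

theorem wd_geo (u w : List α) (n : ℕ) (hn : n ≤ wd u w) :
    ∃ z, (∃ k, z = u.take k ∨ z = w.take k) ∧ wd u z = n ∧ n + wd z w = wd u w := by
  have h1 := cp_le u w
  have h2 := cp_le w u
  have h3 := cp_symm w u
  unfold wd at hn
  by_cases h : n ≤ u.length - cp u w
  · refine ⟨u.take (u.length - n), ⟨_, Or.inl rfl⟩, ?_, ?_⟩
    · unfold wd
      rw [cp_symm, cp_take, cp_self, List.length_take]; omega
    · unfold wd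
      rw [cp_take, List.length_take]; omega
  · refine ⟨w.take (2 * cp u w + n - u.length), ⟨_, Or.inr rfl⟩, ?_, ?_⟩
    · unfold wd
      rw [cp_symm u (List.take _ _), cp_take, List.length_take]; omega
    · unfold wd
      rw [cp_take, cp_self, List.length_take]; omega

theorem wd_tree : IsTree (wd (α := α)) where
  zero u w := by
    unfold wd
    constructor
    · intro h
      have h1 := cp_le u w
      have h2 := cp_le w u
      rw [cp_symm w u] at h2
      have h3 := take_of_cp u w
      have h4 : cp u w = u.length := by omega
      have h5 : cp u w = w.length := by omega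
      rw [h5, List.take_length] at h3
      rw [← h5, h4, List.take_length] at h3
      exact h3.symm
    · rintro rfl
      rw [cp_self]; omega
  symm u w := by unfold wd; rw [cp_symm]; omega
  tri u w z := by
    unfold wd
    have h1 := cp_le u w
    have h2 := cp_le w z
    have h3 := cp_le w u
    have h4 := cp_le z w
    have h5 := cp_le u z
    have h6 := cp_le z u
    rw [cp_symm w u] at h3
    rw [cp_symm z w] at h4
    rw [cp_symm z u] at h6
    have h7 := cp_ult u w z
    omega
  four x y z w := by
    unfold wd
    have a1 := cp_ult x z y
    have a2 := cp_ult x w y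
    have a3 := cp_ult z x w
    have a4 := cp_ult z y w
    have s1 := cp_symm x y
    have s2 := cp_symm x z
    have s3 := cp_symm x w
    have s4 := cp_symm y z
    have s5 := cp_symm y w
    have s6 := cp_symm z w
    have l1 := cp_le x y
    have l2 := cp_le y x
    have l3 := cp_le z w
    have l4 := cp_le w z
    have l5 := cp_le x z
    have l6 := cp_le z x
    have l7 := cp_le y w
    have l8 := cp_le w y
    have l9 := cp_le x w
    have l10 := cp_le w x
    have l11 := cp_le y z
    have l12 := cp_le z y
    rw [← s2] at a3 l6
    rw [← s4] at a1 l12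
    rw [← s5] at a2 l8
    rw [← s1] at l2
    rw [← s6] at l4
    rw [← s3] at l10
    rw [← s4] at a4
    clear s1 s2 s3 s4 s5 s6
    generalize cp x y = A at *
    generalize cp z w = B at *
    generalize cp x z = C at *
    generalize cp y w = D at *
    generalize cp x w = E at *
    generalize cp y z = H at *
    have key : C + D ≤ A + B ∨ E + H ≤ A + B := by
      clear l1 l2 l3 l4 l5 l6 l7 l8 l9 l10 l11 l12
      omega
    clear a1 a2 a3 a4
    omega
  geo u w n hn := by
    obtain ⟨z, _, hz⟩ := wd_geo u w n hn
    exact ⟨z, hz⟩
  par x y z := by
    unfold wd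
    have l1 := cp_le x y
    have l2 := cp_le y x
    have l5 := cp_le x z
    have l6 := cp_le z x
    have l11 := cp_le y z
    have l12 := cp_le z y
    have s1 := cp_symm x y
    have s2 := cp_symm x z
    have s4 := cp_symm y z
    rw [Nat.even_iff]
    omega

theorem wd_one {u w : List α} (h : wd u w = 1) : ∃ i, w = u ++ [i] ∨ u = w ++ [i] := by
  unfold wd at h
  have h1 := cp_le u w
  have h2 := cp_le w u
  rw [cp_symm w u] at h2
  have h3 := take_of_cp u w
  by_cases h4 : cp u w = u.length
  · have h5 : w.length = u.length + 1 := by omega
    rw [h4, List.take_length] at h3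
    have h6 := List.take_append_drop u.length w
    rw [h3] at h6
    have h7 : (w.drop u.length).length = 1 := by rw [List.length_drop]; omega
    obtain ⟨i, hi⟩ := List.length_eq_one_iff.1 h7
    rw [hi] at h6
    exact ⟨i, Or.inl h6.symm⟩
  · have h4 : cp u w = w.length := by omega
    have h5 : u.length = w.length + 1 := by omega
    rw [h4, List.take_length] at h3
    have h6 := List.take_append_drop w.length u
    rw [← h3] at h6
    have h7 : (u.drop w.length).length = 1 := by rw [List.length_drop]; omega
    obtain ⟨i, hi⟩ := List.length_eq_one_iff.1 h7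
    rw [hi] at h6
    exact ⟨i, Or.inr h6.symm⟩

/-- Reduced words: adjacent letters are different. The head of the list is the last letter. -/
abbrev Red (α : Type*) : Type _ := {l : List α // l.IsChain (· ≠ ·)}

/-- The distance of two vertices. -/
def rd (u w : Red α) : ℕ := wd u.1.reverse w.1.reverse

/-- Multiplication by a letter on the right. -/
def togL (i : α) : List α → List α
  | [] => [i]
  | a :: t => if a = i then t else i :: a :: t

theorem togL_cons (i a : α) (t : List α) : togL i (a :: t) = if a = i then t else i :: a :: t :=
  rfl

theorem togL_chain (i : α) (l : List α) (h : l.IsChain (· ≠ ·)) :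
    (togL i l).IsChain (· ≠ ·) := by
  cases l with
  | nil => simp [togL]
  | cons a t =>
    rw [togL_cons]
    by_cases hi : a = i
    · rw [if_pos hi]; exact h.tail
    · rw [if_neg hi]
      exact List.isChain_cons_cons.2 ⟨fun h' => hi h'.symm, h⟩

/-- The neighbour of `u` along the edge with label `i`. -/
def tog (i : α) (u : Red α) : Red α := ⟨togL i u.1, togL_chain i u.1 u.2⟩

/-- The root. -/
def root : Red α := ⟨[], List.isChain_nil⟩

theorem tog_tog (i : α) (u : Red α) : tog i (tog i u) = u := by
  obtain ⟨l, hl⟩ := u
  apply Subtype.ext
  change togL i (togL i l) = l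
  cases l with
  | nil => simp [togL]
  | cons a t =>
    by_cases hi : a = i
    · have e1 : togL i (a :: t) = t := by simp [togL, hi]
      rw [e1]
      cases t with
      | nil => simp [togL, hi]
      | cons b t =>
        have hab : a ≠ b := (List.isChain_cons_cons.1 hl).1
        have hb : ¬ b = i := fun h => hab (hi.trans h.symm)
        simp [togL, hb, hi]
    · have e1 : togL i (a :: t) = i :: a :: t := by simp [togL, hi]
      rw [e1]
      simp [togL]

theorem tog_inj_label {i j : α} {u : Red α} (h : tog i u = tog j u) : i = j := by
  obtain ⟨l, hl⟩ := u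
  have h1 : togL i l = togL j l := congrArg Subtype.val h
  cases l with
  | nil => simpa [togL] using h1
  | cons a t =>
    rw [togL_cons, togL_cons] at h1
    by_cases hi : a = i
    · by_cases hj : a = j
      · exact hi.symm.trans hj
      · rw [if_pos hi, if_neg hj] at h1
        have := congrArg List.length h1
        simp at this
        omega
    · by_cases hj : a = j
      · rw [if_neg hi, if_pos hj] at h1
        have := congrArg List.length h1
        simp at this
        omega
      · rw [if_neg hi, if_neg hj] at h1
        simp at h1
        exact h1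

theorem rd_adj {u w : Red α} (h : rd u w = 1) : ∃ i, w = tog i u := by
  obtain ⟨i, h1 | h1⟩ := wd_one h
  · refine ⟨i, ?_⟩
    have h2 : w.1 = i :: u.1 := by
      have := congrArg List.reverse h1
      simpa using this
    apply Subtype.ext
    obtain ⟨l, hl⟩ := u
    obtain ⟨m, hm⟩ := w
    simp only at h2
    subst h2
    change i :: l = togL i l
    cases l with
    | nil => simp [togL]
    | cons a t =>
      have : i ≠ a := (List.isChain_cons_cons.1 hm).1
      simp [togL, Ne.symm this]
  · refine ⟨i, ?_⟩
    have h2 : u.1 = i :: w.1 := by
      have := congrArg List.reverse h1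
      simpa using this
    apply Subtype.ext
    obtain ⟨l, hl⟩ := u
    obtain ⟨m, hm⟩ := w
    simp only at h2
    subst h2
    change m = togL i (i :: m)
    simp [togL]

theorem rd_tog (i : α) (u : Red α) : rd u (tog i u) = 1 := by
  obtain ⟨l, hl⟩ := u
  have key : ∀ (i : α) (l : List α), wd l.reverse (i :: l).reverse = 1 := by
    intro i l
    unfold wd
    rw [List.reverse_cons, cp_append, List.length_append]
    simp
    omega
  unfold rd tog
  simp only
  cases l with
  | nil => exact key i []
  | cons a t =>
    by_cases hi : a = i
    · have e1 : togL i (a :: t) = t := by simp [togL, hi]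
      rw [e1, wd_tree.symm]
      exact key a t
    · have e1 : togL i (a :: t) = i :: a :: t := by simp [togL, hi]
      rw [e1]
      exact key i (a :: t)

theorem rd_tree : IsTree (rd (α := α)) where
  zero u w := by
    unfold rd
    rw [wd_tree.zero, List.reverse_inj]
    exact Subtype.ext_iff.symm
  symm u w := wd_tree.symm _ _
  tri u w z := wd_tree.tri _ _ _
  four x y z w := wd_tree.four _ _ _ _
  geo u w n hn := by
    have hcu : u.1.reverse.IsChain (· ≠ ·) := by
      rw [List.isChain_reverse]
      exact u.2.imp (fun _ _ h => h.symm)
    have hcw : w.1.reverse.IsChain (· ≠ ·) := by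
      rw [List.isChain_reverse]
      exact w.2.imp (fun _ _ h => h.symm)
    have mk : ∀ (l : List α) (k : ℕ), l.IsChain (· ≠ ·) → ∃ z : Red α, z.1.reverse = l.take k := by
      intro l k hl
      refine ⟨⟨(l.take k).reverse, ?_⟩, by simp⟩
      rw [List.isChain_reverse]
      exact (hl.take k).imp (fun _ _ h => h.symm)
    obtain ⟨z, ⟨k, hk⟩, hz⟩ := wd_geo u.1.reverse w.1.reverse n hn
    rcases hk with rfl | rfl
    · obtain ⟨z', hz'⟩ := mk _ k hcu
      rw [← hz'] at hz
      exact ⟨z', hz⟩
    · obtain ⟨z', hz'⟩ := mk _ k hcw
      rw [← hz'] at hz
      exact ⟨z', hz⟩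
  par x y z := wd_tree.par _ _ _

theorem rd_tog_tog {i j : α} (hij : i ≠ j) (u : Red α) : rd u (tog j (tog i u)) = 2 := by
  have h1 := rd_tog i u
  have h2 := rd_tog j (tog i u)
  have h3 := rd_tree.tri u (tog i u) (tog j (tog i u))
  have h4 := rd_tree.par u (tog i u) (tog j (tog i u))
  rw [Nat.even_iff] at h4
  by_contra hne
  have h5 : rd u (tog j (tog i u)) = 0 := by omega
  have h6 := rd_tree.eq_of h5
  apply hij
  apply tog_inj_label (u := u)
  have h7 : tog j u = tog j (tog j (tog i u)) := by rw [← h6]
  rw [h7, tog_tog]

/-- Induction over the tree, starting from the root. -/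
theorem red_induction {P : Red α → Prop} (h0 : P root) (h : ∀ i u, P u → P (tog i u)) (u : Red α) :
    P u := by
  obtain ⟨l, hl⟩ := u
  induction l with
  | nil => exact h0
  | cons a t ih =>
    have ht : t.IsChain (· ≠ ·) := hl.tail
    have h1 := h a ⟨t, ht⟩ (ih ht)
    have h2 : tog a ⟨t, ht⟩ = (⟨a :: t, hl⟩ : Red α) := by
      apply Subtype.ext
      change togL a t = a :: t
      cases t with
      | nil => simp [togL]
      | cons b t =>
        have : a ≠ b := (List.isChain_cons_cons.1 hl).1
        simp [togL, Ne.symm this]
    rw [h2] at h1
    exact h1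

/-- Maps that permute the labels are 1-Lipschitz. -/
theorem tw_lip {φ : Red α → Red α} {σ : α → α} (hφ : ∀ i u, φ (tog i u) = tog (σ i) (φ u))
    (u w : Red α) : rd (φ u) (φ w) ≤ rd u w := by
  obtain ⟨n, hn⟩ : ∃ n, rd u w = n := ⟨_, rfl⟩
  rw [hn]
  induction n generalizing u with
  | zero =>
    have := rd_tree.eq_of hn
    subst this
    rw [rd_tree.self]
  | succ n ih =>
    obtain ⟨z, hz1, hz2⟩ := rd_tree.geo u w 1 (by omega)
    obtain ⟨i, rfl⟩ := rd_adj hz1
    have h1 := ih (tog i u) (by omega)
    have h2 := rd_tree.tri (φ u) (φ (tog i u)) (φ w)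
    have h3 : rd (φ u) (φ (tog i u)) = 1 := by
      rw [hφ]; exact rd_tog _ _
    omega

/-- The map with label permutation `σ` sending the root to `u0`. -/
def foldT (σ : α → α) (u0 : Red α) : List α → Red α
  | [] => u0
  | i :: t => tog (σ i) (foldT σ u0 t)

theorem foldT_tog (σ : α → α) (u0 : Red α) (i : α) (u : Red α) :
    foldT σ u0 (tog i u).1 = tog (σ i) (foldT σ u0 u.1) := by
  obtain ⟨l, hl⟩ := u
  change foldT σ u0 (togL i l) = tog (σ i) (foldT σ u0 l)
  cases l with
  | nil => simp [togL, foldT]
  | cons a t =>
    by_cases hi : a = i
    · have e1 : togL i (a :: t) = t := by simp [togL, hi]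
      rw [e1, hi]
      change _ = tog (σ i) (tog (σ i) (foldT σ u0 t))
      rw [tog_tog]
    · have e1 : togL i (a :: t) = i :: a :: t := by simp [togL, hi]
      rw [e1]
      rfl

end Pool.Agent.WM
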